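import Pool.Agent.N801.PF.Stm

/-!
Common lemmas on sums over tuples (helper801).
-/

set_option autoImplicit false

open Finset

namespace Pool.Agent.N801.PF

variable {ι : Type} [Fintype ι] [DecidableEq ι]

lemma mem_sp {r : ι → ℕ} {i : ι} : i ∈ sp r ↔ r i ≠ 1 := by
  rw [sp, mem_filter]; simp

/-- the sum over all tuples with coordinates in `{1} ∪ R` of a product -/
lemma sum_piFinset_prod (t : ι → Finset ℕ) (f : ι → ℕ → ℝ) :
    ∑ r ∈ Fintype.piFinset t, ∏ i, f i (r i) = ∏ i, ∑ x ∈ t i, f i x := by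
  rw [Finset.prod_univ_sum]

/-- the sum over the tuples with a given support -/
lemma sum_supp (R : Finset ℕ) (hR : ∀ ρ ∈ R, 1 < ρ) (g : ι → ℕ → ℝ) (S : Finset ι) :
    ∑ r ∈ Fintype.piFinset (fun i => if i ∈ S then R else {1}),
      ∏ i, (if r i = 1 then 1 else g i (r i)) = ∏ i ∈ S, ∑ ρ ∈ R, g i ρ := by
  rw [sum_piFinset_prod (fun i => if i ∈ S then R else {1}) (fun i x => if x = 1 then 1 else g i x)]
  rw [← Finset.prod_subset (Finset.subset_univ S)]
  · apply Finset.prod_congr rfl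
    intro i hi
    rw [if_pos hi]
    apply Finset.sum_congr rfl
    intro ρ hρ
    rw [if_neg (by have := hR ρ hρ; omega)]
  · intro i _ hi
    rw [if_neg hi, Finset.sum_singleton, if_pos rfl]

/-- bound for a sum over tuples by the supports -/
lemma gen_supp (R : Finset ℕ) (hR : ∀ ρ ∈ R, 1 < ρ) (g : ι → ℕ → ℝ)
    (hg : ∀ i, ∀ ρ ∈ R, 0 ≤ g i ρ) (F : Finset (ι → ℕ)) (hF : ∀ r ∈ F, ∀ i, r i = 1 ∨ r i ∈ R)
    (SS : Finset (Finset ι)) (hS : ∀ r ∈ F, sp r ∈ SS) :
    ∑ r ∈ F, ∏ i, (if r i = 1 then 1 else g i (r i)) ≤ ∑ S ∈ SS, ∏ i ∈ S, ∑ ρ ∈ R, g i ρ := by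
  rw [← Finset.sum_fiberwise_of_maps_to hS]
  apply Finset.sum_le_sum
  intro S _
  rw [← sum_supp R hR g S]
  apply Finset.sum_le_sum_of_subset_of_nonneg
  · intro r hr
    rw [mem_filter] at hr
    rw [Fintype.mem_piFinset]
    intro i
    have h1 := hF r hr.1 i
    have h2 : i ∈ S ↔ r i ≠ 1 := by rw [← hr.2]; exact mem_sp
    split_ifs with h
    · rcases h1 with h1 | h1
      · exact absurd h1 (h2.1 h)
      · exact h1
    · rw [mem_singleton]
      by_contra h3
      exact h (h2.2 h3)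
  · intro r hr _
    rw [Fintype.mem_piFinset] at hr
    apply Finset.prod_nonneg
    intro i _
    have h1 := hr i
    split_ifs with h2
    · norm_num
    · apply hg
      split_ifs at h1 with h3
      · exact h1
      · rw [mem_singleton] at h1; exact absurd h1 h2

/-- the number of the small subsets, with weights -/
lemma sum_small (S : Finset ι) (k : ℕ) (x : ℝ) (hx : 0 ≤ x) :
    ∑ T ∈ S.powerset.filter (fun T => T.card ≤ k), x ^ T.card ≤ (1 + (S.card : ℝ) * x) ^ k := by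
  have h1 : ∑ T ∈ S.powerset.filter (fun T => T.card ≤ k), x ^ T.card =
      ∑ j ∈ range (k + 1), (S.card.choose j : ℝ) * x ^ j := by
    rw [← Finset.sum_fiberwise_of_maps_to (g := Finset.card) (t := range (k + 1))]
    · apply Finset.sum_congr rfl
      intro j hj
      rw [mem_range] at hj
      rw [Finset.sum_congr rfl (g := fun _ => x ^ j)]
      · rw [Finset.sum_const, nsmul_eq_mul, Finset.filter_filter, ← Finset.card_powersetCard j S,
          Finset.powersetCard_eq_filter]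
        congr 3
        ext T
        simp only [mem_filter, mem_powerset]
        constructor
        · rintro ⟨h1, -, h3⟩; exact ⟨h1, h3⟩
        · rintro ⟨h1, h3⟩; exact ⟨h1, by omega, h3⟩
      · intro T hT
        rw [mem_filter] at hT
        rw [hT.2]
    · intro T hT
      rw [mem_filter] at hT
      exact mem_range.2 (by omega)
  rw [h1, add_comm (1 : ℝ), add_pow]
  apply Finset.sum_le_sum
  intro j hj
  rw [mem_range] at hj
  rw [one_pow, mul_one, mul_pow]
  have h2 : (S.card.choose j : ℝ) ≤ (S.card : ℝ) ^ j := by exact_mod_cast Nat.choose_le_pow _ _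
  have h3 : (1 : ℝ) ≤ (k.choose j : ℝ) := by
    exact_mod_cast Nat.choose_pos (by omega)
  calc (S.card.choose j : ℝ) * x ^ j ≤ (S.card : ℝ) ^ j * x ^ j := by gcongr
    _ ≤ (S.card : ℝ) ^ j * x ^ j * (k.choose j : ℝ) := le_mul_of_one_le_right (by positivity) h3

/-- all tuples with a support of at most `k` elements -/
lemma gen_supp_small (R : Finset ℕ) (hR : ∀ ρ ∈ R, 1 < ρ) (g : ℕ → ℝ) (hg : ∀ ρ ∈ R, 0 ≤ g ρ)
    (F : Finset (ι → ℕ)) (hF : ∀ r ∈ F, ∀ i, r i = 1 ∨ r i ∈ R) (k : ℕ)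
    (hk : ∀ r ∈ F, (sp r).card ≤ k) :
    ∑ r ∈ F, ∏ i, (if r i = 1 then 1 else g (r i)) ≤
      (1 + (Fintype.card ι : ℝ) * ∑ ρ ∈ R, g ρ) ^ k := by
  have h := gen_supp R hR (fun _ => g) (fun _ => hg) F hF
    ((univ : Finset ι).powerset.filter (fun T => T.card ≤ k))
    (fun r hr => mem_filter.2 ⟨mem_powerset.2 (subset_univ _), hk r hr⟩)
  refine h.trans ?_
  simp only [Finset.prod_const]
  have := sum_small (univ : Finset ι) k (∑ ρ ∈ R, g ρ) (Finset.sum_nonneg hg)
  rwa [Finset.card_univ] at this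

/-- subsets of `R` which are admissible consist of squarefree numbers with prime factors in `(y, Z]` -/
lemma Adm.primeFactors {y Z : ℕ} {R : Finset ℕ} (h : Adm y Z R) {ρ : ℕ} (hρ : ρ ∈ R) :
    ρ.primeFactors ⊆ prs y Z := by
  intro p hp
  obtain ⟨h1, h2, _, h4⟩ := h ρ hρ
  rw [mem_prs]
  exact ⟨⟨h4 p hp, (Nat.le_of_dvd (by omega) (Nat.dvd_of_mem_primeFactors hp)).trans h2⟩,
    Nat.prime_of_mem_primeFactors hp⟩

/-- the Euler product: a sum over squarefree numbers with prime factors in `P` -/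
lemma euler_le (P : Finset ℕ) (F : Finset ℕ)
    (hF : ∀ ρ ∈ F, Squarefree ρ ∧ ρ.primeFactors ⊆ P) (k : ℝ) (hk : 0 ≤ k) :
    ∑ ρ ∈ F, k ^ ρ.primeFactors.card / (ρ : ℝ) ≤ ∏ p ∈ P, (1 + k / (p : ℝ)) := by
  rw [Finset.prod_one_add]
  have h1 : ∀ ρ ∈ F, k ^ ρ.primeFactors.card / (ρ : ℝ) = ∏ p ∈ ρ.primeFactors, (k / (p : ℝ)) := by
    intro ρ hρ
    rw [Finset.prod_div_distrib, Finset.prod_const]
    congr 1
    rw [← Nat.cast_prod, Nat.prod_primeFactors_of_squarefree (hF ρ hρ).1]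
  rw [Finset.sum_congr rfl h1]
  have hinj : Set.InjOn Nat.primeFactors (F : Set ℕ) := by
    intro a ha b hb h
    rw [← Nat.prod_primeFactors_of_squarefree (hF a ha).1,
      ← Nat.prod_primeFactors_of_squarefree (hF b hb).1, h]
  rw [← Finset.sum_image (f := fun T : Finset ℕ => ∏ p ∈ T, (k / (p : ℝ))) hinj]
  apply Finset.sum_le_sum_of_subset_of_nonneg
  · intro T hT
    rw [mem_image] at hT
    obtain ⟨ρ, hρ, rfl⟩ := hT
    exact mem_powerset.2 (hF ρ hρ).2
  · intro T _ _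
    exact Finset.prod_nonneg fun p _ => by positivity

end Pool.Agent.N801.PF
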