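import Pool.Agent.N801.PF.Base

/-!
Bounds for the bracket (helper407, for project PF of helper801).
-/

set_option autoImplicit false

open Finset

namespace Pool.Agent.N801.PF

/-- the sum of the reciprocals of the multiples of `p` in a set of integers `≤ Z` -/
lemma sum_inv_mult_le (S : Finset ℕ) (Z p : ℕ) (hp : 1 ≤ p)
    (hS : ∀ s ∈ S, 1 ≤ s ∧ s ≤ Z) :
    ∑ s ∈ S.filter (fun s => p ∣ s), 1 / (s : ℝ) ≤ (1 + Real.log Z) / p := by
  have hp0 : (0 : ℝ) < p := by exact_mod_cast hp
  have h1 : ∑ s ∈ S.filter (fun s => p ∣ s), 1 / (s : ℝ) ≤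
      ∑ t ∈ Icc 1 Z, 1 / ((p : ℝ) * t) := by
    have hinj : Set.InjOn (fun s => s / p) ((S.filter (fun s => p ∣ s) : Finset ℕ) : Set ℕ) := by
      intro a ha b hb hab
      rw [mem_coe, mem_filter] at ha hb
      have h1 := Nat.mul_div_cancel' ha.2
      have h2 := Nat.mul_div_cancel' hb.2
      simp only at hab
      rw [hab] at h1
      omega
    have h2 : ∑ s ∈ S.filter (fun s => p ∣ s), 1 / (s : ℝ) =
        ∑ t ∈ (S.filter (fun s => p ∣ s)).image (fun s => s / p), 1 / ((p : ℝ) * t) := by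
      rw [Finset.sum_image hinj]
      apply Finset.sum_congr rfl
      intro s hs
      rw [mem_filter] at hs
      have h1 := Nat.mul_div_cancel' hs.2
      rw [← Nat.cast_mul, h1]
    rw [h2]
    apply Finset.sum_le_sum_of_subset_of_nonneg
    · intro t ht
      rw [mem_image] at ht
      obtain ⟨s, hs, rfl⟩ := ht
      rw [mem_filter] at hs
      have h3 := hS s hs.1
      rw [mem_Icc]
      refine ⟨Nat.div_pos (Nat.le_of_dvd (by omega) hs.2) (by omega), ?_⟩
      exact (Nat.div_le_self _ _).trans h3.2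
    · intro t _ _
      positivity
  have h2 : ∑ t ∈ Icc 1 Z, 1 / ((p : ℝ) * t) = (1 / p) * (harmonic Z : ℝ) := by
    rw [harmonic_eq_sum_Icc]
    push_cast
    rw [Finset.mul_sum]
    apply Finset.sum_congr rfl
    intro t _
    rw [one_div, mul_inv, one_div]
  have h3 : (harmonic Z : ℝ) ≤ 1 + Real.log Z := harmonic_le_one_add_log Z
  calc ∑ s ∈ S.filter (fun s => p ∣ s), 1 / (s : ℝ) ≤ (1 / p) * (harmonic Z : ℝ) := by
        rw [← h2]; exact h1
    _ ≤ (1 / p) * (1 + Real.log Z) := by gcongr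
    _ = (1 + Real.log Z) / p := by ring

theorem be_bound : BE := by
  intro ι _ _ y Z Y k₁ R al hR hy hZ hal hsum hk r hr
  have hnn : ∀ s ∈ R, 0 ≤ al s := fun s hs => (hal s hs).1
  have hnn' : 0 ≤ ∑ s ∈ R.filter (fun s => s.Coprime (mm r) ∧ s * mm r ≤ Y), al s :=
    Finset.sum_nonneg fun s hs => hnn s (mem_filter.1 hs).1
  have hle : ∑ s ∈ R.filter (fun s => s.Coprime (mm r) ∧ s * mm r ≤ Y), al s ≤ ∑ s ∈ R, al s :=
    Finset.sum_le_sum_of_subset_of_nonneg (filter_subset _ _) fun s hs _ => hnn s hs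
  refine ⟨by rw [be]; linarith, by rw [be]; linarith, fun hY => ?_⟩
  have hlogZ : 0 ≤ Real.log Z := Real.log_natCast_nonneg Z
  have hy0 : (0 : ℝ) < y := by exact_mod_cast hy
  have hr' := (mem_Tu.1 hr)
  -- the filter
  have hfil : R.filter (fun s => s.Coprime (mm r) ∧ s * mm r ≤ Y) =
      R.filter (fun s => s.Coprime (mm r)) := by
    apply Finset.filter_congr
    intro s hs
    have h1 := (hR s hs).2.1
    refine ⟨fun h => h.1, fun h => ⟨h, ?_⟩⟩
    calc s * mm r ≤ Z * mm r := Nat.mul_le_mul_right _ h1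
      _ = mm r * Z := mul_comm _ _
      _ ≤ Y := hY
  have hsplit : be R Y al r = ∑ s ∈ R.filter (fun s => ¬ s.Coprime (mm r)), al s := by
    rw [be, hfil, ← hsum,
      ← Finset.sum_filter_add_sum_filter_not R (fun s => s.Coprime (mm r)) al]
    ring
  have hpf : ∀ p ∈ (mm r).primeFactors, y < p := by
    intro p hp
    have hpp := Nat.prime_of_mem_primeFactors hp
    have hpd := Nat.dvd_of_mem_primeFactors hp
    rw [mm, Prime.dvd_finsetProd_iff hpp.prime] at hpd
    obtain ⟨i, _, hi⟩ := hpd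
    rcases hr'.1 i with h | h
    · rw [h] at hi
      exact absurd (Nat.dvd_one.1 hi) hpp.one_lt.ne'
    · have h2 := hR _ h
      exact h2.2.2.2 p (Nat.mem_primeFactors.2 ⟨hpp, hi, by omega⟩)
  have hmm : mm r ≠ 0 := by
    rw [mm, Finset.prod_ne_zero_iff]
    intro i _
    rcases hr'.1 i with h | h
    · rw [h]; norm_num
    · have := (hR _ h).1; omega
  have hcov : ∑ s ∈ R.filter (fun s => ¬ s.Coprime (mm r)), al s ≤
      ∑ p ∈ (mm r).primeFactors, ∑ s ∈ R.filter (fun s => p ∣ s), al s := by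
    have h1 : ∑ p ∈ (mm r).primeFactors, ∑ s ∈ R.filter (fun s => p ∣ s), al s =
        ∑ s ∈ R, ∑ p ∈ (mm r).primeFactors, if p ∣ s then al s else 0 := by
      rw [Finset.sum_comm]
      apply Finset.sum_congr rfl
      intro p _
      rw [Finset.sum_filter]
    rw [h1, Finset.sum_filter]
    apply Finset.sum_le_sum
    intro s hs
    have hs0 : ∀ p ∈ (mm r).primeFactors, 0 ≤ if p ∣ s then al s else 0 := by
      intro p _
      split_ifs
      · exact hnn s hs
      · exact le_refl 0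
    by_cases h : s.Coprime (mm r)
    · rw [if_neg (not_not.2 h)]
      exact Finset.sum_nonneg hs0
    · rw [if_pos h]
      obtain ⟨p, hp, hps, hpm⟩ := Nat.Prime.not_coprime_iff_dvd.1 h
      have h2 := Finset.single_le_sum hs0 (Nat.mem_primeFactors.2 ⟨hp, hpm, hmm⟩)
      rwa [if_pos hps] at h2
  rw [hsplit]
  refine hcov.trans ?_
  calc ∑ p ∈ (mm r).primeFactors, ∑ s ∈ R.filter (fun s => p ∣ s), al s
      ≤ ∑ p ∈ (mm r).primeFactors, (1 + Real.log Z) / y := by
        apply Finset.sum_le_sum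
        intro p hp
        have hpy := hpf p hp
        have hpy' : (y : ℝ) ≤ p := by exact_mod_cast hpy.le
        calc ∑ s ∈ R.filter (fun s => p ∣ s), al s ≤ ∑ s ∈ R.filter (fun s => p ∣ s), 1 / (s : ℝ) :=
              Finset.sum_le_sum fun s hs => (hal s (mem_filter.1 hs).1).2
          _ ≤ (1 + Real.log Z) / p := sum_inv_mult_le R Z p (by omega)
              (fun s hs => ⟨(hR s hs).1.le, (hR s hs).2.1⟩)
          _ ≤ (1 + Real.log Z) / y := by gcongr
    _ = ((mm r).primeFactors.card : ℝ) * ((1 + Real.log Z) / y) := by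
        rw [Finset.sum_const, nsmul_eq_mul]
    _ ≤ (k₁ : ℝ) * ((1 + Real.log Z) / y) := by
        have := hk r hr
        gcongr
    _ = (k₁ : ℝ) * (1 + Real.log Z) / y := by ring

end Pool.Agent.N801.PF
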