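import Pool.Agent.N801.PF.Base

/-!
The value at an integer with a rough position (helper232 for helper801, task PF/BR).
-/

set_option autoImplicit false

open Finset

namespace Pool.Agent.N801.PF

section BrAux

variable {ι : Type} [Fintype ι] [DecidableEq ι]

lemma br_upd {M : Type} [CommMonoid M] (g : ι → ℕ → M) (r : ι → ℕ) (i₀ : ι) (s : ℕ) :
    ∏ i, g i (Function.update r i₀ s i) = g i₀ s * ∏ i ∈ univ.erase i₀, g i (r i) := by
  rw [← Finset.mul_prod_erase univ _ (mem_univ i₀)]
  congr 1
  · rw [Function.update_self]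
  · apply Finset.prod_congr rfl
    intro i hi
    rw [Function.update_of_ne (Finset.ne_of_mem_erase hi)]

lemma br_spl {M : Type} [CommMonoid M] (g : ι → ℕ → M) (r : ι → ℕ) (i₀ : ι) :
    ∏ i, g i (r i) = g i₀ (r i₀) * ∏ i ∈ univ.erase i₀, g i (r i) := by
  rw [← Finset.mul_prod_erase univ _ (mem_univ i₀)]

lemma br_mm (r : ι → ℕ) (i₀ : ι) (s : ℕ) :
    mm (Function.update r i₀ s) = s * ∏ i ∈ univ.erase i₀, r i := by
  unfold mm
  exact br_upd (fun _ x => x) r i₀ s

lemma br_mm' (r : ι → ℕ) (i₀ : ι) : mm r = r i₀ * ∏ i ∈ univ.erase i₀, r i := by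
  unfold mm
  exact br_spl (fun _ x => x) r i₀

lemma br_ph (H y : ℕ) (pos : ι → ℕ) (r : ι → ℕ) (i₀ : ι) (s n : ℕ) (hs : s ≠ 1)
    (hr : r i₀ = 1) (ha : i₀ ∈ AA H y pos n) (hp : ∀ p ∈ s.primeFactors, ¬ p ∣ n + pos i₀) :
    Fr H y pos (Function.update r i₀ s) n = Fr H y pos r n := by
  unfold Fr
  rw [br_upd (fun i x => (if x = 1 then (1 : ℝ) else if act H y (n + pos i) then
      ph x (n + pos i) else 0)) r i₀ s,
    br_spl (fun i x => (if x = 1 then (1 : ℝ) else if act H y (n + pos i) then
      ph x (n + pos i) else 0)) r i₀]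
  have h1 : act H y (n + pos i₀) := by
    rw [AA, mem_filter] at ha
    exact ha.2
  have h2 : ph s (n + pos i₀) = 1 := by
    unfold ph
    apply Finset.prod_eq_one
    intro p hpp
    rw [if_neg (hp p hpp)]
  simp only [hr, if_true, if_neg hs, if_pos h1, h2]

lemma br_cf (al : ℕ → ℝ) (r : ι → ℕ) (i₀ : ι) (s : ℕ) (hs : s ≠ 1) (hr : r i₀ = 1) :
    cf al (Function.update r i₀ s) = - al s * cf al r := by
  unfold cf
  rw [br_upd (fun _ x => (if x = 1 then (1 : ℝ) else - al x)) r i₀ s,
    br_spl (fun _ x => (if x = 1 then (1 : ℝ) else - al x)) r i₀]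
  simp only [hr, if_true, if_neg hs, one_mul]

end BrAux

/-- the value at an integer with a rough position -/
theorem br : BR := by
  intro ι _ _ pos H y Y R al i₀ n hR ha hp
  have key : ∑ r ∈ (Tu ι R Y).filter (fun r => ¬ r i₀ = 1), cf al r * Fr H y pos r n =
      - ∑ r ∈ (Tu ι R Y).filter (fun r => r i₀ = 1),
        ∑ s ∈ R.filter (fun s => s.Coprime (mm r) ∧ s * mm r ≤ Y),
          al s * (cf al r * Fr H y pos r n) := by
    rw [← Finset.sum_neg_distrib]
    simp_rw [← Finset.sum_neg_distrib]
    rw [Finset.sum_sigma']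
    refine Finset.sum_bij' (fun r _ => (⟨Function.update r i₀ 1, r i₀⟩ : (_ : ι → ℕ) × ℕ))
      (fun x _ => Function.update x.1 i₀ x.2) ?_ ?_ ?_ ?_ ?_
    · intro r hr
      rw [mem_filter, mem_Tu] at hr
      obtain ⟨⟨h1, h2, h3⟩, h4⟩ := hr
      have h5 : r i₀ ∈ R := (h1 i₀).resolve_left h4
      have h6 := hR _ h5
      have e1 : mm (Function.update r i₀ 1) = ∏ i ∈ univ.erase i₀, r i := by
        rw [br_mm, one_mul]
      have e2 : r i₀ * mm (Function.update r i₀ 1) = mm r := by
        rw [e1, ← br_mm']
      rw [mem_sigma, mem_filter, mem_filter, mem_Tu]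
      dsimp only
      refine ⟨⟨⟨?_, ?_, ?_⟩, ?_⟩, h5, ?_, ?_⟩
      · intro i
        by_cases hi : i = i₀
        · left
          subst hi
          simp
        · rw [Function.update_of_ne hi]
          exact h1 i
      · intro i j hij
        by_cases hi : i = i₀
        · subst hi
          simp
        · by_cases hj : j = i₀
          · subst hj
            simp
          · rw [Function.update_of_ne hi, Function.update_of_ne hj]
            exact h2 i j hij
      · refine le_trans ?_ h3
        rw [← e2]
        exact Nat.le_mul_of_pos_left _ (by omega)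
      · simp
      · rw [e1]
        apply Nat.Coprime.prod_right
        intro i hi
        exact h2 i₀ i (Finset.ne_of_mem_erase hi).symm
      · rw [e2]
        exact h3
    · intro x hx
      obtain ⟨r, s⟩ := x
      rw [mem_sigma, mem_filter, mem_filter, mem_Tu] at hx
      obtain ⟨⟨⟨h1, h2, h3⟩, h4⟩, h5, h6, h7⟩ := hx
      simp only at h1 h2 h3 h4 h5 h6 h7 ⊢
      have h8 := hR s h5
      have e1 : mm (Function.update r i₀ s) = s * mm r := by
        rw [br_mm, br_mm' r i₀, h4, one_mul]
      have e2 : ∀ j, s.Coprime (r j) := fun j =>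
        Nat.Coprime.coprime_dvd_right (Finset.dvd_prod_of_mem r (mem_univ j)) h6
      rw [mem_filter, mem_Tu]
      refine ⟨⟨?_, ?_, ?_⟩, ?_⟩
      · intro i
        by_cases hi : i = i₀
        · right
          subst hi
          simpa using h5
        · rw [Function.update_of_ne hi]
          exact h1 i
      · intro i j hij
        by_cases hi : i = i₀
        · subst hi
          rw [Function.update_self, Function.update_of_ne hij.symm]
          exact e2 j
        · by_cases hj : j = i₀
          · subst hj
            rw [Function.update_self, Function.update_of_ne hi]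
            exact (e2 i).symm
          · rw [Function.update_of_ne hi, Function.update_of_ne hj]
            exact h2 i j hij
      · rw [e1]
        exact h7
      · rw [Function.update_self]
        omega
    · intro r _
      simp
    · intro x hx
      obtain ⟨r, s⟩ := x
      rw [mem_sigma, mem_filter] at hx
      have h4 : r i₀ = 1 := hx.1.2
      simp only [Function.update_idem, Function.update_self]
      rw [← h4, Function.update_eq_self]
    · intro r hr
      rw [mem_filter, mem_Tu] at hr
      obtain ⟨⟨h1, h2, h3⟩, h4⟩ := hr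
      have h5 : r i₀ ∈ R := (h1 i₀).resolve_left h4
      have e0 : Function.update (Function.update r i₀ 1) i₀ (r i₀) = r := by simp
      have e1 := br_cf al (Function.update r i₀ 1) i₀ (r i₀) h4 (by simp)
      have e2 := br_ph H y pos (Function.update r i₀ 1) i₀ (r i₀) n h4 (by simp) ha (hp _ h5)
      rw [e0] at e1 e2
      simp only
      rw [e1, e2]
      ring
  rw [← Finset.sum_filter_add_sum_filter_not (Tu ι R Y) (fun r => r i₀ = 1), key]
  have h2 : ∑ r ∈ Tu ι R Y, ci R Y al i₀ r * Fr H y pos r n =
      ∑ r ∈ (Tu ι R Y).filter (fun r => r i₀ = 1), cf al r * be R Y al r * Fr H y pos r n := by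
    rw [Finset.sum_filter]
    apply Finset.sum_congr rfl
    intro r _
    unfold ci
    split_ifs <;> simp
  rw [h2, ← sub_eq_add_neg, ← Finset.sum_sub_distrib]
  apply Finset.sum_congr rfl
  intro r _
  unfold be
  rw [← Finset.sum_mul]
  ring

end Pool.Agent.N801.PF
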