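import Pool.Agent.N801.PF.Base

/-!
The core inequality: second moment, rough positions (helper801).
-/

set_option autoImplicit false

open Finset

namespace Pool.Agent.N801.PF

variable {ι : Type} [Fintype ι] [DecidableEq ι]

/-- the weights `P al(ρ)² ρ` -/
noncomputable def omg (P : ℝ) (al : ℕ → ℝ) (ρ : ℕ) : ℝ := P * al ρ ^ 2 * ρ

lemma Wt_omg (P : ℝ) (al : ℕ → ℝ) (r : ι → ℕ) :
    Wt (omg P al) r = P ^ (sp r).card * cf al r ^ 2 * (mm r : ℝ) := by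
  unfold Wt omg cf mm sp
  rw [← Finset.prod_pow, Nat.cast_prod, ← Finset.prod_const, Finset.prod_filter,
    ← Finset.prod_mul_distrib, ← Finset.prod_mul_distrib]
  apply Finset.prod_congr rfl
  intro i _
  by_cases h : r i = 1
  · simp [h]
  · simp only [h, if_false, ne_eq, not_false_eq_true, if_true]
    ring

/-- the rough active positions -/
def NN (H y Z : ℕ) (pos : ι → ℕ) (n : ℕ) : Finset ι :=
  (AA H y pos n).filter (fun i => ∀ p ∈ prs y Z, ¬ p ∣ n + pos i)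

lemma totient_lower {y k₁ m : ℕ} (hy : 1 ≤ y) (hm : Squarefree m)
    (hk : m.primeFactors.card ≤ k₁) (hp : ∀ p ∈ m.primeFactors, y < p) :
    (1 - (k₁ : ℝ) / y) * (m : ℝ) ≤ (Nat.totient m : ℝ) := by
  have hy' : (1 : ℝ) ≤ y := by exact_mod_cast hy
  have h1 : (Nat.totient m : ℝ) = m * ∏ p ∈ m.primeFactors, (1 - (p : ℝ)⁻¹) := by
    have := Nat.totient_eq_mul_prod_factors m
    have h2 : ((Nat.totient m : ℚ) : ℝ) = ((m * ∏ p ∈ m.primeFactors, (1 - (p : ℚ)⁻¹) : ℚ) : ℝ) := by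
      rw [this]
    push_cast at h2
    exact h2
  rw [h1, mul_comm]
  apply mul_le_mul_of_nonneg_left _ (Nat.cast_nonneg m)
  have h3 : ∀ p ∈ m.primeFactors, (p : ℝ)⁻¹ ≤ 1 / y := by
    intro p hp'
    rw [← one_div]
    apply one_div_le_one_div_of_le (by linarith)
    exact_mod_cast (hp p hp').le
  have h4 : ∀ s : Finset ℕ, s ⊆ m.primeFactors →
      1 - (s.card : ℝ) / y ≤ ∏ p ∈ s, (1 - (p : ℝ)⁻¹) ∧ ∏ p ∈ s, (1 - (p : ℝ)⁻¹) ≤ 1 ∧
        0 ≤ ∏ p ∈ s, (1 - (p : ℝ)⁻¹) := by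
    intro s
    induction s using Finset.induction_on with
    | empty => intro _; simp
    | insert a s ha ih =>
      intro hs
      obtain ⟨i1, i2, i3⟩ := ih ((subset_insert a s).trans hs)
      have ha' := hs (mem_insert_self a s)
      have h5 := h3 a ha'
      have h6 : (0 : ℝ) ≤ (a : ℝ)⁻¹ := by positivity
      have h7 : (a : ℝ)⁻¹ ≤ 1 := h5.trans (by rw [div_le_one (by linarith)]; exact hy')
      rw [Finset.prod_insert ha, Finset.card_insert_of_notMem ha]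
      refine ⟨?_, ?_, ?_⟩
      · push_cast
        rw [add_div]
        have h8 : (a : ℝ)⁻¹ * ∏ p ∈ s, (1 - (p : ℝ)⁻¹) ≤ 1 / y := by
          calc (a : ℝ)⁻¹ * ∏ p ∈ s, (1 - (p : ℝ)⁻¹) ≤ (a : ℝ)⁻¹ * 1 := by gcongr
            _ ≤ 1 / y := by rw [mul_one]; exact h5
        linarith
      · exact mul_le_one₀ (by linarith) i3 i2
      · exact mul_nonneg (by linarith) i3
  have h9 := (h4 _ (Subset.refl _)).1
  refine le_trans ?_ h9
  have : (m.primeFactors.card : ℝ) / y ≤ (k₁ : ℝ) / y := by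
    apply div_le_div_of_nonneg_right _ (by linarith)
    exact_mod_cast hk
  linarith

lemma mm_squarefree {y Z Y : ℕ} {R : Finset ℕ} (hR : Adm y Z R) {r : ι → ℕ} (hr : r ∈ Tu ι R Y) :
    Squarefree (mm r) := by
  rw [mem_Tu] at hr
  unfold mm
  have : ∀ s : Finset ι, Squarefree (∏ i ∈ s, r i) := by
    intro s
    induction s using Finset.induction_on with
    | empty => simp
    | insert a s ha ih =>
      rw [Finset.prod_insert ha]
      rw [Nat.squarefree_mul_iff]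
      refine ⟨?_, ?_, ih⟩
      · apply Nat.Coprime.prod_right
        intro j hj
        exact hr.2.1 a j (by rintro rfl; exact ha hj)
      · rcases hr.1 a with h | h
        · rw [h]; exact squarefree_one
        · exact (hR _ h).2.2.1
  exact this univ

lemma mm_prime_gt {y Z Y : ℕ} {R : Finset ℕ} (hR : Adm y Z R) {r : ι → ℕ} (hr : r ∈ Tu ι R Y)
    {p : ℕ} (hp : p ∈ (mm r).primeFactors) : y < p := by
  rw [mem_Tu] at hr
  have hpp := Nat.prime_of_mem_primeFactors hp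
  have hd := Nat.dvd_of_mem_primeFactors hp
  unfold mm at hd
  rw [Prime.dvd_finsetProd_iff hpp.prime] at hd
  obtain ⟨i, _, hi⟩ := hd
  rcases hr.1 i with h | h
  · rw [h] at hi
    exact absurd (Nat.dvd_one.1 hi) hpp.one_lt.ne'
  · exact (hR _ h).2.2.2 p (Nat.mem_primeFactors.2 ⟨hpp, hi, by have := (hR _ h).1; omega⟩)

lemma mm_pos {y Z Y : ℕ} {R : Finset ℕ} (hR : Adm y Z R) {r : ι → ℕ} (hr : r ∈ Tu ι R Y) :
    1 ≤ mm r := by
  rw [mem_Tu] at hr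
  unfold mm
  refine Nat.one_le_iff_ne_zero.2 (Finset.prod_ne_zero_iff.2 ?_)
  intro i _
  rcases hr.1 i with h | h
  · omega
  · have := (hR _ h).1; omega

lemma omg_nonneg {P : ℝ} (hP : 0 ≤ P) (al : ℕ → ℝ) (ρ : ℕ) : 0 ≤ omg P al ρ := by
  unfold omg; positivity

lemma Wt_nonneg {om : ℕ → ℝ} {y Z Y : ℕ} {R : Finset ℕ} (hR : Adm y Z R) (hom : ∀ ρ ∈ R, 0 ≤ om ρ)
    {r : ι → ℕ} (hr : r ∈ Tu ι R Y) : 0 ≤ Wt om r := by
  rw [mem_Tu] at hr
  unfold Wt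
  apply Finset.prod_nonneg
  intro i _
  split_ifs with h
  · norm_num
  · rcases hr.1 i with h' | h'
    · exact absurd h' h
    · exact hom _ h'

/-- lower bound for the main term of the second moment -/
lemma main_lower (hPJ : PJ) {H J Z Y k₀ k₁ : ℕ} {R : Finset ℕ} {al : ℕ → ℝ}
    (hH : 1 ≤ H) (hk0H : 2 * k₀ ≤ H) (hR : Adm (2 ^ 2 ^ J) Z R)
    (hk0 : ∀ r ∈ Tu ι R Y, (sp r).card ≤ k₀)
    (hk1 : ∀ r ∈ Tu ι R Y, (mm r).primeFactors.card ≤ k₁)
    (ε : ℝ) (hε : (k₀ : ℝ) ^ 2 / H ≤ ε) (hε' : (k₁ : ℝ) / (2 : ℝ) ^ 2 ^ J ≤ ε) (hε1 : ε ≤ 1) :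
    (1 - ε) ^ 2 * ∑ r ∈ Tu ι R Y, Wt (omg (pj H (2 ^ 2 ^ J) 1) al) r ≤
      ∑ r ∈ Tu ι R Y, cf al r ^ 2 * (Nat.totient (mm r) : ℝ) * pj H (2 ^ 2 ^ J) (sp r).card := by
  rw [Finset.mul_sum]
  apply Finset.sum_le_sum
  intro r hr
  rw [Wt_omg]
  have h1 := hk0 r hr
  have hy1 : 1 ≤ 2 ^ 2 ^ J := Nat.one_le_two_pow
  have h2 := totient_lower hy1 (mm_squarefree hR hr) (hk1 r hr) (fun p hp => mm_prime_gt hR hr hp)
  push_cast at h2
  obtain ⟨h3, h4, h5, h6⟩ := hPJ H (2 ^ 2 ^ J) (sp r).card hH (by omega)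
  have h6' := h6 (by omega)
  have h0 := (hPJ H (2 ^ 2 ^ J) 1 hH hH).1
  have h7 : (1 - ε) * pj H (2 ^ 2 ^ J) 1 ^ (sp r).card ≤ pj H (2 ^ 2 ^ J) (sp r).card := by
    refine le_trans ?_ h6'
    apply mul_le_mul_of_nonneg_right _ (pow_nonneg h0 _)
    have : ((sp r).card : ℝ) ^ 2 / H ≤ (k₀ : ℝ) ^ 2 / H := by
      apply div_le_div_of_nonneg_right _ (Nat.cast_nonneg _)
      have : ((sp r).card : ℝ) ≤ k₀ := by exact_mod_cast h1
      gcongr
    linarith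
  have h8 : (1 - ε) * (mm r : ℝ) ≤ (Nat.totient (mm r) : ℝ) := by
    refine le_trans ?_ h2
    apply mul_le_mul_of_nonneg_right _ (Nat.cast_nonneg _)
    linarith
  have h9 : 0 ≤ 1 - ε := by linarith
  calc (1 - ε) ^ 2 * (pj H (2 ^ 2 ^ J) 1 ^ (sp r).card * cf al r ^ 2 * (mm r : ℝ))
      = cf al r ^ 2 * ((1 - ε) * (mm r : ℝ)) * ((1 - ε) * pj H (2 ^ 2 ^ J) 1 ^ (sp r).card) := by ring
    _ ≤ cf al r ^ 2 * (Nat.totient (mm r) : ℝ) * pj H (2 ^ 2 ^ J) (sp r).card := by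
        apply mul_le_mul
        · exact mul_le_mul_of_nonneg_left h8 (sq_nonneg _)
        · exact h7
        · exact mul_nonneg h9 (pow_nonneg h0 _)
        · positivity

/-- upper bound for the main term of the rough second moment -/
lemma main_upper (hPJ : PJ) (hBE : BE) (hPU : PU) {H J Z Y k₀ k₁ : ℕ} {R : Finset ℕ} {al : ℕ → ℝ}
    (hH : 1 ≤ H) (hk0H : k₀ + 1 ≤ H) (hR : Adm (2 ^ 2 ^ J) Z R) (hZ : 1 ≤ Z) (hY : 1 ≤ Y)
    (hal : ∀ ρ ∈ R, 0 ≤ al ρ ∧ al ρ ≤ 1 / (ρ : ℝ)) (hsum : ∑ ρ ∈ R, al ρ = 1)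
    (hk0 : ∀ r ∈ Tu ι R Y, (sp r).card ≤ k₀)
    (hk1 : ∀ r ∈ Tu ι R Y, (mm r).primeFactors.card ≤ k₁) (θ : ℝ) (hθ : 0 ≤ θ) (i₀ : ι)
    (β : ℝ) (hβ : (k₁ : ℝ) * (1 + Real.log Z) / (2 : ℝ) ^ 2 ^ J ≤ β) :
    ∑ r ∈ Tu ι R Y, ci R Y al i₀ r ^ 2 * (Nat.totient (mm r) : ℝ) *
        pj H (2 ^ 2 ^ J) ((sp r).card + 1) ≤
      pj H (2 ^ 2 ^ J) 1 * ((((Y : ℝ) / Z) ^ (-θ)) * Real.exp ((Fintype.card ι : ℝ) *
          ∑ ρ ∈ R, omg (pj H (2 ^ 2 ^ J) 1) al ρ * (ρ : ℝ) ^ θ) +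
        β ^ 2 * Real.exp ((Fintype.card ι : ℝ) * ∑ ρ ∈ R, omg (pj H (2 ^ 2 ^ J) 1) al ρ)) := by
  classical
  obtain ⟨P, hP⟩ : ∃ P, P = pj H (2 ^ 2 ^ J) 1 := ⟨_, rfl⟩
  have hP0 : 0 ≤ P := by rw [hP]; exact (hPJ H (2 ^ 2 ^ J) 1 hH hH).1
  have hom : ∀ ρ ∈ R, 1 < ρ ∧ 0 ≤ omg P al ρ := fun ρ hρ => ⟨(hR ρ hρ).1, omg_nonneg hP0 al ρ⟩
  have hZ' : (0 : ℝ) < Z := by exact_mod_cast hZ
  have hY' : (0 : ℝ) < Y := by exact_mod_cast hY
  -- pointwise bound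
  have h1 : ∀ r ∈ Tu ι R Y, ci R Y al i₀ r ^ 2 * (Nat.totient (mm r) : ℝ) *
      pj H (2 ^ 2 ^ J) ((sp r).card + 1) ≤ P * (be R Y al r ^ 2 * Wt (omg P al) r) := by
    intro r hr
    have h2 := (hPJ H (2 ^ 2 ^ J) ((sp r).card + 1) hH (by have := hk0 r hr; omega)).2.2.1
    have h2' := (hPJ H (2 ^ 2 ^ J) ((sp r).card + 1) hH (by have := hk0 r hr; omega)).1
    rw [← hP] at h2
    have h3 : ci R Y al i₀ r ^ 2 ≤ cf al r ^ 2 * be R Y al r ^ 2 := by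
      unfold ci
      split_ifs
      · rw [mul_pow]
      · have : (0 : ℝ) ^ 2 = 0 := by norm_num
        rw [this]; positivity
    have h4 : (Nat.totient (mm r) : ℝ) ≤ mm r := by exact_mod_cast Nat.totient_le _
    calc ci R Y al i₀ r ^ 2 * (Nat.totient (mm r) : ℝ) * pj H (2 ^ 2 ^ J) ((sp r).card + 1)
        ≤ (cf al r ^ 2 * be R Y al r ^ 2) * (mm r : ℝ) * P ^ ((sp r).card + 1) := by
          apply mul_le_mul _ h2 h2' (by positivity)
          apply mul_le_mul h3 h4 (by positivity) (by positivity)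
      _ = P * (be R Y al r ^ 2 * Wt (omg P al) r) := by rw [Wt_omg]; ring
  refine (Finset.sum_le_sum h1).trans ?_
  rw [← Finset.mul_sum, ← hP]
  apply mul_le_mul_of_nonneg_left _ hP0
  -- split by size
  have h5 : ∀ r ∈ Tu ι R Y, be R Y al r ^ 2 * Wt (omg P al) r ≤
      (if (Y : ℝ) / Z ≤ (mm r : ℝ) then Wt (omg P al) r else 0) + β ^ 2 * Wt (omg P al) r := by
    intro r hr
    have hW := Wt_nonneg hR (fun ρ _ => omg_nonneg hP0 al ρ) hr
    obtain ⟨b1, b2, b3⟩ := hBE ι (2 ^ 2 ^ J) Z Y k₁ R al hR Nat.one_le_two_pow hZ hal hsum hk1 r hr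
    split_ifs with h
    · have : be R Y al r ^ 2 * Wt (omg P al) r ≤ 1 * Wt (omg P al) r := by
        apply mul_le_mul_of_nonneg_right _ hW
        exact pow_le_one₀ b1 b2
      have h6 : 0 ≤ β ^ 2 * Wt (omg P al) r := by positivity
      linarith
    · rw [zero_add]
      apply mul_le_mul_of_nonneg_right _ hW
      apply pow_le_pow_left₀ b1
      refine le_trans (b3 ?_) (by push_cast; exact hβ)
      rw [not_le, lt_div_iff₀ hZ'] at h
      exact_mod_cast h.le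
  refine (Finset.sum_le_sum h5).trans ?_
  rw [Finset.sum_add_distrib, ← Finset.mul_sum]
  have hsub : Tu ι R Y ⊆ Fintype.piFinset (fun _ : ι => insert 1 R) := Finset.filter_subset _ _
  have hWnn : ∀ r ∈ Fintype.piFinset (fun _ : ι => insert 1 R), 0 ≤ Wt (omg P al) r := by
    intro r hr
    rw [Fintype.mem_piFinset] at hr
    unfold Wt
    apply Finset.prod_nonneg
    intro i _
    split_ifs
    · norm_num
    · exact omg_nonneg hP0 _ _
  apply add_le_add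
  · rw [← Finset.sum_filter]
    refine le_trans ?_ (hPU ι R (omg P al) θ ((Y : ℝ) / Z) hom hθ (by positivity))
    apply Finset.sum_le_sum_of_subset_of_nonneg
    · intro r hr
      rw [mem_filter] at hr ⊢
      exact ⟨hsub hr.1, hr.2⟩
    · intro r hr _
      rw [mem_filter] at hr
      exact hWnn r hr.1
  · apply mul_le_mul_of_nonneg_left _ (sq_nonneg _)
    have h7 := hPU ι R (omg P al) 0 1 hom le_rfl one_pos
    rw [neg_zero, Real.rpow_zero, one_mul] at h7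
    simp only [Real.rpow_zero, mul_one] at h7
    refine le_trans ?_ h7
    apply Finset.sum_le_sum_of_subset_of_nonneg
    · intro r hr
      rw [mem_filter]
      exact ⟨hsub hr, by exact_mod_cast mm_pos hR hr⟩
    · intro r hr _
      rw [mem_filter] at hr
      exact hWnn r hr.1

end Pool.Agent.N801.PF
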