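import Pool.Agent.N801.PF.Core1

/-!
The core inequality: integers without rough positions (helper801).
-/

set_option autoImplicit false

open Finset

namespace Pool.Agent.N801.PF

variable {ι : Type} [Fintype ι] [DecidableEq ι]

/-- the second moment over all `n` -/
lemma sec_lower (hSM : SM) (hPJ : PJ) (hPL : PL) (C : ℕ) (hC : FLTC C)
    {κ b J H W x b₀ Z Y k₀ k₁ : ℕ} {R : Finset ℕ} {al : ℕ → ℝ} {pos : ι → ℕ}
    (h1 : C * (κ + 1) ≤ b) (h2 : C * (κ + 1) ≤ H) (h3 : 4 * k₀ + 1 ≤ κ) (h4 : H ≤ 2 ^ 2 ^ J)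
    (h5 : 1 ≤ W) (h6 : ∀ p : ℕ, p.Prime → p ∣ W → p ≤ H) (hx : 1 ≤ x) (hpos : Pos H pos)
    (hR : Adm (2 ^ 2 ^ J) Z R) (hY : 1 ≤ Y)
    (hal : ∀ ρ ∈ R, 0 ≤ al ρ ∧ al ρ ≤ 1 / (ρ : ℝ)) (hsum : ∑ ρ ∈ R, al ρ = 1)
    (hk0 : ∀ r ∈ Tu ι R Y, (sp r).card ≤ k₀)
    (hk1 : ∀ r ∈ Tu ι R Y, (mm r).primeFactors.card ≤ k₁)
    (θ : ℝ) (hθ : 0 ≤ θ) (P q qθ D δ : ℝ) (hP : P = pj H (2 ^ 2 ^ J) 1)
    (hq : q = ∑ ρ ∈ R, omg P al ρ) (hqθ : qθ = ∑ ρ ∈ R, omg P al ρ * (ρ : ℝ) ^ θ)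
    (hq1 : (Fintype.card ι : ℝ) * q ^ 2 ≤ 1) (hD : 0 ≤ D)
    (hDp : ∀ p : ℕ, p.Prime → ∑ ρ ∈ R.filter (fun ρ => p ∣ ρ), omg P al ρ ≤ D / p)
    (hδ : 0 ≤ δ) (hδ1 : δ ≤ 1 / 100)
    (e1 : (k₀ : ℝ) ^ 2 / H ≤ δ) (e2 : (k₁ : ℝ) / (2 : ℝ) ^ 2 ^ J ≤ δ)
    (e3 : (Y : ℝ) ^ (-θ) * Real.exp ((Fintype.card ι : ℝ) * qθ) ≤
      δ * Real.exp ((Fintype.card ι : ℝ) * q))
    (e4 : (Fintype.card ι : ℝ) ^ 2 * D ^ 2 / (2 : ℝ) ^ 2 ^ J ≤ δ)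
    (e5 : (1 / 2 : ℝ) ^ b * (1 + (Fintype.card ι : ℝ) * (P * XX R al)) ^ (2 * k₀) ≤ δ)
    (e6 : (1 + (Fintype.card ι : ℝ)) ^ (k₀ + k₁) / (2 : ℝ) ^ 2 ^ J ≤ δ)
    (e7 : ((2 : ℝ) ^ 2 ^ J) ^ (C * b) * (Y : ℝ) ^ 4 * (1 + (Fintype.card ι : ℝ)) ^ (2 * k₀) ≤
      δ * ((x : ℝ) / W)) :
    (1 / 5 : ℝ) * ((x : ℝ) / W) * Real.exp ((Fintype.card ι : ℝ) * q) ≤
      ∑ n ∈ II x (2 * x) W b₀, (∑ r ∈ Tu ι R Y, cf al r * Fr H (2 ^ 2 ^ J) pos r n) ^ 2 := by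
  have hC1 : 1 ≤ C := hC.1
  have hκH : κ + 1 ≤ H := le_trans (Nat.le_mul_of_pos_left _ hC1) h2
  have hP0 : 0 ≤ P := by rw [hP]; exact (hPJ H (2 ^ 2 ^ J) 1 (by omega) (by omega)).1
  have hW : (0 : ℝ) < W := by exact_mod_cast h5
  have hx' : (0 : ℝ) < x := by exact_mod_cast hx
  have hxW : 0 < (x : ℝ) / W := by positivity
  obtain ⟨v, hv⟩ : ∃ v : ℝ, v = Fintype.card ι := ⟨_, rfl⟩
  have hv0 : 0 ≤ v := by rw [hv]; positivity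
  -- second moment
  have hS := hSM C hC ι κ b J H W x (2 * x) b₀ Z Y k₀ k₁ R al pos ∅ (cf al) h1 h2 (by omega) h4 h5 h6
    (by omega) hpos hR hal hsum.le hk0 hk1 (by simp) (fun _ _ => le_rfl) (fun _ _ _ => by simp)
  have hfil : (II x (2 * x) W b₀).filter (fun n => (∅ : Finset ι) ⊆ AA H (2 ^ 2 ^ J) pos n) =
      II x (2 * x) W b₀ := Finset.filter_true_of_mem (fun _ _ => Finset.empty_subset _)
  rw [hfil] at hS
  simp only [Finset.card_empty, add_zero, pow_zero, one_mul] at hS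
  have hxx : (((2 * x : ℕ) : ℝ) - x) / W = (x : ℝ) / W := by push_cast; ring
  rw [hxx, ← hP] at hS
  -- main term
  have hM := main_lower hPJ (H := H) (J := J) (Z := Z) (Y := Y) (k₀ := k₀) (k₁ := k₁) (al := al)
    (by omega) (by omega) hR hk0 hk1 δ e1 e2 (by linarith)
  rw [← hP] at hM
  have hL := hPL ι (2 ^ 2 ^ J) Z Y R (omg P al) θ D hR Nat.one_le_two_pow hY
    (fun ρ _ => omg_nonneg hP0 al ρ) hθ (by rw [← hq]; exact hq1) hD hDp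
  rw [← hq, ← hqθ] at hL
  push_cast at hL
  have hexp1 : Real.exp ((Fintype.card ι : ℝ) * q - 1) =
      Real.exp ((Fintype.card ι : ℝ) * q) * Real.exp (-1) := by rw [← Real.exp_add]; ring_nf
  have hem1 : (0.36 : ℝ) ≤ Real.exp (-1) := by
    have := Real.exp_neg_one_gt_d9
    linarith
  have hEpos : 0 < Real.exp ((Fintype.card ι : ℝ) * q) := Real.exp_pos _
  have hE1 : 1 ≤ Real.exp ((Fintype.card ι : ℝ) * q) := by
    apply Real.one_le_exp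
    have : 0 ≤ q := by rw [hq]; exact Finset.sum_nonneg fun ρ _ => omg_nonneg hP0 al ρ
    positivity
  obtain ⟨E, hE⟩ : ∃ E, E = Real.exp ((Fintype.card ι : ℝ) * q) := ⟨_, rfl⟩
  rw [hexp1] at hL
  rw [← hE] at hL e3 hEpos hE1 ⊢
  have hlow : (0.33 : ℝ) * E ≤ ∑ r ∈ Tu ι R Y, Wt (omg P al) r := by
    have h7 : 0.36 * E ≤ E * Real.exp (-1) := by
      rw [mul_comm]; exact mul_le_mul_of_nonneg_left hem1 hEpos.le
    have h8 : (Fintype.card ι : ℝ) ^ 2 * D ^ 2 / (2 : ℝ) ^ 2 ^ J * E ≤ δ * E :=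
      mul_le_mul_of_nonneg_right e4 hEpos.le
    have h9 : δ * E ≤ 1 / 100 * E := mul_le_mul_of_nonneg_right hδ1 hEpos.le
    linarith
  have hmain : (0.32 : ℝ) * E ≤ ∑ r ∈ Tu ι R Y, cf al r ^ 2 * (Nat.totient (mm r) : ℝ) *
      pj H (2 ^ 2 ^ J) (sp r).card := by
    refine le_trans ?_ hM
    have h10 : (0.98 : ℝ) ≤ (1 - δ) ^ 2 := by
      have h10a : (1 - δ) ^ 2 = 1 - 2 * δ + δ ^ 2 := by ring
      have h10b := sq_nonneg δ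
      linarith
    calc (0.32 : ℝ) * E ≤ 0.98 * (0.33 * E) := by linarith
      _ ≤ (1 - δ) ^ 2 * ∑ r ∈ Tu ι R Y, Wt (omg P al) r := by
          apply mul_le_mul h10 hlow (by positivity) (sq_nonneg _)
  have habs := (abs_le.1 hS).1
  have h11 := mul_le_mul_of_nonneg_left (add_le_add e5 e6) hxW.le
  have h12 := mul_le_mul_of_nonneg_left hmain hxW.le
  have h13 : δ * ((x : ℝ) / W) ≤ 1 / 100 * ((x : ℝ) / W) := mul_le_mul_of_nonneg_right hδ1 hxW.le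
  have h14 : (x : ℝ) / W ≤ (x : ℝ) / W * E := le_mul_of_one_le_right hxW.le hE1
  have h15 : (x : ℝ) / W * (δ + δ) ≤ (x : ℝ) / W * (1 / 50) :=
    mul_le_mul_of_nonneg_left (by linarith) hxW.le
  have h16 : (1 / 5 : ℝ) * ((x : ℝ) / W) * E = (1 / 5 : ℝ) * ((x : ℝ) / W * E) := by ring
  have h17 : (x : ℝ) / W * (0.32 * E) = 0.32 * ((x : ℝ) / W * E) := by ring
  rw [h16]
  rw [h17] at h12
  linarith

/-- the second moment over the rough positions -/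
lemma sec_upper (hSM : SM) (hPJ : PJ) (hPU : PU) (hBE : BE) (hBR : BR) (C : ℕ) (hC : FLTC C)
    {κ b J H W x b₀ Z Y k₀ k₁ : ℕ} {R : Finset ℕ} {al : ℕ → ℝ} {pos : ι → ℕ}
    (h1 : C * (κ + 1) ≤ b) (h2 : C * (κ + 1) ≤ H) (h3 : 4 * k₀ + 1 ≤ κ) (h4 : H ≤ 2 ^ 2 ^ J)
    (h5 : 1 ≤ W) (h6 : ∀ p : ℕ, p.Prime → p ∣ W → p ≤ H) (hx : 1 ≤ x) (hpos : Pos H pos)
    (hR : Adm (2 ^ 2 ^ J) Z R) (hY : 1 ≤ Y) (hZ : 1 ≤ Z)
    (hal : ∀ ρ ∈ R, 0 ≤ al ρ ∧ al ρ ≤ 1 / (ρ : ℝ)) (hsum : ∑ ρ ∈ R, al ρ = 1)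
    (hk0 : ∀ r ∈ Tu ι R Y, (sp r).card ≤ k₀)
    (hk1 : ∀ r ∈ Tu ι R Y, (mm r).primeFactors.card ≤ k₁)
    (θ : ℝ) (hθ : 0 ≤ θ) (P q qθ δ β : ℝ) (hP : P = pj H (2 ^ 2 ^ J) 1)
    (hq : q = ∑ ρ ∈ R, omg P al ρ) (hqθ : qθ = ∑ ρ ∈ R, omg P al ρ * (ρ : ℝ) ^ θ)
    (hβ : (k₁ : ℝ) * (1 + Real.log Z) / (2 : ℝ) ^ 2 ^ J ≤ β)
    (hδ : 0 ≤ δ) (hδ1 : δ ≤ 1 / 100)
    (f3 : (Fintype.card ι : ℝ) * P * (((Y : ℝ) / Z) ^ (-θ) * Real.exp ((Fintype.card ι : ℝ) * qθ)) ≤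
      δ * Real.exp ((Fintype.card ι : ℝ) * q))
    (f4 : (Fintype.card ι : ℝ) * P * β ^ 2 ≤ δ)
    (f5 : (1 / 2 : ℝ) ^ b * ((Fintype.card ι : ℝ) * P *
      (1 + (Fintype.card ι : ℝ) * (P * XX R al)) ^ (2 * k₀)) ≤ δ)
    (f6 : (Fintype.card ι : ℝ) * ((1 + (Fintype.card ι : ℝ)) ^ (k₀ + k₁) / (2 : ℝ) ^ 2 ^ J) ≤ δ)
    (f7 : (Fintype.card ι : ℝ) * (((2 : ℝ) ^ 2 ^ J) ^ (C * b) * (Y : ℝ) ^ 4 *
      (1 + (Fintype.card ι : ℝ)) ^ (2 * k₀)) ≤ δ * ((x : ℝ) / W)) :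
    ∑ n ∈ II x (2 * x) W b₀, (∑ r ∈ Tu ι R Y, cf al r * Fr H (2 ^ 2 ^ J) pos r n) ^ 2 *
        ((NN H (2 ^ 2 ^ J) Z pos n).card : ℝ) ≤
      (1 / 10 : ℝ) * ((x : ℝ) / W) * Real.exp ((Fintype.card ι : ℝ) * q) := by
  classical
  have hC1 : 1 ≤ C := hC.1
  have hκH : κ + 1 ≤ H := le_trans (Nat.le_mul_of_pos_left _ hC1) h2
  have hP0 : 0 ≤ P := by rw [hP]; exact (hPJ H (2 ^ 2 ^ J) 1 (by omega) (by omega)).1
  have hW : (0 : ℝ) < W := by exact_mod_cast h5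
  have hx' : (0 : ℝ) < x := by exact_mod_cast hx
  have hxW : 0 < (x : ℝ) / W := by positivity
  have hq0 : 0 ≤ q := by rw [hq]; exact Finset.sum_nonneg fun ρ _ => omg_nonneg hP0 al ρ
  have hE1 : 1 ≤ Real.exp ((Fintype.card ι : ℝ) * q) := Real.one_le_exp (by positivity)
  obtain ⟨E, hE⟩ : ∃ E, E = Real.exp ((Fintype.card ι : ℝ) * q) := ⟨_, rfl⟩
  -- first step
  have hstep : ∑ n ∈ II x (2 * x) W b₀, (∑ r ∈ Tu ι R Y, cf al r * Fr H (2 ^ 2 ^ J) pos r n) ^ 2 *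
        ((NN H (2 ^ 2 ^ J) Z pos n).card : ℝ) ≤
      ∑ i : ι, ∑ n ∈ (II x (2 * x) W b₀).filter (fun n => {i} ⊆ AA H (2 ^ 2 ^ J) pos n),
        (∑ r ∈ Tu ι R Y, ci R Y al i r * Fr H (2 ^ 2 ^ J) pos r n) ^ 2 := by
    have h7 : ∀ n ∈ II x (2 * x) W b₀,
        (∑ r ∈ Tu ι R Y, cf al r * Fr H (2 ^ 2 ^ J) pos r n) ^ 2 *
          ((NN H (2 ^ 2 ^ J) Z pos n).card : ℝ) ≤
        ∑ i : ι, (if {i} ⊆ AA H (2 ^ 2 ^ J) pos n then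
          (∑ r ∈ Tu ι R Y, ci R Y al i r * Fr H (2 ^ 2 ^ J) pos r n) ^ 2 else 0) := by
      intro n _
      rw [mul_comm, ← nsmul_eq_mul, ← Finset.sum_const]
      refine le_trans (Finset.sum_le_sum (g := fun i => if {i} ⊆ AA H (2 ^ 2 ^ J) pos n then
          (∑ r ∈ Tu ι R Y, ci R Y al i r * Fr H (2 ^ 2 ^ J) pos r n) ^ 2 else 0) ?_) ?_
      · intro i hi
        rw [NN, mem_filter] at hi
        rw [if_pos (Finset.singleton_subset_iff.2 hi.1)]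
        rw [hBR ι pos H (2 ^ 2 ^ J) Y R al i n (fun ρ hρ => (hR ρ hρ).1) hi.1]
        intro ρ hρ p hp
        exact hi.2 p (hR.primeFactors hρ hp)
      · apply Finset.sum_le_sum_of_subset_of_nonneg (Finset.subset_univ _)
        intro i _ _
        split_ifs
        · positivity
        · exact le_rfl
    refine (Finset.sum_le_sum h7).trans ?_
    rw [Finset.sum_comm]
    apply le_of_eq
    apply Finset.sum_congr rfl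
    intro i _
    rw [Finset.sum_filter]
  refine hstep.trans ?_
  -- second step: every position
  have hcib : ∀ i : ι, ∀ r ∈ Tu ι R Y, |ci R Y al i r| ≤ |cf al r| := by
    intro i r hr
    obtain ⟨b1, b2, -⟩ := hBE ι (2 ^ 2 ^ J) Z Y k₁ R al hR Nat.one_le_two_pow hZ hal hsum hk1 r hr
    unfold ci
    split_ifs
    · rw [abs_mul]
      calc |cf al r| * |be R Y al r| ≤ |cf al r| * 1 := by
            apply mul_le_mul_of_nonneg_left _ (abs_nonneg _)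
            rw [abs_of_nonneg b1]; exact b2
        _ = |cf al r| := mul_one _
    · rw [abs_zero]; exact abs_nonneg _
  have hone : ∀ i : ι, ∑ n ∈ (II x (2 * x) W b₀).filter (fun n => {i} ⊆ AA H (2 ^ 2 ^ J) pos n),
        (∑ r ∈ Tu ι R Y, ci R Y al i r * Fr H (2 ^ 2 ^ J) pos r n) ^ 2 ≤
      (x : ℝ) / W * (P * (((Y : ℝ) / Z) ^ (-θ) * Real.exp ((Fintype.card ι : ℝ) * qθ) + β ^ 2 * E)) +
      ((x : ℝ) / W * ((1 / 2 : ℝ) ^ b * (P *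
        (1 + (Fintype.card ι : ℝ) * (P * XX R al)) ^ (2 * k₀)) +
        (1 + (Fintype.card ι : ℝ)) ^ (k₀ + k₁) / (2 : ℝ) ^ 2 ^ J) +
      ((2 : ℝ) ^ 2 ^ J) ^ (C * b) * (Y : ℝ) ^ 4 * (1 + (Fintype.card ι : ℝ)) ^ (2 * k₀)) := by
    intro i
    have hS := hSM C hC ι κ b J H W x (2 * x) b₀ Z Y k₀ k₁ R al pos {i} (ci R Y al i) h1 h2 (by omega)
      h4 h5 h6 (by omega) hpos hR hal hsum.le hk0 hk1 (by simp) (hcib i) (fun r _ hne => by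
        rw [Finset.disjoint_singleton_right, mem_sp, not_not]
        by_contra h
        exact hne (by unfold ci; rw [if_neg h]))
    simp only [Finset.card_singleton, pow_one] at hS
    have hxx : (((2 * x : ℕ) : ℝ) - x) / W = (x : ℝ) / W := by push_cast; ring
    rw [hxx, ← hP] at hS
    have hM := main_upper hPJ hBE hPU (H := H) (J := J) (Z := Z) (Y := Y) (k₀ := k₀) (k₁ := k₁)
      (al := al) (by omega) (by omega) hR hZ hY hal hsum hk0 hk1 θ hθ i β hβ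
    rw [← hP, ← hq, ← hqθ, ← hE] at hM
    have h8 := mul_le_mul_of_nonneg_left hM hxW.le
    have h9 := (abs_le.1 hS).2
    linarith
  refine (Finset.sum_le_sum (fun i _ => hone i)).trans ?_
  rw [Finset.sum_const, nsmul_eq_mul, Finset.card_univ]
  rw [← hE] at hE1 f3 ⊢
  have g1 := mul_le_mul_of_nonneg_left f3 hxW.le
  have g2 := mul_le_mul_of_nonneg_left f4 (mul_nonneg hxW.le (by linarith : (0 : ℝ) ≤ E))
  have g5 := mul_le_mul_of_nonneg_left f5 hxW.le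
  have g6 := mul_le_mul_of_nonneg_left f6 hxW.le
  have g14 : (x : ℝ) / W ≤ (x : ℝ) / W * E := le_mul_of_one_le_right hxW.le hE1
  have g13 : (x : ℝ) / W * δ ≤ (x : ℝ) / W * (1 / 100) := mul_le_mul_of_nonneg_left hδ1 hxW.le
  have g15 : (x : ℝ) / W * E * δ ≤ (x : ℝ) / W * E * (1 / 100) :=
    mul_le_mul_of_nonneg_left hδ1 (by positivity)
  linarith

end Pool.Agent.N801.PF
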