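import Pool.Agent.N801.PF.Core2

/-!
The core inequality: the number of the integers without rough positions (helper801).
-/

set_option autoImplicit false

open Finset

namespace Pool.Agent.N801.PF

variable {ι : Type} [Fintype ι] [DecidableEq ι]

/-- the numerical data of the core inequality -/
structure Dat (C : ℕ) (ι : Type) [Fintype ι] [DecidableEq ι] where
  κ : ℕ
  b : ℕ
  J : ℕ
  H : ℕ
  W : ℕ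
  x : ℕ
  Z : ℕ
  Y : ℕ
  k₀ : ℕ
  k₁ : ℕ
  k₂ : ℕ
  R : Finset ℕ
  al : ℕ → ℝ
  pos : ι → ℕ
  θ : ℝ
  P : ℝ
  q : ℝ
  qθ : ℝ
  D : ℝ
  δ : ℝ
  β : ℝ
  B : ℝ
  E0 : ℝ
  hC : FLTC C
  h1 : C * (κ + 1) ≤ b
  h2 : C * (κ + 1) ≤ H
  h3 : 4 * k₀ + 1 ≤ κ
  h4 : H ≤ 2 ^ 2 ^ J
  h5 : 1 ≤ W
  h6 : ∀ p : ℕ, p.Prime → p ∣ W → p ≤ H
  hx : 1 ≤ x
  hpos : Pos H pos
  hR : Adm (2 ^ 2 ^ J) Z R
  hy2 : 2 ≤ 2 ^ 2 ^ J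
  hY : 1 ≤ Y
  hZ : 1 ≤ Z
  hal : ∀ ρ ∈ R, 0 ≤ al ρ ∧ al ρ ≤ 1 / (ρ : ℝ)
  hsum : ∑ ρ ∈ R, al ρ = 1
  hk0 : ∀ r ∈ Tu ι R Y, (sp r).card ≤ k₀
  hk1 : ∀ r ∈ Tu ι R Y, (mm r).primeFactors.card ≤ k₁
  hk2 : 2 * x + H < (2 ^ 2 ^ J) ^ (k₂ + 1)
  hθ : 0 ≤ θ
  hP : P = pj H (2 ^ 2 ^ J) 1
  hq : q = ∑ ρ ∈ R, omg P al ρ
  hqθ : qθ = ∑ ρ ∈ R, omg P al ρ * (ρ : ℝ) ^ θ
  hq1 : (Fintype.card ι : ℝ) * q ^ 2 ≤ 1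
  hD : 0 ≤ D
  hDp : ∀ p : ℕ, p.Prime → ∑ ρ ∈ R.filter (fun ρ => p ∣ ρ), omg P al ρ ≤ D / p
  hβ : (k₁ : ℝ) * (1 + Real.log Z) / (2 : ℝ) ^ 2 ^ J ≤ β
  hδ : 0 ≤ δ
  hδ1 : δ ≤ 1 / 100
  e1 : (k₀ : ℝ) ^ 2 / H ≤ δ
  e2 : (k₁ : ℝ) / (2 : ℝ) ^ 2 ^ J ≤ δ
  e3 : (Y : ℝ) ^ (-θ) * Real.exp ((Fintype.card ι : ℝ) * qθ) ≤
      δ * Real.exp ((Fintype.card ι : ℝ) * q)
  e4 : (Fintype.card ι : ℝ) ^ 2 * D ^ 2 / (2 : ℝ) ^ 2 ^ J ≤ δ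
  e5 : (1 / 2 : ℝ) ^ b * (1 + (Fintype.card ι : ℝ) * (P * XX R al)) ^ (2 * k₀) ≤ δ
  e6 : (1 + (Fintype.card ι : ℝ)) ^ (k₀ + k₁) / (2 : ℝ) ^ 2 ^ J ≤ δ
  e7 : ((2 : ℝ) ^ 2 ^ J) ^ (C * b) * (Y : ℝ) ^ 4 * (1 + (Fintype.card ι : ℝ)) ^ (2 * k₀) ≤
      δ * ((x : ℝ) / W)
  f3 : (Fintype.card ι : ℝ) * P * (((Y : ℝ) / Z) ^ (-θ) * Real.exp ((Fintype.card ι : ℝ) * qθ)) ≤
      δ * Real.exp ((Fintype.card ι : ℝ) * q)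
  f4 : (Fintype.card ι : ℝ) * P * β ^ 2 ≤ δ
  f5 : (1 / 2 : ℝ) ^ b * ((Fintype.card ι : ℝ) * P *
      (1 + (Fintype.card ι : ℝ) * (P * XX R al)) ^ (2 * k₀)) ≤ δ
  f6 : (Fintype.card ι : ℝ) * ((1 + (Fintype.card ι : ℝ)) ^ (k₀ + k₁) / (2 : ℝ) ^ 2 ^ J) ≤ δ
  f7 : (Fintype.card ι : ℝ) * (((2 : ℝ) ^ 2 ^ J) ^ (C * b) * (Y : ℝ) ^ 4 *
      (1 + (Fintype.card ι : ℝ)) ^ (2 * k₀)) ≤ δ * ((x : ℝ) / W)
  g1 : 1 ≤ E0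
  g2 : 2 ^ k₂ * EE (2 ^ 2 ^ J) Z 1 ≤ E0
  g3 : (Fintype.card ι : ℝ) * P ≤ B
  g4 : ((2 : ℝ) ^ 2 ^ J) ^ (C * b) * (1 + (Fintype.card ι : ℝ)) ^ (4 * k₀) ≤ (x : ℝ) / W

/-- the constant of the fourth moment -/
noncomputable def K5 (k₀ : ℕ) (E0 B : ℝ) : ℝ :=
  E0 ^ (4 * k₀) * ((2 : ℝ) ^ (16 * k₀) * (3 * (1 + B) ^ (4 * k₀)))

lemma core_count (hSM : SM) (hPJ : PJ) (hPL : PL) (hPU : PU) (hBE : BE) (hBR : BR) (hPB : PB)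
    (hMB : MB) {C : ℕ} (d : Dat C ι) (b₀ : ℕ) :
    (1 / 100 : ℝ) * ((d.x : ℝ) / d.W) / K5 d.k₀ d.E0 d.B ≤
      (((II d.x (2 * d.x) d.W b₀).filter
        (fun n => NN d.H (2 ^ 2 ^ d.J) d.Z d.pos n = ∅)).card : ℝ) := by
  classical
  have hlow := sec_lower hSM hPJ hPL C d.hC d.h1 d.h2 d.h3 d.h4 d.h5 d.h6 d.hx d.hpos d.hR d.hY
    d.hal d.hsum d.hk0 d.hk1 d.θ d.hθ d.P d.q d.qθ d.D d.δ d.hP d.hq d.hqθ d.hq1 d.hD d.hDp d.hδ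
    d.hδ1 d.e1 d.e2 d.e3 d.e4 d.e5 d.e6 d.e7 (b₀ := b₀)
  have hup := sec_upper hSM hPJ hPU hBE hBR C d.hC d.h1 d.h2 d.h3 d.h4 d.h5 d.h6 d.hx d.hpos d.hR
    d.hY d.hZ d.hal d.hsum d.hk0 d.hk1 d.θ d.hθ d.P d.q d.qθ d.δ d.β d.hP d.hq d.hqθ d.hβ d.hδ
    d.hδ1 d.f3 d.f4 d.f5 d.f6 d.f7 (b₀ := b₀)
  have hC1 : 1 ≤ C := d.hC.1
  have hκH : d.κ + 1 ≤ d.H := le_trans (Nat.le_mul_of_pos_left _ hC1) d.h2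
  have hP0 : 0 ≤ d.P := by
    rw [d.hP]; exact (hPJ d.H (2 ^ 2 ^ d.J) 1 (by omega) (by omega)).1
  have hW : (0 : ℝ) < d.W := by exact_mod_cast d.h5
  have hx' : (0 : ℝ) < d.x := by exact_mod_cast d.hx
  obtain ⟨xW, hxW'⟩ : ∃ xW, xW = (d.x : ℝ) / d.W := ⟨_, rfl⟩
  have hxW : 0 < xW := by rw [hxW']; positivity
  have hq0 : 0 ≤ d.q := by rw [d.hq]; exact Finset.sum_nonneg fun ρ _ => omg_nonneg hP0 d.al ρ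
  have hE1 : 1 ≤ Real.exp ((Fintype.card ι : ℝ) * d.q) := Real.one_le_exp (by positivity)
  rw [← hxW'] at hlow hup
  obtain ⟨S, hS⟩ : ∃ S, S = II d.x (2 * d.x) d.W b₀ := ⟨_, rfl⟩
  obtain ⟨Ψ, hΨ⟩ : ∃ Ψ : ℕ → ℝ, Ψ = fun n => ∑ r ∈ Tu ι d.R d.Y, cf d.al r *
    Fr d.H (2 ^ 2 ^ d.J) d.pos r n := ⟨_, rfl⟩
  have hlow' : (1 / 5 : ℝ) * xW * Real.exp ((Fintype.card ι : ℝ) * d.q) ≤ ∑ n ∈ S, Ψ n ^ 2 := by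
    rw [hS, hΨ]; exact hlow
  have hup' : ∑ n ∈ S, Ψ n ^ 2 * ((NN d.H (2 ^ 2 ^ d.J) d.Z d.pos n).card : ℝ) ≤
      (1 / 10 : ℝ) * xW * Real.exp ((Fintype.card ι : ℝ) * d.q) := by
    rw [hS, hΨ]; exact hup
  obtain ⟨G, hG⟩ : ∃ G, G = S.filter (fun n => NN d.H (2 ^ 2 ^ d.J) d.Z d.pos n = ∅) := ⟨_, rfl⟩
  rw [← hxW', ← hS, ← hG]
  -- the sum over G
  have hGsum : (1 / 10 : ℝ) * xW ≤ ∑ n ∈ G, Ψ n ^ 2 := by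
    have h7 : ∑ n ∈ S, Ψ n ^ 2 ≤ ∑ n ∈ S, Ψ n ^ 2 * ((NN d.H (2 ^ 2 ^ d.J) d.Z d.pos n).card : ℝ) +
        ∑ n ∈ G, Ψ n ^ 2 := by
      rw [hG, Finset.sum_filter, ← Finset.sum_add_distrib]
      apply Finset.sum_le_sum
      intro n _
      split_ifs with h
      · have : 0 ≤ Ψ n ^ 2 * ((NN d.H (2 ^ 2 ^ d.J) d.Z d.pos n).card : ℝ) := by positivity
        linarith
      · rw [add_zero]
        apply le_mul_of_one_le_right (sq_nonneg _)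
        exact_mod_cast Finset.card_pos.2 (Finset.nonempty_iff_ne_empty.2 h)
    have h8 : xW * 1 ≤ xW * Real.exp ((Fintype.card ι : ℝ) * d.q) :=
      mul_le_mul_of_nonneg_left hE1 hxW.le
    linarith
  -- the fourth moment
  have hE0 : 0 ≤ d.E0 := by linarith [d.g1]
  have hfour : ∑ n ∈ G, (Ψ n ^ 2) ^ 2 ≤ K5 d.k₀ d.E0 d.B * xW := by
    have h9 : ∀ n ∈ S, (Ψ n ^ 2) ^ 2 ≤ d.E0 ^ (4 * d.k₀) *
        ((((AA d.H (2 ^ 2 ^ d.J) d.pos n).powerset.filter (fun S => S.card ≤ d.k₀)).card : ℝ)) ^ 4 := by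
      intro n hn
      rw [hS, mem_II] at hn
      have h10 := hPB ι d.H (2 ^ 2 ^ d.J) d.Z d.Y d.k₀ d.k₂ n d.R d.al d.pos d.E0 d.hR d.hy2 d.hal
        d.hk0 (fun i => ⟨(d.hpos.2 i).1, lt_of_le_of_lt (by have := (d.hpos.2 i).2; omega) d.hk2⟩)
        d.g1 d.g2
      have h11 : |Ψ n| ≤ d.E0 ^ d.k₀ *
          (((AA d.H (2 ^ 2 ^ d.J) d.pos n).powerset.filter (fun S => S.card ≤ d.k₀)).card : ℝ) := by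
        rw [hΨ]; exact h10
      calc (Ψ n ^ 2) ^ 2 = |Ψ n| ^ 4 := by
            rw [← pow_mul]; exact (Even.pow_abs (by decide) _).symm
        _ ≤ (d.E0 ^ d.k₀ * (((AA d.H (2 ^ 2 ^ d.J) d.pos n).powerset.filter
              (fun S => S.card ≤ d.k₀)).card : ℝ)) ^ 4 := pow_le_pow_left₀ (abs_nonneg _) h11 4
        _ = _ := by rw [mul_pow, ← pow_mul, mul_comm d.k₀ 4]
    have h12 := hMB C d.hC ι d.κ d.b d.J d.H d.W d.x (2 * d.x) b₀ d.k₀ d.pos d.h1 d.h2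
      (by have := d.h3; omega) d.h5 d.h6 (by omega) d.hpos
    have hxx : (((2 * d.x : ℕ) : ℝ) - d.x) / d.W = xW := by rw [hxW']; push_cast; ring
    rw [hxx, ← d.hP, ← hS] at h12
    calc ∑ n ∈ G, (Ψ n ^ 2) ^ 2 ≤ ∑ n ∈ S, (Ψ n ^ 2) ^ 2 := by
          apply Finset.sum_le_sum_of_subset_of_nonneg
          · rw [hG]; exact Finset.filter_subset _ _
          · intro n _ _; positivity
      _ ≤ ∑ n ∈ S, d.E0 ^ (4 * d.k₀) *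
        ((((AA d.H (2 ^ 2 ^ d.J) d.pos n).powerset.filter (fun S => S.card ≤ d.k₀)).card : ℝ)) ^ 4 :=
          Finset.sum_le_sum h9
      _ = d.E0 ^ (4 * d.k₀) * ∑ n ∈ S,
        ((((AA d.H (2 ^ 2 ^ d.J) d.pos n).powerset.filter (fun S => S.card ≤ d.k₀)).card : ℝ)) ^ 4 := by
          rw [Finset.mul_sum]
      _ ≤ d.E0 ^ (4 * d.k₀) * ((2 : ℝ) ^ (16 * d.k₀) * (2 * xW *
        (1 + (Fintype.card ι : ℝ) * d.P) ^ (4 * d.k₀) +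
        ((2 : ℝ) ^ 2 ^ d.J) ^ (C * d.b) * (1 + (Fintype.card ι : ℝ)) ^ (4 * d.k₀))) :=
          mul_le_mul_of_nonneg_left h12 (by positivity)
      _ ≤ d.E0 ^ (4 * d.k₀) * ((2 : ℝ) ^ (16 * d.k₀) * (3 * (1 + d.B) ^ (4 * d.k₀) * xW)) := by
          apply mul_le_mul_of_nonneg_left _ (by positivity)
          apply mul_le_mul_of_nonneg_left _ (by positivity)
          have hvP : 0 ≤ (Fintype.card ι : ℝ) * d.P := by positivity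
          have h13 : (1 + (Fintype.card ι : ℝ) * d.P) ^ (4 * d.k₀) ≤ (1 + d.B) ^ (4 * d.k₀) := by
            apply pow_le_pow_left₀ (by linarith)
            linarith [d.g3]
          have h14 : (1 : ℝ) ≤ (1 + d.B) ^ (4 * d.k₀) := one_le_pow₀ (by linarith [d.g3])
          have h15 := d.g4
          rw [← hxW'] at h15
          have h16 : 2 * xW * (1 + (Fintype.card ι : ℝ) * d.P) ^ (4 * d.k₀) ≤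
              2 * xW * (1 + d.B) ^ (4 * d.k₀) := mul_le_mul_of_nonneg_left h13 (by linarith)
          have h17 : xW * 1 ≤ xW * (1 + d.B) ^ (4 * d.k₀) := mul_le_mul_of_nonneg_left h14 hxW.le
          linarith
      _ = K5 d.k₀ d.E0 d.B * xW := by unfold K5; ring
  have hB0 : 0 ≤ d.B := le_trans (by positivity) d.g3
  have hK5 : 0 < K5 d.k₀ d.E0 d.B := by
    unfold K5
    have : 0 < d.E0 := by linarith [d.g1]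
    positivity
  -- Cauchy
  have hCS : (∑ n ∈ G, Ψ n ^ 2) ^ 2 ≤ (G.card : ℝ) * ∑ n ∈ G, (Ψ n ^ 2) ^ 2 :=
    sq_sum_le_card_mul_sum_sq
  have h18 : ((1 / 10 : ℝ) * xW) ^ 2 ≤ (∑ n ∈ G, Ψ n ^ 2) ^ 2 :=
    pow_le_pow_left₀ (by positivity) hGsum 2
  have h19 : (G.card : ℝ) * ∑ n ∈ G, (Ψ n ^ 2) ^ 2 ≤ (G.card : ℝ) * (K5 d.k₀ d.E0 d.B * xW) :=
    mul_le_mul_of_nonneg_left hfour (Nat.cast_nonneg _)
  rw [div_le_iff₀ hK5]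
  have h20 : xW * ((1 / 100 : ℝ) * xW) ≤ xW * ((G.card : ℝ) * K5 d.k₀ d.E0 d.B) := by
    have e1 : ((1 / 10 : ℝ) * xW) ^ 2 = xW * ((1 / 100 : ℝ) * xW) := by ring
    have e2 : (G.card : ℝ) * (K5 d.k₀ d.E0 d.B * xW) = xW * ((G.card : ℝ) * K5 d.k₀ d.E0 d.B) := by
      ring
    rw [← e1, ← e2]
    exact (h18.trans hCS).trans h19
  exact le_of_mul_le_mul_left h20 hxW

end Pool.Agent.N801.PF
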