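import Pool.Agent.N801.PF.Base

/-!
# Average of a product of periodic functions
-/

set_option autoImplicit false

open Finset

namespace Pool.Agent.N801.PF

/-- a function of period `m` depends only on the residue modulo `m` -/
lemma per_mod {g : ℕ → ℝ} {m : ℕ} (h : ∀ a, g (a + m) = g a) (a : ℕ) : g (a % m) = g a := by
  have h1 : ∀ k a, g (a + m * k) = g a := by
    intro k
    induction k with
    | zero => intro a; simp
    | succ k ih => intro a; rw [Nat.mul_succ, ← add_assoc, h, ih]
  conv_rhs => rw [← Nat.mod_add_div a m]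
  rw [h1]

/-- two coprime periods -/
lemma sum_two_periods {p M : ℕ} (hp : p ≠ 0) (hM : M ≠ 0) (hco : Nat.Coprime p M) {g F : ℕ → ℝ}
    (hg : ∀ a, g (a + p) = g a) (hF : ∀ a, F (a + M) = F a) :
    ∑ a ∈ range (p * M), g a * F a = (∑ a ∈ range p, g a) * ∑ a ∈ range M, F a := by
  rw [Finset.sum_mul_sum, ← Finset.sum_product']
  refine Finset.sum_nbij' (i := fun a => (a % p, a % M))
    (j := fun x => ((Nat.chineseRemainder hco x.1 x.2 : {k // _}) : ℕ)) ?_ ?_ ?_ ?_ ?_
  · intro a _
    rw [mem_product, mem_range, mem_range]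
    exact ⟨Nat.mod_lt _ (Nat.pos_of_ne_zero hp), Nat.mod_lt _ (Nat.pos_of_ne_zero hM)⟩
  · intro x _
    rw [mem_range]
    exact Nat.chineseRemainder_lt_mul hco _ _ hp hM
  · intro a ha
    rw [mem_range] at ha
    have h1 := (Nat.chineseRemainder hco (a % p) (a % M)).2
    have h2 := Nat.chineseRemainder_lt_mul hco (a % p) (a % M) hp hM
    have h3 : ((Nat.chineseRemainder hco (a % p) (a % M) : {k // _}) : ℕ) ≡ a [MOD p * M] := by
      rw [← Nat.modEq_and_modEq_iff_modEq_mul hco]
      exact ⟨h1.1.trans (Nat.mod_modEq a p), h1.2.trans (Nat.mod_modEq a M)⟩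
    exact Nat.ModEq.eq_of_lt_of_lt h3 h2 ha
  · intro x hx
    rw [mem_product, mem_range, mem_range] at hx
    have h1 := (Nat.chineseRemainder hco x.1 x.2).2
    apply Prod.ext
    · have := h1.1
      unfold Nat.ModEq at this
      simpa [Nat.mod_eq_of_lt hx.1] using this
    · have := h1.2
      unfold Nat.ModEq at this
      simpa [Nat.mod_eq_of_lt hx.2] using this
  · intro a _
    simp only
    rw [per_mod hg, per_mod hF]

theorem crt1 : CRT1 := by
  classical
  intro Q f
  induction Q using Finset.induction_on with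
  | empty => intro _ _; simp
  | insert p Q hpQ ih =>
    intro hp hper
    have hp1 : p.Prime := hp p (mem_insert_self _ _)
    have hco : Nat.Coprime p (∏ p ∈ Q, p) := by
      apply Nat.Coprime.prod_right
      intro q hq
      rw [Nat.coprime_primes hp1 (hp q (mem_insert_of_mem hq))]
      rintro rfl
      exact hpQ hq
    have hM : (∏ p ∈ Q, p) ≠ 0 := by
      rw [Finset.prod_ne_zero_iff]
      exact fun q hq => (hp q (mem_insert_of_mem hq)).ne_zero
    have hF : ∀ a, ∏ q ∈ Q, f q (a + ∏ p ∈ Q, p) = ∏ q ∈ Q, f q a := by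
      intro a
      apply Finset.prod_congr rfl
      intro q hq
      have h1 := fun a => hper q (mem_insert_of_mem hq) a
      have h2 : (a + ∏ p ∈ Q, p) % q = a % q := by
        obtain ⟨c, hc⟩ := Finset.dvd_prod_of_mem (fun p => p) hq
        rw [hc, Nat.add_mul_mod_self_left]
      rw [← per_mod h1 (a + ∏ p ∈ Q, p), h2, per_mod h1]
    rw [Finset.prod_insert hpQ, Finset.prod_insert hpQ,
      ← ih (fun q hq => hp q (mem_insert_of_mem hq)) (fun q hq => hper q (mem_insert_of_mem hq)),
      ← sum_two_periods hp1.ne_zero hM hco (hper p (mem_insert_self _ _)) hF]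
    apply Finset.sum_congr rfl
    intro a _
    rw [Finset.prod_insert hpQ]

end Pool.Agent.N801.PF
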