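import Pool.Agent.N801.PF.Base
import Pool.Agent.TH423.SH.FLIP
import Pool.Agent.TH423.SH.FLLP

/-!
The fundamental lemma for active positions (subtask PF/FLT, helper570).
-/

set_option autoImplicit false

open Finset

namespace Pool.Agent.N801.PF

open Pool.Agent.TH423.SH

lemma Flt.PS_eq (H R : ℕ) : PS H.factorial R = prs H R := by
  ext p
  rw [PS, mem_filter, mem_prs, mem_Icc]
  constructor
  · rintro ⟨⟨h1, h2⟩, hp, h3⟩
    rw [hp.dvd_factorial] at h3
    exact ⟨⟨by omega, h2⟩, hp⟩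
  · rintro ⟨⟨h1, h2⟩, hp⟩
    refine ⟨⟨hp.one_lt.le, h2⟩, hp, ?_⟩
    rw [hp.dvd_factorial]
    omega

lemma Flt.res {p h n : ℕ} (hh : h < p) : n % p = (p - h % p) % p ↔ p ∣ n + h := by
  rw [Nat.mod_eq_of_lt hh]
  have h1 : n % p = (p - h) % p ↔ n ≡ p - h [MOD p] := Iff.rfl
  rw [h1]
  constructor
  · intro h2
    have h3 : n + h ≡ (p - h) + h [MOD p] := h2.add_right h
    rw [Nat.sub_add_cancel hh.le] at h3
    have h4 : n + h ≡ 0 [MOD p] := h3.trans (by simp [Nat.ModEq])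
    exact (Nat.modEq_zero_iff_dvd).1 h4
  · intro h2
    have h4 : n + h ≡ 0 [MOD p] := (Nat.modEq_zero_iff_dvd).2 h2
    have h5 : n + h ≡ (p - h) + h [MOD p] := by
      rw [Nat.sub_add_cancel hh.le]
      exact h4.trans (by simp [Nat.ModEq])
    exact Nat.ModEq.add_right_cancel' h h5

lemma Flt.cardeq (s : Finset ℕ) (P Q : ℕ → Prop) [DecidablePred P] [DecidablePred Q]
    (h : ∀ n, P n ↔ Q n) : (s.filter P).card = (s.filter Q).card := by
  congr 1
  ext n
  rw [mem_filter, mem_filter, h]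

theorem flt : FLT := by
  classical
  obtain ⟨C, hC, hF⟩ := fli fll
  refine ⟨C, hC, ?_⟩
  intro κ b J H q u v a hb hH hq huv hqP T hT hTκ
  have hCT : C * (T.card + 1) ≤ C * (κ + 1) := Nat.mul_le_mul_left C (by omega)
  have hlt : ∀ p ∈ prs H (2 ^ 2 ^ J), ∀ h ∈ T, h < p := by
    intro p hp h hh
    have h1 := (mem_prs.1 hp).1.1
    have h2 := mem_Icc.1 (hT hh)
    omega
  have key := hF T.card b H.factorial q (hCT.trans hb) (Nat.factorial_pos H)
    (fun p hp hpC => (hp.dvd_factorial).2 (hpC.trans (hCT.trans hH))) hq u v J a huv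
    (by rw [Flt.PS_eq]; exact hqP)
    (fun p => T.image (fun h => (p - h % p) % p)) (by
      rw [Flt.PS_eq]
      intro p hp
      have hpp := (mem_prs.1 hp).2
      refine ⟨?_, ?_⟩
      · apply card_image_of_injOn
        intro h1 hh1 h2 hh2 he
        have l1 := hlt p hp h1 hh1
        have l2 := hlt p hp h2 hh2
        have g1 := (mem_Icc.1 (hT hh1)).1
        have g2 := (mem_Icc.1 (hT hh2)).1
        simp only at he
        rw [Nat.mod_eq_of_lt l1, Nat.mod_eq_of_lt l2, Nat.mod_eq_of_lt (by omega),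
          Nat.mod_eq_of_lt (by omega)] at he
        omega
      · intro c hc
        obtain ⟨h, _, rfl⟩ := mem_image.1 hc
        exact Nat.mod_lt _ hpp.pos)
  have hP : PIj H.factorial (2 ^ 2 ^ J) T.card = pj H (2 ^ 2 ^ J) T.card := by
    rw [PIj, pj, Flt.PS_eq]
  rw [← hP]
  have hset : ∀ n, (n % q = a % q ∧ ∀ h ∈ T, act H (2 ^ 2 ^ J) (n + h)) ↔ (n % q = a % q ∧
        ∀ p ∈ PS H.factorial (2 ^ 2 ^ J), n % p ∉ T.image (fun h => (p - h % p) % p)) := by
    intro n
    rw [Flt.PS_eq]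
    refine and_congr_right (fun _ => ?_)
    constructor
    · intro h2 p hp hm
      obtain ⟨h, hh, he⟩ := mem_image.1 hm
      exact h2 h hh p hp ((Flt.res (hlt p hp h hh)).1 he.symm)
    · intro h2 h hh p hp hd
      exact h2 p hp (mem_image.2 ⟨h, hh, ((Flt.res (hlt p hp h hh)).2 hd).symm⟩)
  refine le_trans (le_of_eq ?_) key
  congr 3
  exact @Flt.cardeq _ _ _ (_) (_) hset

end Pool.Agent.N801.PF
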