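import Pool.Agent.N801.PF.Loc12

/-!
The averages of the absolute values (helper803).
-/

set_option autoImplicit false
set_option linter.unusedSectionVars false

open Finset

namespace Pool.Agent.N801.PF

namespace Loc

variable {ι : Type} [Fintype ι] [DecidableEq ι] {y : ℕ} {r r' : ι → ℕ}

/-- the factor of `BB` at `p` -/
noncomputable def bp (r r' : ι → ℕ) (p : ℕ) : ℝ :=
  ((∏ i, (if p ∣ r i then (2 : ℝ) else 1)) * ∏ i, (if p ∣ r' i then (2 : ℝ) else 1)) *
    ∏ i, (if p ∣ Nat.gcd (r i) (r' i) then (p : ℝ) else 1)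

lemma BB_eq (h : Good y r) (h' : Good y r') : BB r r' = ∏ p ∈ QQ r r', bp r r' p := by
  unfold bp
  rw [prod_mul_distrib, prod_mul_distrib, prod_comm, prod_comm (s := QQ r r') (t := univ)
    (f := fun p i => if p ∣ r' i then (2 : ℝ) else 1), prod_comm (s := QQ r r') (t := univ)
    (f := fun p i => if p ∣ Nat.gcd (r i) (r' i) then (p : ℝ) else 1), ← prod_mul_distrib,
    ← prod_mul_distrib]
  unfold BB
  refine prod_congr rfl fun i _ => ?_
  have hQ : ∀ p ∈ QQ r r', p.Prime := fun p hp => QQ_prime hp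
  have hg0 : Nat.gcd (r i) (r' i) ≠ 0 := Nat.gcd_ne_zero_left (h.ne i)
  have hgs : Squarefree (Nat.gcd (r i) (r' i)) :=
    (h.sq i).squarefree_of_dvd (Nat.gcd_dvd_left _ _)
  have hgQ : (Nat.gcd (r i) (r' i)).primeFactors ⊆ QQ r r' :=
    (Nat.primeFactors_mono (Nat.gcd_dvd_left _ _) (h.ne i)).trans (sub_left h h' i)
  rw [← prod_coord (QQ r r') hQ (h.ne i) (sub_left h h' i) (fun _ => (2 : ℝ)),
    ← prod_coord (QQ r r') hQ (h'.ne i) (sub_right h h' i) (fun _ => (2 : ℝ)),
    ← prod_coord (QQ r r') hQ hg0 hgQ (fun p => (p : ℝ)), prod_const, prod_const, ← pow_add,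
    ← Nat.cast_prod, Nat.prod_primeFactors_of_squarefree hgs]

lemma Bp_le {H : ℕ} {pos : ι → ℕ} (hpos : Pos H pos) (hHy : H ≤ y) (h : Good y r)
    (h' : Good y r') {p : ℕ} (hp : p ∈ QQ r r') : Bp pos r r' p ≤ bp r r' p := by
  have hb := QQ_big h h' hp
  have hpp := QQ_prime hp
  have hH : H < p := by omega
  have hp1 : (1 : ℝ) ≤ p := by exact_mod_cast hpp.one_lt.le
  have hgl : ∀ {i}, p ∣ Nat.gcd (r i) (r' i) → p ∣ r i := fun hd => hd.trans (Nat.gcd_dvd_left _ _)
  have hgr : ∀ {i}, p ∣ Nat.gcd (r i) (r' i) → p ∣ r' i :=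
    fun hd => hd.trans (Nat.gcd_dvd_right _ _)
  unfold bp
  by_cases hl : ∃ i, p ∣ r i
  · obtain ⟨i, hi⟩ := hl
    by_cases hr : ∃ j, p ∣ r' j
    · obtain ⟨j, hj⟩ := hr
      rw [prod_one h hpp (fun _ => (2 : ℝ)) hi, prod_one h' hpp (fun _ => (2 : ℝ)) hj]
      by_cases hij : i = j
      · subst hij
        have e : ∏ k, (if p ∣ Nat.gcd (r k) (r' k) then (p : ℝ) else 1) = p := by
          rw [prod_eq_single_of_mem i (mem_univ i), if_pos (Nat.dvd_gcd hi hj)]
          intro k _ hk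
          rw [if_neg]
          intro hd
          exact hk (h.unique hpp (hgl hd) hi)
        rw [e]
        refine (A_same hpos hH hpp h h' hi hj).2.trans (le_of_eq ?_)
        ring
      · have e : ∏ k, (if p ∣ Nat.gcd (r k) (r' k) then (p : ℝ) else 1) = 1 := by
          refine prod_eq_one fun k _ => ?_
          rw [if_neg]
          intro hd
          exact hij ((h.unique hpp (hgl hd) hi).symm.trans (h'.unique hpp (hgr hd) hj))
        rw [e]
        refine (A_diff hpos hH hpp h h' hi hj hij).2.trans (le_of_eq ?_)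
        ring
    · push Not at hr
      have e : ∏ k, (if p ∣ Nat.gcd (r k) (r' k) then (p : ℝ) else 1) = 1 := by
        refine prod_eq_one fun k _ => ?_
        rw [if_neg]
        intro hd
        exact hr k (hgr hd)
      rw [prod_one h hpp (fun _ => (2 : ℝ)) hi, prod_none _ hr, e]
      refine (A_left hpos hH hpp h hi hr).2.trans (le_of_eq ?_)
      ring
  · push Not at hl
    have hr : ∃ j, p ∣ r' j := by
      rcases ((mem_QQ h h').1 hp).2 with ⟨i, hi⟩ | h3
      · exact absurd hi (hl i)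
      · exact h3
    obtain ⟨j, hj⟩ := hr
    have e : ∏ k, (if p ∣ Nat.gcd (r k) (r' k) then (p : ℝ) else 1) = 1 := by
      refine prod_eq_one fun k _ => ?_
      rw [if_neg]
      intro hd
      exact hl k (hgl hd)
    rw [prod_none _ hl, prod_one h' hpp (fun _ => (2 : ℝ)) hj, e, Bp_comm]
    refine (A_left hpos hH hpp h' hj hl).2.trans (le_of_eq ?_)
    ring

lemma Bp_nonneg (pos r r' : ι → ℕ) (p : ℕ) : 0 ≤ Bp pos r r' p :=
  div_nonneg (sum_nonneg fun _ _ => abs_nonneg _) (Nat.cast_nonneg p)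

end Loc

open Loc

theorem loc3 (hC : CRT1) : LOC3 := by
  intro ι _ _ pos H y Z Y R hpos hHy hR r hr r' hr'
  have h := good_of_mem hR hr
  have h' := good_of_mem hR hr'
  rw [avg_abs hC h h', BB_eq h h']
  exact prod_le_prod (fun p _ => Bp_nonneg pos r r' p) fun p hp => Bp_le hpos hHy h h' hp

end Pool.Agent.N801.PF
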