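import Pool.Agent.N801.PF.Base

/-!
# LOC4: trivial facts on `Th` (helper644 for helper801)
-/

set_option autoImplicit false

open Finset

namespace Pool.Agent.N801.PF

section
variable {ι : Type} [Fintype ι] [DecidableEq ι]

lemma Tu_pos {y Z Y : ℕ} {R : Finset ℕ} (hR : Adm y Z R) {r : ι → ℕ} (hr : r ∈ Tu ι R Y) (i : ι) :
    0 < r i ∧ Squarefree (r i) ∧ ∀ p ∈ (r i).primeFactors, y < p := by
  rw [mem_Tu] at hr
  rcases hr.1 i with h | h
  · rw [h]; simp
  · obtain ⟨h1, _, h3, h4⟩ := hR _ h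
    exact ⟨by omega, h3, h4⟩

lemma mm_pos {y Z Y : ℕ} {R : Finset ℕ} (hR : Adm y Z R) {r : ι → ℕ} (hr : r ∈ Tu ι R Y) :
    1 ≤ mm r := by
  unfold mm
  exact Finset.prod_pos fun i _ => (Tu_pos hR hr i).1

lemma ph_abs_le {r m : ℕ} (hr : Squarefree r) : |ph r m| ≤ (r : ℝ) := by
  unfold ph
  rw [Finset.abs_prod]
  calc ∏ p ∈ r.primeFactors, |if p ∣ m then 1 - (p : ℝ) else 1|
      ≤ ∏ p ∈ r.primeFactors, (p : ℝ) := by
        apply Finset.prod_le_prod
        · intro p _; exact abs_nonneg _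
        · intro p hp
          have h1 : (1 : ℝ) ≤ p := by exact_mod_cast (Nat.prime_of_mem_primeFactors hp).one_le
          split_ifs
          · rw [abs_le]; constructor <;> linarith
          · rw [abs_one]; exact h1
    _ = (r : ℝ) := by
        rw [← Nat.cast_prod, Nat.prod_primeFactors_of_squarefree hr]

lemma ph_periodic {r m M : ℕ} (h : ∀ p ∈ r.primeFactors, p ∣ M) : ph r (m + M) = ph r m := by
  unfold ph
  apply Finset.prod_congr rfl
  intro p hp
  have : p ∣ m + M ↔ p ∣ m := Nat.dvd_add_left (h p hp)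
  simp only [this]

end

/-- (LOC4) -/
theorem loc4 : LOC4 := by
  intro ι _ _ pos y Z Y R hR r hr r' hr'
  have hm : 1 ≤ mm r := mm_pos hR hr
  have hm' : 1 ≤ mm r' := mm_pos hR hr'
  have hQ : ∀ i, ∀ p ∈ (r i).primeFactors, p ∣ MM r r' := by
    intro i p hp
    unfold MM
    apply Finset.dvd_prod_of_mem (fun p => p)
    unfold QQ
    rw [Nat.mem_primeFactors]
    refine ⟨Nat.prime_of_mem_primeFactors hp, ?_, by positivity⟩
    exact ((Nat.dvd_of_mem_primeFactors hp).trans (Finset.dvd_prod_of_mem r (mem_univ i))).trans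
      (Dvd.intro _ rfl)
  have hQ' : ∀ i, ∀ p ∈ (r' i).primeFactors, p ∣ MM r r' := by
    intro i p hp
    unfold MM
    apply Finset.dvd_prod_of_mem (fun p => p)
    unfold QQ
    rw [Nat.mem_primeFactors]
    refine ⟨Nat.prime_of_mem_primeFactors hp, ?_, by positivity⟩
    exact ((Nat.dvd_of_mem_primeFactors hp).trans (Finset.dvd_prod_of_mem r' (mem_univ i))).trans
      (Dvd.intro_left _ rfl)
  refine ⟨?_, ?_, ?_, hm, ?_⟩
  · intro a
    unfold Th
    congr 1
    · apply Finset.prod_congr rfl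
      intro i _
      rw [show a + MM r r' + pos i = (a + pos i) + MM r r' by ring]
      exact ph_periodic (hQ i)
    · apply Finset.prod_congr rfl
      intro i _
      rw [show a + MM r r' + pos i = (a + pos i) + MM r r' by ring]
      exact ph_periodic (hQ' i)
  · intro a
    unfold Th mm
    rw [abs_mul, Finset.abs_prod, Finset.abs_prod, Nat.cast_prod, Nat.cast_prod]
    apply mul_le_mul
    · exact Finset.prod_le_prod (fun i _ => abs_nonneg _) fun i _ => ph_abs_le (Tu_pos hR hr i).2.1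
    · exact Finset.prod_le_prod (fun i _ => abs_nonneg _) fun i _ => ph_abs_le (Tu_pos hR hr' i).2.1
    · exact Finset.prod_nonneg fun i _ => abs_nonneg _
    · exact Finset.prod_nonneg fun i _ => Nat.cast_nonneg _
  · unfold MM QQ
    exact Nat.le_of_dvd (by positivity) (Nat.prod_primeFactors_dvd _)
  · intro p hp
    unfold QQ at hp
    have hpp := Nat.prime_of_mem_primeFactors hp
    refine ⟨hpp, ?_⟩
    have h1 := Nat.dvd_of_mem_primeFactors hp
    rcases (Nat.Prime.dvd_mul hpp).1 h1 with h | h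
    · unfold mm at h
      obtain ⟨i, _, hi⟩ := (Prime.dvd_finsetProd_iff hpp.prime _).1 h
      exact (Tu_pos hR hr i).2.2 p (Nat.mem_primeFactors.2 ⟨hpp, hi, (Tu_pos hR hr i).1.ne'⟩)
    · unfold mm at h
      obtain ⟨i, _, hi⟩ := (Prime.dvd_finsetProd_iff hpp.prime _).1 h
      exact (Tu_pos hR hr' i).2.2 p (Nat.mem_primeFactors.2 ⟨hpp, hi, (Tu_pos hR hr' i).1.ne'⟩)

end Pool.Agent.N801.PF
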