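import Pool.Agent.N801.PF.Base

/-!
Fourth moment of the number of small sets of active positions (subtask PF/MB, helper472).
-/

set_option autoImplicit false

open Finset

namespace Pool.Agent.N801.PF

variable {ι : Type} [Fintype ι] [DecidableEq ι]

/-- the square of the number of the small subsets -/
lemma mb_pair (A : Finset ι) (k : ℕ) :
    ((A.powerset.filter (fun S => S.card ≤ k)).card) ^ 2 ≤
      2 ^ (4 * k) * (A.powerset.filter (fun S => S.card ≤ 2 * k)).card := by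
  rw [pow_two, ← Finset.card_product]
  apply Finset.card_le_mul_card_image_of_maps_to (f := fun x : Finset ι × Finset ι => x.1 ∪ x.2)
  · rintro ⟨S, T⟩ h
    simp only [mem_product, mem_filter, mem_powerset] at h ⊢
    refine ⟨union_subset h.1.1 h.2.1, (card_union_le _ _).trans ?_⟩
    have h1 := h.1.2
    have h2 := h.2.2
    omega
  · intro T hT
    rw [mem_filter, mem_powerset] at hT
    calc _ ≤ (T.powerset ×ˢ T.powerset).card := by
          apply card_le_card
          rintro ⟨S, S'⟩ h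
          rw [mem_filter] at h
          rw [mem_product, mem_powerset, mem_powerset, ← h.2]
          exact ⟨subset_union_left, subset_union_right⟩
      _ = 2 ^ (2 * T.card) := by
          rw [card_product, card_powerset, ← pow_add]; congr 1; ring
      _ ≤ 2 ^ (4 * k) := Nat.pow_le_pow_right (by norm_num) (by have := hT.2; omega)

/-- the fourth power of the number of the small subsets -/
lemma mb_four (A : Finset ι) (k : ℕ) :
    ((A.powerset.filter (fun S => S.card ≤ k)).card) ^ 4 ≤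
      2 ^ (16 * k) * (A.powerset.filter (fun S => S.card ≤ 4 * k)).card := by
  have h1 := mb_pair A k
  have h2 := mb_pair A (2 * k)
  have h3 : 2 * (2 * k) = 4 * k := by ring
  rw [h3] at h2
  calc ((A.powerset.filter (fun S => S.card ≤ k)).card) ^ 4
      = (((A.powerset.filter (fun S => S.card ≤ k)).card) ^ 2) ^ 2 := by rw [← pow_mul]
    _ ≤ (2 ^ (4 * k) * (A.powerset.filter (fun S => S.card ≤ 2 * k)).card) ^ 2 :=
        Nat.pow_le_pow_left h1 2
    _ = 2 ^ (8 * k) * ((A.powerset.filter (fun S => S.card ≤ 2 * k)).card) ^ 2 := by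
        rw [mul_pow, ← pow_mul]; congr 2; ring
    _ ≤ 2 ^ (8 * k) * (2 ^ (4 * (2 * k)) * (A.powerset.filter (fun S => S.card ≤ 4 * k)).card) :=
        Nat.mul_le_mul_left _ h2
    _ = 2 ^ (16 * k) * (A.powerset.filter (fun S => S.card ≤ 4 * k)).card := by
        rw [← mul_assoc, ← pow_add]; congr 2; ring

/-- exchange of the sums -/
lemma mb_swap (I : Finset ℕ) (H y k : ℕ) (pos : ι → ℕ) :
    ∑ n ∈ I, ((AA H y pos n).powerset.filter (fun S => S.card ≤ k)).card =
      ∑ T ∈ (univ : Finset ι).powerset.filter (fun T => T.card ≤ k),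
        (I.filter (fun n => T ⊆ AA H y pos n)).card := by
  simp only [card_eq_sum_ones, sum_filter]
  rw [Finset.sum_comm' (s' := fun T => I.filter (fun n => T ⊆ AA H y pos n))
    (t' := (univ : Finset ι).powerset)]
  · apply Finset.sum_congr rfl
    intro T _
    rw [sum_filter]
    split_ifs with h
    · rfl
    · simp
  · intro n T
    simp only [mem_powerset, mem_filter, subset_univ, and_true]

/-- the count for a fixed set of positions -/
lemma mb_count (hPJ : PJ) {C : ℕ} (hC : FLTC C) {κ b J H W u v b₀ k : ℕ} {pos : ι → ℕ}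
    (hb : C * (κ + 1) ≤ b) (hH : C * (κ + 1) ≤ H) (hk : k ≤ κ) (hW : 1 ≤ W)
    (hWH : ∀ p : ℕ, p.Prime → p ∣ W → p ≤ H) (huv : u ≤ v) (hpos : Pos H pos)
    (T : Finset ι) (hT : T.card ≤ k) :
    (((II u v W b₀).filter (fun n => T ⊆ AA H (2 ^ 2 ^ J) pos n)).card : ℝ) ≤
      2 * (((v : ℝ) - u) / W) * pj H (2 ^ 2 ^ J) 1 ^ T.card + ((2 : ℝ) ^ 2 ^ J) ^ (C * b) := by
  obtain ⟨hC1, hC2⟩ := hC
  have hcard : (T.image pos).card = T.card := card_image_of_injective T hpos.1
  have hκH : κ + 1 ≤ H := le_trans (Nat.le_mul_of_pos_left _ hC1) hH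
  have h1 := hC2 κ b J H W u v b₀ hb hH hW huv
    (by
      intro p hp hpW
      rw [mem_prs] at hp
      have := hWH p hp.2 hpW
      omega)
    (T.image pos)
    (by
      intro h hh
      rw [mem_image] at hh
      obtain ⟨i, _, rfl⟩ := hh
      exact mem_Icc.2 (hpos.2 i))
    (by rw [hcard]; omega)
  rw [hcard] at h1
  have hset : (Ioc u v).filter
      (fun n => n % W = b₀ % W ∧ ∀ h ∈ T.image pos, act H (2 ^ 2 ^ J) (n + h)) =
      (II u v W b₀).filter (fun n => T ⊆ AA H (2 ^ 2 ^ J) pos n) := by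
    ext n
    simp only [II, mem_filter, mem_image, forall_exists_index, and_imp, forall_apply_eq_imp_iff₂,
      AA, subset_iff, mem_univ, true_and, and_assoc]
  rw [hset] at h1
  obtain ⟨hp0, _, hp1, _⟩ := hPJ H (2 ^ 2 ^ J) T.card (by omega) (by omega)
  have hx : (0 : ℝ) ≤ ((v : ℝ) - u) / W := by
    apply div_nonneg
    · rw [sub_nonneg]; exact_mod_cast huv
    · positivity
  have h2 := (abs_le.1 h1).2
  have h3 : (1 / 2 : ℝ) ^ b ≤ 1 := pow_le_one₀ (by norm_num) (by norm_num)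
  have h4 : (0 : ℝ) ≤ ((v : ℝ) - u) / W * pj H (2 ^ 2 ^ J) T.card := mul_nonneg hx hp0
  have h5 : (1 / 2 : ℝ) ^ b * (((v : ℝ) - u) / W * pj H (2 ^ 2 ^ J) T.card) ≤
      ((v : ℝ) - u) / W * pj H (2 ^ 2 ^ J) T.card := mul_le_of_le_one_left h4 h3
  have h6 : ((v : ℝ) - u) / W * pj H (2 ^ 2 ^ J) T.card ≤
      ((v : ℝ) - u) / W * pj H (2 ^ 2 ^ J) 1 ^ T.card := mul_le_mul_of_nonneg_left hp1 hx
  linarith

/-- (MB) -/
theorem mb (hPJ : PJ) : MB := by
  intro C hC ι _ _ κ b J H W u v b₀ k₀ pos hb hH hk hW hWH huv hpos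
  set N : ℕ → ℕ := fun n => ((AA H (2 ^ 2 ^ J) pos n).powerset.filter (fun S => S.card ≤ k₀)).card
    with hN
  have hC1 := hC.1
  have hκH : κ + 1 ≤ H := le_trans (Nat.le_mul_of_pos_left _ hC1) hH
  obtain ⟨hp0, _, _, _⟩ := hPJ H (2 ^ 2 ^ J) 1 (by omega) (by omega)
  have hx : (0 : ℝ) ≤ ((v : ℝ) - u) / W := by
    apply div_nonneg
    · rw [sub_nonneg]; exact_mod_cast huv
    · positivity
  have h1 : ∑ n ∈ II u v W b₀, ((N n : ℕ) : ℝ) ^ 4 ≤
      (2 : ℝ) ^ (16 * k₀) * ∑ n ∈ II u v W b₀,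
        (((AA H (2 ^ 2 ^ J) pos n).powerset.filter (fun S => S.card ≤ 4 * k₀)).card : ℝ) := by
    rw [Finset.mul_sum]
    apply Finset.sum_le_sum
    intro n _
    exact_mod_cast mb_four (AA H (2 ^ 2 ^ J) pos n) k₀
  refine h1.trans (mul_le_mul_of_nonneg_left ?_ (by positivity))
  have h2 : ∑ n ∈ II u v W b₀,
      (((AA H (2 ^ 2 ^ J) pos n).powerset.filter (fun S => S.card ≤ 4 * k₀)).card : ℝ) =
      ∑ T ∈ (univ : Finset ι).powerset.filter (fun T => T.card ≤ 4 * k₀),
        (((II u v W b₀).filter (fun n => T ⊆ AA H (2 ^ 2 ^ J) pos n)).card : ℝ) := by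
    exact_mod_cast mb_swap (II u v W b₀) H (2 ^ 2 ^ J) (4 * k₀) pos
  rw [h2]
  have h3 : ∀ T ∈ (univ : Finset ι).powerset.filter (fun T => T.card ≤ 4 * k₀),
      (((II u v W b₀).filter (fun n => T ⊆ AA H (2 ^ 2 ^ J) pos n)).card : ℝ) ≤
      2 * (((v : ℝ) - u) / W) * pj H (2 ^ 2 ^ J) 1 ^ T.card + ((2 : ℝ) ^ 2 ^ J) ^ (C * b) *
        (1 : ℝ) ^ T.card := by
    intro T hT
    rw [mem_filter] at hT
    rw [one_pow, mul_one]
    exact mb_count hPJ hC hb hH hk hW hWH huv hpos T hT.2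
  refine (Finset.sum_le_sum h3).trans ?_
  rw [Finset.sum_add_distrib, ← Finset.mul_sum, ← Finset.mul_sum]
  have h4 := sum_small (univ : Finset ι) (4 * k₀) (pj H (2 ^ 2 ^ J) 1) hp0
  have h5 := sum_small (univ : Finset ι) (4 * k₀) (1 : ℝ) (by norm_num)
  rw [Finset.card_univ] at h4 h5
  rw [mul_one] at h5
  have hD : (0 : ℝ) ≤ ((2 : ℝ) ^ 2 ^ J) ^ (C * b) := by positivity
  have h6 : (0 : ℝ) ≤ 2 * (((v : ℝ) - u) / W) := by positivity
  exact add_le_add (mul_le_mul_of_nonneg_left h4 h6) (mul_le_mul_of_nonneg_left h5 hD)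

end Pool.Agent.N801.PF
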