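import Pool.Agent.N801.PF.Base
import Pool.Agent.Helper256.KM.Mertens

/-!
(ME1) reciprocals of the rough numbers (helper773)
-/

set_option autoImplicit false

open Finset

namespace Pool.Agent.N801.PF

namespace Me1

/-- the squarefree integers `≤ x` all of whose prime factors exceed `y` (with `1`) -/
def T (y x : ℕ) : Finset ℕ :=
  (Ioc 0 x).filter (fun r => Squarefree r ∧ ∀ p ∈ r.primeFactors, y < p)

lemma mem_T {y x r : ℕ} :
    r ∈ T y x ↔ (0 < r ∧ r ≤ x) ∧ Squarefree r ∧ ∀ p ∈ r.primeFactors, y < p := by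
  rw [T, mem_filter, mem_Ioc]

/-- the squarefree integers `≤ x` all of whose prime factors are `≤ y` -/
def F (y x : ℕ) : Finset ℕ :=
  (Ioc 0 x).filter (fun r => Squarefree r ∧ r.primeFactors ⊆ (Finset.Icc 1 y).filter Nat.Prime)

lemma mem_F {y x r : ℕ} :
    r ∈ F y x ↔ (0 < r ∧ r ≤ x) ∧ Squarefree r ∧
      r.primeFactors ⊆ (Finset.Icc 1 y).filter Nat.Prime := by
  rw [F, mem_filter, mem_Ioc]

/-- decomposition -/
lemma decomp (y x n : ℕ) (h0 : 0 < n) (hn : n ≤ x) :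
    ∃ t : ℕ × ℕ × ℕ, t ∈ (Ioc 0 x) ×ˢ ((F y x) ×ˢ (T y x)) ∧ t.1 ^ 2 * (t.2.1 * t.2.2) = n := by
  obtain ⟨q, s, hq, hs, hsq, hsf⟩ := Nat.sq_mul_squarefree_of_pos h0
  have hle : ∀ d : ℕ, d ∣ n → d ≤ x := fun d hd => (Nat.le_of_dvd h0 hd).trans hn
  set q1 : ℕ := ∏ p ∈ q.primeFactors.filter (fun p => p ≤ y), p with hq1
  set q2 : ℕ := ∏ p ∈ q.primeFactors.filter (fun p => ¬ p ≤ y), p with hq2
  have hmul : q1 * q2 = q := by
    rw [hq1, hq2, Finset.prod_filter_mul_prod_filter_not, Nat.prod_primeFactors_of_squarefree hsf]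
  have p1 : q1.primeFactors = q.primeFactors.filter (fun p => p ≤ y) :=
    Nat.primeFactors_prod (fun p hp => Nat.prime_of_mem_primeFactors (mem_filter.1 hp).1)
  have p2 : q2.primeFactors = q.primeFactors.filter (fun p => ¬ p ≤ y) :=
    Nat.primeFactors_prod (fun p hp => Nat.prime_of_mem_primeFactors (mem_filter.1 hp).1)
  have hqn : q ∣ n := ⟨s ^ 2, by rw [← hsq, mul_comm]⟩
  have hsn : s ∣ n := ⟨s * q, by rw [← hsq]; ring⟩
  have h1q : q1 ∣ q := ⟨q2, hmul.symm⟩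
  have h2q : q2 ∣ q := ⟨q1, by rw [← hmul, mul_comm]⟩
  have hq1p : 0 < q1 := Nat.pos_of_dvd_of_pos h1q hq
  have hq2p : 0 < q2 := Nat.pos_of_dvd_of_pos h2q hq
  refine ⟨(s, q1, q2), ?_, ?_⟩
  · rw [mem_product, mem_product]
    refine ⟨mem_Ioc.2 ⟨hs, hle s hsn⟩, mem_F.2 ⟨⟨hq1p, hle _ (h1q.trans hqn)⟩,
      hsf.squarefree_of_dvd h1q, ?_⟩, mem_T.2 ⟨⟨hq2p, hle _ (h2q.trans hqn)⟩,
      hsf.squarefree_of_dvd h2q, ?_⟩⟩
    · intro p hp
      rw [p1, mem_filter] at hp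
      exact mem_filter.2 ⟨mem_Icc.2 ⟨(Nat.prime_of_mem_primeFactors hp.1).one_lt.le, hp.2⟩,
        Nat.prime_of_mem_primeFactors hp.1⟩
    · intro p hp
      have hp' : p ∈ q2.primeFactors := hp
      rw [p2, mem_filter] at hp'
      omega
  · show s ^ 2 * (q1 * q2) = n
    rw [hmul, hsq]

lemma sum_inv_sq (x : ℕ) : ∑ s ∈ Ioc 0 x, (1 : ℝ) / (s : ℝ) ^ 2 ≤ 2 := by
  rcases Nat.eq_zero_or_pos x with hx | hx
  · subst hx; norm_num
  have key : ∑ s ∈ Ioc 0 x, (1 : ℝ) / (s : ℝ) ^ 2 ≤ 2 - 1 / (x : ℝ) := by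
    induction x, hx using Nat.le_induction with
    | base => norm_num
    | succ x hx ih =>
      rw [Finset.sum_Ioc_succ_top (Nat.zero_le x)]
      have hx0 : (1 : ℝ) ≤ x := by exact_mod_cast hx
      push_cast
      have h3 : (1 : ℝ) / ((x : ℝ) + 1) ^ 2 ≤ 1 / (x : ℝ) - 1 / ((x : ℝ) + 1) := by
        rw [div_sub_div _ _ (by positivity) (by positivity), div_le_div_iff₀ (by positivity) (by positivity)]
        nlinarith
      linarith
  have h0 : (0 : ℝ) ≤ 1 / (x : ℝ) := by positivity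
  linarith

lemma log_le_sum (x : ℕ) (hx : 0 < x) : Real.log x ≤ ∑ n ∈ Ioc 0 x, 1 / (n : ℝ) := by
  have h := log_add_one_le_harmonic x
  have h2 : Real.log x ≤ Real.log ((x + 1 : ℕ) : ℝ) :=
    Real.log_le_log (by exact_mod_cast hx) (by push_cast; linarith)
  refine (h2.trans h).trans (le_of_eq ?_)
  rw [harmonic]
  push_cast
  clear h h2 hx
  induction x with
  | zero => simp
  | succ x ih =>
    rw [Finset.sum_range_succ, Finset.sum_Ioc_succ_top (Nat.zero_le x), ih]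
    push_cast
    simp

/-- the lower bound -/
lemma lower (y x : ℕ) :
    Real.log x ≤ 2 * (∏ p ∈ (Finset.Icc 1 y).filter Nat.Prime, (1 + 1 / (p : ℝ))) *
      ∑ q ∈ T y x, 1 / (q : ℝ) := by
  rcases Nat.eq_zero_or_pos x with hx | hx
  · subst hx
    have : T y 0 = ∅ := by simp [T]
    simp [this]
  refine (log_le_sum x hx).trans ?_
  have h2 : ∑ q ∈ F y x, 1 / (q : ℝ) ≤
      ∏ p ∈ (Finset.Icc 1 y).filter Nat.Prime, (1 + 1 / (p : ℝ)) := by
    have h := euler_le ((Finset.Icc 1 y).filter Nat.Prime) (F y x)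
      (fun ρ hρ => (mem_F.1 hρ).2) 1 zero_le_one
    simpa using h
  have h3 := sum_inv_sq x
  have hF0 : (0 : ℝ) ≤ ∑ q ∈ F y x, 1 / (q : ℝ) := Finset.sum_nonneg fun _ _ => by positivity
  have hT0 : (0 : ℝ) ≤ ∑ q ∈ T y x, 1 / (q : ℝ) := Finset.sum_nonneg fun _ _ => by positivity
  have h4 : ∑ n ∈ Ioc 0 x, 1 / (n : ℝ) ≤ ∑ t ∈ (Ioc 0 x) ×ˢ ((F y x) ×ˢ (T y x)),
      1 / (((t.1 ^ 2 * (t.2.1 * t.2.2) : ℕ)) : ℝ) := by
    have hex : ∀ n : ℕ, ∃ t : ℕ × ℕ × ℕ, n ∈ Ioc 0 x →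
        t ∈ (Ioc 0 x) ×ˢ ((F y x) ×ˢ (T y x)) ∧ t.1 ^ 2 * (t.2.1 * t.2.2) = n := by
      intro n
      by_cases hn : n ∈ Ioc 0 x
      · rw [mem_Ioc] at hn
        obtain ⟨t, ht⟩ := decomp y x n hn.1 hn.2
        exact ⟨t, fun _ => ht⟩
      · exact ⟨(0, 0, 0), fun h => absurd h hn⟩
    choose φ hφ using hex
    have hinj : Set.InjOn φ (Ioc 0 x : Finset ℕ) := by
      intro a ha b hb hab
      rw [← (hφ a ha).2, ← (hφ b hb).2, hab]
    calc ∑ n ∈ Ioc 0 x, 1 / (n : ℝ)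
        = ∑ n ∈ Ioc 0 x, 1 / ((((φ n).1 ^ 2 * ((φ n).2.1 * (φ n).2.2) : ℕ)) : ℝ) := by
          refine Finset.sum_congr rfl fun n hn => ?_
          rw [(hφ n hn).2]
      _ = ∑ t ∈ (Ioc 0 x).image φ, 1 / (((t.1 ^ 2 * (t.2.1 * t.2.2) : ℕ)) : ℝ) := by
          rw [Finset.sum_image hinj]
      _ ≤ _ := by
          apply Finset.sum_le_sum_of_subset_of_nonneg
          · intro t ht
            obtain ⟨n, hn, rfl⟩ := mem_image.1 ht
            exact (hφ n hn).1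
          · intro t _ _
            positivity
  refine h4.trans ?_
  have h5 : ∑ t ∈ (Ioc 0 x) ×ˢ ((F y x) ×ˢ (T y x)), 1 / (((t.1 ^ 2 * (t.2.1 * t.2.2) : ℕ)) : ℝ) =
      (∑ s ∈ Ioc 0 x, (1 : ℝ) / (s : ℝ) ^ 2) *
        ((∑ q ∈ F y x, 1 / (q : ℝ)) * ∑ q ∈ T y x, 1 / (q : ℝ)) := by
    rw [Finset.sum_mul_sum, ← Finset.sum_product', Finset.sum_mul_sum, ← Finset.sum_product']
    apply Finset.sum_congr rfl
    intro t _
    push_cast
    rw [one_div_mul_one_div, one_div_mul_one_div]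
  rw [h5, mul_assoc]
  apply mul_le_mul h3 _ (by positivity) (by norm_num)
  exact mul_le_mul_of_nonneg_right h2 hT0

lemma prod_le_exp (P : Finset ℕ) :
    ∏ p ∈ P, (1 + 1 / (p : ℝ)) ≤ Real.exp (∑ p ∈ P, 1 / (p : ℝ)) := by
  rw [Real.exp_sum]
  apply Finset.prod_le_prod
  · intro p _; positivity
  · intro p _
    have := Real.add_one_le_exp (1 / (p : ℝ))
    linarith

lemma RR_eq (y w z : ℕ) : RR y w z = T y z \ T y w := by
  ext r
  rw [mem_sdiff, mem_RR, mem_T, mem_T]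
  constructor
  · rintro ⟨⟨h1, h2⟩, h3, h4⟩
    exact ⟨⟨⟨by omega, h2⟩, h3, h4⟩, fun h => by omega⟩
  · rintro ⟨⟨⟨h1, h2⟩, h3, h4⟩, h5⟩
    refine ⟨⟨?_, h2⟩, h3, h4⟩
    by_contra h6
    exact h5 ⟨⟨h1, by omega⟩, h3, h4⟩

lemma T_mono (y w z : ℕ) (hwz : w ≤ z) : T y w ⊆ T y z := by
  intro r hr
  rw [mem_T] at hr ⊢
  exact ⟨⟨hr.1.1, hr.1.2.trans hwz⟩, hr.2⟩

lemma sum_RR (y w z : ℕ) (hwz : w ≤ z) (f : ℕ → ℝ) :
    ∑ r ∈ RR y w z, f r = ∑ r ∈ T y z, f r - ∑ r ∈ T y w, f r := by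
  rw [RR_eq y w z, ← Finset.sum_sdiff (T_mono y w z hwz) (f := f)]
  ring

lemma split_Icc (y w : ℕ) (h : y ≤ w) (f : ℕ → ℝ) :
    ∑ p ∈ prs y w, f p =
      ∑ p ∈ (Finset.Icc 1 w).filter Nat.Prime, f p - ∑ p ∈ (Finset.Icc 1 y).filter Nat.Prime, f p := by
  have hsub : (Finset.Icc 1 y).filter Nat.Prime ⊆ (Finset.Icc 1 w).filter Nat.Prime := by
    intro p hp
    rw [mem_filter, mem_Icc] at hp ⊢
    exact ⟨⟨hp.1.1, hp.1.2.trans h⟩, hp.2⟩
  have heq : prs y w = (Finset.Icc 1 w).filter Nat.Prime \ (Finset.Icc 1 y).filter Nat.Prime := by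
    ext p
    rw [mem_prs, mem_sdiff, mem_filter, mem_filter, mem_Icc, mem_Icc]
    constructor
    · rintro ⟨⟨h1, h2⟩, h3⟩
      exact ⟨⟨⟨by omega, h2⟩, h3⟩, fun h => by omega⟩
    · rintro ⟨⟨⟨h1, h2⟩, h3⟩, h4⟩
      refine ⟨⟨?_, h2⟩, h3⟩
      by_contra h5
      exact h4 ⟨⟨h1, by omega⟩, h3⟩
  rw [heq, ← Finset.sum_sdiff hsub (f := f)]
  ring

/-- Claim A -/
lemma claimA : ∃ κ : ℕ, 1 ≤ κ ∧ ∀ y w : ℕ, 3 ≤ y → y ≤ w →
    Real.log w / Real.log y ≤ ∑ ρ ∈ RR y w (w ^ κ), 1 / (ρ : ℝ) := by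
  obtain ⟨C, hC⟩ := Pool.Agent.Helper256.KM.mertens_inv
  obtain ⟨κ, hκ⟩ := exists_nat_ge (2 * Real.exp C * (Real.exp (2 * C) + 1))
  refine ⟨κ + 1, by omega, ?_⟩
  intro y w hy hw
  have hw3 : 3 ≤ w := hy.trans hw
  have hyR : (3 : ℝ) ≤ y := by exact_mod_cast hy
  have hwR : (3 : ℝ) ≤ w := by exact_mod_cast hw3
  have hlog3 : (0 : ℝ) < Real.log 3 := Real.log_pos (by norm_num)
  have hly : 0 < Real.log y := lt_of_lt_of_le hlog3 (Real.log_le_log (by norm_num) hyR)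
  have hlw : 0 < Real.log w := lt_of_lt_of_le hlog3 (Real.log_le_log (by norm_num) hwR)
  have hpow : w ≤ w ^ (κ + 1) := Nat.le_self_pow (by omega) w
  rw [sum_RR y w _ hpow]
  have hCy := abs_le.1 (hC y hy)
  have hCw := abs_le.1 (hC w hw3)
  -- lower bound
  have h1 := lower y (w ^ (κ + 1))
  have hP : ∏ p ∈ (Finset.Icc 1 y).filter Nat.Prime, (1 + 1 / (p : ℝ)) ≤ Real.exp C * Real.log y := by
    refine (prod_le_exp _).trans ?_
    have h5 : Real.exp C * Real.log y = Real.exp (C + Real.log (Real.log y)) := by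
      rw [Real.exp_add, Real.exp_log hly]
    rw [h5]
    apply Real.exp_le_exp.2
    linarith [hCy.2]
  have hT0 : (0 : ℝ) ≤ ∑ q ∈ T y (w ^ (κ + 1)), 1 / (q : ℝ) := Finset.sum_nonneg fun _ _ => by positivity
  have h2 : ((κ : ℝ) + 1) * Real.log w ≤ 2 * (Real.exp C * Real.log y) *
      ∑ q ∈ T y (w ^ (κ + 1)), 1 / (q : ℝ) := by
    have h3 : Real.log ((w ^ (κ + 1) : ℕ) : ℝ) = ((κ : ℝ) + 1) * Real.log w := by
      push_cast
      rw [Real.log_pow]
      push_cast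
      ring
    rw [← h3]
    refine h1.trans ?_
    gcongr
  -- upper bound
  have h4 : ∑ q ∈ T y w, 1 / (q : ℝ) ≤ Real.exp (2 * C) * (Real.log w / Real.log y) := by
    have h := euler_le (prs y w) (T y w) (fun ρ hρ => ⟨(mem_T.1 hρ).2.1, by
      intro p hp
      rw [mem_T] at hρ
      rw [mem_prs]
      exact ⟨⟨hρ.2.2 p hp, (Nat.le_of_dvd hρ.1.1 (Nat.dvd_of_mem_primeFactors hp)).trans hρ.1.2⟩,
        Nat.prime_of_mem_primeFactors hp⟩⟩) 1 zero_le_one
    simp only [one_pow] at h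
    refine h.trans ((prod_le_exp _).trans ?_)
    have h5 : Real.exp (2 * C) * (Real.log w / Real.log y) =
        Real.exp (2 * C + (Real.log (Real.log w) - Real.log (Real.log y))) := by
      rw [Real.exp_add, Real.exp_sub, Real.exp_log hlw, Real.exp_log hly]
    rw [h5]
    apply Real.exp_le_exp.2
    rw [split_Icc y w hw]
    linarith [hCy.1, hCw.2]
  -- combination
  set S := ∑ q ∈ T y (w ^ (κ + 1)), 1 / (q : ℝ) with hS
  set L := Real.log w / Real.log y with hL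
  have hL0 : 0 < L := by positivity
  have hLw : Real.log w = L * Real.log y := by rw [hL]; field_simp
  have h6 : ((κ : ℝ) + 1) * L ≤ 2 * Real.exp C * S := by
    rw [hLw] at h2
    have h7 : (((κ : ℝ) + 1) * L) * Real.log y ≤ (2 * Real.exp C * S) * Real.log y := by
      calc (((κ : ℝ) + 1) * L) * Real.log y = ((κ : ℝ) + 1) * (L * Real.log y) := by ring
        _ ≤ 2 * (Real.exp C * Real.log y) * S := h2
        _ = _ := by ring
    exact le_of_mul_le_mul_right h7 hly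
  have hE : 0 < Real.exp C := Real.exp_pos C
  have h8 : (Real.exp (2 * C) + 1) * L ≤ S := by
    have h9 : 2 * Real.exp C * ((Real.exp (2 * C) + 1) * L) ≤ 2 * Real.exp C * S := by
      calc 2 * Real.exp C * ((Real.exp (2 * C) + 1) * L) =
          (2 * Real.exp C * (Real.exp (2 * C) + 1)) * L := by ring
        _ ≤ ((κ : ℝ) + 1) * L := by
          apply mul_le_mul_of_nonneg_right _ hL0.le
          linarith
        _ ≤ _ := h6
    exact le_of_mul_le_mul_left h9 (by positivity)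
  linarith

end Me1

open Me1 in
theorem me1 : ME1 := by
  obtain ⟨κ, hκ, hA⟩ := claimA
  refine ⟨κ, 1 / κ, 3, hκ, by positivity, ?_⟩
  have hκR : (0 : ℝ) < κ := by exact_mod_cast hκ
  -- one step
  have step : ∀ y w : ℕ, 3 ≤ y → y ≤ w →
      1 / (κ * Real.log y) ≤ ∑ ρ ∈ RR y w (w ^ κ), 1 / ((ρ : ℝ) * Real.log ρ) := by
    intro y w hy hw
    have hyR : (3 : ℝ) ≤ y := by exact_mod_cast hy
    have hwR : (3 : ℝ) ≤ w := by exact_mod_cast hy.trans hw
    have hlog3 : (0 : ℝ) < Real.log 3 := Real.log_pos (by norm_num)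
    have hly : 0 < Real.log y := lt_of_lt_of_le hlog3 (Real.log_le_log (by norm_num) hyR)
    have hlw : 0 < Real.log w := lt_of_lt_of_le hlog3 (Real.log_le_log (by norm_num) hwR)
    have h1 := hA y w hy hw
    calc 1 / (κ * Real.log y) = (Real.log w / Real.log y) * (1 / (κ * Real.log w)) := by
          field_simp
      _ ≤ (∑ ρ ∈ RR y w (w ^ κ), 1 / (ρ : ℝ)) * (1 / (κ * Real.log w)) :=
          mul_le_mul_of_nonneg_right h1 (by positivity)
      _ = ∑ ρ ∈ RR y w (w ^ κ), 1 / (ρ : ℝ) * (1 / (κ * Real.log w)) := by rw [Finset.sum_mul]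
      _ ≤ _ := by
          apply Finset.sum_le_sum
          intro ρ hρ
          rw [mem_RR] at hρ
          have hρw : w < ρ := hρ.1.1
          have hρR : (w : ℝ) < ρ := by exact_mod_cast hρw
          have hlρ : 0 < Real.log ρ := hlw.trans_le (Real.log_le_log (by linarith) hρR.le)
          have h2 : Real.log ρ ≤ κ * Real.log w := by
            rw [← Real.log_pow]
            apply Real.log_le_log (by linarith)
            exact_mod_cast hρ.1.2
          rw [one_div_mul_one_div]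
          apply one_div_le_one_div_of_le
          · have : (0 : ℝ) < ρ := by linarith
            positivity
          · apply mul_le_mul_of_nonneg_left h2
            linarith
  -- induction
  have ind : ∀ m y Z0 : ℕ, 3 ≤ y → y ≤ Z0 →
      (m : ℝ) * (1 / (κ * Real.log y)) ≤
        ∑ ρ ∈ RR y Z0 (Z0 ^ (κ ^ m)), 1 / ((ρ : ℝ) * Real.log ρ) := by
    intro m
    induction m with
    | zero =>
      intro y Z0 _ _
      rw [Nat.cast_zero, zero_mul]
      apply Finset.sum_nonneg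
      intro ρ _
      have := Real.log_natCast_nonneg ρ
      positivity
    | succ m ih =>
      intro y Z0 hy hZ
      have h1 := ih y Z0 hy hZ
      have hκm : 1 ≤ κ ^ m := Nat.one_le_pow _ _ hκ
      have hZ1 : Z0 ≤ Z0 ^ (κ ^ m) := Nat.le_self_pow (by omega) Z0
      have h2 := step y (Z0 ^ (κ ^ m)) hy (hZ.trans hZ1)
      have h3 : (Z0 ^ κ ^ m) ^ κ = Z0 ^ κ ^ (m + 1) := by
        rw [← pow_mul, pow_succ]
      rw [h3] at h2
      have hle : Z0 ^ κ ^ m ≤ Z0 ^ κ ^ (m + 1) := by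
        rw [← h3]; exact Nat.le_self_pow (by omega) _
      rw [sum_RR y Z0 _ (hZ1.trans hle)]
      rw [sum_RR y Z0 _ hZ1] at h1
      rw [sum_RR y _ _ hle] at h2
      push_cast
      linarith
  intro m y Z0 Z hy hZ hZZ
  have h1 := ind m y Z0 hy hZ
  have hyR : (3 : ℝ) ≤ y := by exact_mod_cast hy
  have hlog3 : (0 : ℝ) < Real.log 3 := Real.log_pos (by norm_num)
  have hly : 0 < Real.log y := lt_of_lt_of_le hlog3 (Real.log_le_log (by norm_num) hyR)
  calc 1 / (κ : ℝ) * m / Real.log y = (m : ℝ) * (1 / (κ * Real.log y)) := by field_simp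
    _ ≤ _ := h1
    _ ≤ _ := by
      apply Finset.sum_le_sum_of_subset_of_nonneg
      · intro r hr
        rw [mem_RR] at hr ⊢
        exact ⟨⟨hr.1.1, hr.1.2.trans hZZ⟩, hr.2⟩
      · intro r _ _
        have := Real.log_natCast_nonneg r
        positivity

end Pool.Agent.N801.PF
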