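import Pool.Agent.N801.PF.Base
import Pool.Agent.Helper256.KM.Mertens

/-!
# PF/ME23: Mertens upper bounds (helper713, for helper801)
-/

set_option autoImplicit false

open Finset

namespace Pool.Agent.N801.PF

namespace Me23

/-- the sum of the reciprocals of the primes -/
noncomputable def SP (N : ℕ) : ℝ := ∑ p ∈ (Icc 1 N).filter Nat.Prime, (1 : ℝ) / p

lemma SP_two : SP 2 = 1 / 2 := by
  have h : (Icc 1 2).filter Nat.Prime = {2} := by decide
  rw [SP, h, sum_singleton]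
  norm_num

lemma sp_bound : ∃ C : ℝ, 0 ≤ C ∧ ∀ N : ℕ, 2 ≤ N → |SP N - Real.log (Real.log N)| ≤ C := by
  obtain ⟨C, hC⟩ := Pool.Agent.Helper256.KM.mertens_inv
  have hC0 : 0 ≤ C := (abs_nonneg _).trans (hC 3 le_rfl)
  refine ⟨C + |SP 2 - Real.log (Real.log (2 : ℕ))|, by positivity, fun N hN => ?_⟩
  rcases Nat.lt_or_ge N 3 with h | h
  · obtain rfl : N = 2 := by omega
    linarith
  · have h1 := hC N h
    have h2 : |SP N - Real.log (Real.log N)| ≤ C := h1
    have := abs_nonneg (SP 2 - Real.log (Real.log (2 : ℕ)))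
    linarith

lemma sp_sub {a y : ℕ} (h : a ≤ y) : ∑ p ∈ prs a y, (1 : ℝ) / p = SP y - SP a := by
  have h1 : (Icc 1 y).filter Nat.Prime = (Icc 1 a).filter Nat.Prime ∪ prs a y := by
    ext p
    rw [mem_union, mem_prs, mem_filter, mem_filter, mem_Icc, mem_Icc]
    constructor
    · rintro ⟨⟨h1, h2⟩, h3⟩
      rcases Nat.lt_or_ge a p with h4 | h4
      · exact Or.inr ⟨⟨h4, h2⟩, h3⟩
      · exact Or.inl ⟨⟨h1, h4⟩, h3⟩
    · rintro (⟨⟨h1, h2⟩, h3⟩ | ⟨⟨h1, h2⟩, h3⟩)
      · exact ⟨⟨h1, h2.trans h⟩, h3⟩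
      · exact ⟨⟨h3.one_lt.le, h2⟩, h3⟩
  have h2 : Disjoint ((Icc 1 a).filter Nat.Prime) (prs a y) := by
    rw [Finset.disjoint_left]
    intro p hp hq
    rw [mem_filter, mem_Icc] at hp
    rw [mem_prs] at hq
    omega
  rw [SP, SP, h1, sum_union h2]
  ring

lemma key : ∃ C : ℝ, 0 ≤ C ∧ ∀ a y : ℕ, 2 ≤ a → a ≤ y →
    |∑ p ∈ prs a y, (1 : ℝ) / p - (Real.log (Real.log y) - Real.log (Real.log a))| ≤ C := by
  obtain ⟨C, hC0, hC⟩ := sp_bound
  refine ⟨2 * C, by positivity, fun a y ha hy => ?_⟩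
  rw [sp_sub hy]
  have h1 := abs_le.1 (hC a ha)
  have h2 := abs_le.1 (hC y (ha.trans hy))
  rw [abs_le]
  constructor <;> linarith [h1.1, h1.2, h2.1, h2.2]

lemma log_pos' {a : ℕ} (ha : 2 ≤ a) : 0 < Real.log a :=
  Real.log_pos (by exact_mod_cast (by omega : 1 < a))

end Me23

open Me23

theorem me2 : ME2 := by
  obtain ⟨C, hC0, hC⟩ := key
  refine ⟨Real.exp C, Real.exp_pos _, fun a y ha hy => ?_⟩
  have hla := log_pos' ha
  have hly := log_pos' (ha.trans hy)
  have h1 : pj a y 1 ≤ Real.exp (-∑ p ∈ prs a y, (1 : ℝ) / p) := by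
    rw [pj, ← sum_neg_distrib, Real.exp_sum]
    apply prod_le_prod
    · intro p hp
      rw [mem_prs] at hp
      have : (1 : ℝ) ≤ p := by exact_mod_cast hp.2.one_lt.le
      rw [sub_nonneg, div_le_one (by linarith)]
      push_cast
      exact this
    · intro p hp
      have := Real.add_one_le_exp (-((1 : ℝ) / p))
      push_cast
      linarith
  have h2 := (abs_le.1 (hC a y ha hy)).1
  have h3 : Real.exp (-∑ p ∈ prs a y, (1 : ℝ) / p) ≤
      Real.exp (C + Real.log (Real.log a) - Real.log (Real.log y)) :=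
    Real.exp_le_exp.2 (by linarith)
  have h4 : Real.exp (C + Real.log (Real.log a) - Real.log (Real.log y)) =
      Real.exp C * Real.log a / Real.log y := by
    rw [Real.exp_sub, Real.exp_add, Real.exp_log hla, Real.exp_log hly]
  rw [← h4]
  exact h1.trans h3

theorem me3 : ME3 := by
  obtain ⟨C, hC0, hC⟩ := key
  refine ⟨Real.exp C, Real.one_le_exp hC0, fun y Z k hy hZ => ?_⟩
  have hly := log_pos' hy
  have hlZ := log_pos' (hy.trans hZ)
  have h1 : EE y Z k ≤ Real.exp (k * ∑ p ∈ prs y Z, (1 : ℝ) / p) := by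
    rw [EE, mul_sum, Real.exp_sum]
    apply prod_le_prod
    · intro p _
      positivity
    · intro p _
      have := Real.add_one_le_exp ((k : ℝ) * (1 / (p : ℝ)))
      have h : (k : ℝ) / p = k * (1 / (p : ℝ)) := by ring
      rw [h]
      linarith
  have h2 := (abs_le.1 (hC y Z hy hZ)).2
  have h3 : Real.exp (∑ p ∈ prs y Z, (1 : ℝ) / p) ≤
      Real.exp (C + Real.log (Real.log Z) - Real.log (Real.log y)) :=
    Real.exp_le_exp.2 (by linarith)
  have h4 : Real.exp (C + Real.log (Real.log Z) - Real.log (Real.log y)) =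
      Real.exp C * (Real.log Z / Real.log y) := by
    rw [Real.exp_sub, Real.exp_add, Real.exp_log hlZ, Real.exp_log hly]
    ring
  rw [h4] at h3
  rw [Real.exp_nat_mul] at h1
  exact h1.trans (pow_le_pow_left₀ (Real.exp_pos _).le h3 k)

end Pool.Agent.N801.PF
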