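import Pool.Agent.N801.PF.Crt1

/-!
# Periodic functions over active positions
-/

set_option autoImplicit false

open Finset

namespace Pool.Agent.N801.PF

theorem pair : PAIR := by
  classical
  intro C hC κ b J H W u v b₀ hb hH hHy hW hWp huv Q hQ f hf T hT hTc
  obtain ⟨y, hy⟩ : ∃ y : ℕ, y = 2 ^ 2 ^ J := ⟨_, rfl⟩
  have hyr : ((2 : ℝ) ^ 2 ^ J) = (y : ℝ) := by rw [hy]; push_cast; rfl
  obtain ⟨M, hM⟩ : ∃ M : ℕ, M = ∏ p ∈ Q, p := ⟨_, rfl⟩
  rw [← hM] at hf
  rw [← hy] at hHy hQ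
  rw [← hM, hyr]
  have hMpos : 0 < M := by
    rw [hM]
    exact Finset.prod_pos fun p hp => (hQ p hp).1.pos
  have hcoWM : Nat.Coprime W M := by
    rw [hM]
    apply Nat.Coprime.prod_right
    intro p hp
    rw [Nat.coprime_comm, Nat.Prime.coprime_iff_not_dvd (hQ p hp).1]
    intro hd
    have h1 := hWp p (hQ p hp).1 hd
    have h2 := (hQ p hp).2
    omega
  have hq : ∀ p ∈ prs H (2 ^ 2 ^ J), ¬ p ∣ W * M := by
    intro p hp hd
    rw [mem_prs, ← hy] at hp
    rcases (Nat.Prime.dvd_mul hp.2).1 hd with h1 | h1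
    · have := hWp p hp.2 h1
      omega
    · rw [hM] at h1
      obtain ⟨p', hp', h2⟩ := (Prime.dvd_finsetProd_iff hp.2.prime _).1 h1
      have h3 := (Nat.prime_dvd_prime_iff_eq hp.2 (hQ p' hp').1).1 h2
      have h4 := (hQ p' hp').2
      omega
  -- the class of `a`
  obtain ⟨S, hS⟩ : ∃ S : Finset ℕ, S = (II u v W b₀).filter
    (fun n => ∀ h ∈ T, act H (2 ^ 2 ^ J) (n + h)) := ⟨_, rfl⟩
  have hcard : ∀ a ∈ range M,
      |(((S.filter (fun n => n % M = a)).card : ℕ) : ℝ) -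
        ((v : ℝ) - u) / ((W * M : ℕ) : ℝ) * pj H (2 ^ 2 ^ J) T.card| ≤
      (1 / 2 : ℝ) ^ b * (((v : ℝ) - u) / ((W * M : ℕ) : ℝ) * pj H (2 ^ 2 ^ J) T.card) +
        (y : ℝ) ^ (C * b) := by
    intro a ha
    rw [mem_range] at ha
    have h1 := hC.2 κ b J H (W * M) u v (Nat.chineseRemainder hcoWM b₀ a : {k // _}) hb hH
      (Nat.mul_pos hW hMpos) huv hq T hT hTc
    rw [hyr] at h1
    have h2 : S.filter (fun n => n % M = a) = (Ioc u v).filter (fun n =>
        n % (W * M) = ((Nat.chineseRemainder hcoWM b₀ a : {k // _}) : ℕ) % (W * M) ∧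
        ∀ h ∈ T, act H (2 ^ 2 ^ J) (n + h)) := by
      ext n
      rw [mem_filter, hS, mem_filter, mem_II, mem_filter, mem_Ioc]
      have h3 := (Nat.chineseRemainder hcoWM b₀ a).2
      have h4 : (n % W = b₀ % W ∧ n % M = a) ↔
          n % (W * M) = ((Nat.chineseRemainder hcoWM b₀ a : {k // _}) : ℕ) % (W * M) := by
        constructor
        · rintro ⟨h5, h6⟩
          have h7 : n ≡ b₀ [MOD W] := h5
          have h8 : n ≡ a [MOD M] := by
            unfold Nat.ModEq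
            rw [h6, Nat.mod_eq_of_lt ha]
          exact (Nat.modEq_and_modEq_iff_modEq_mul hcoWM).1 ⟨h7.trans h3.1.symm, h8.trans h3.2.symm⟩
        · intro h5
          have h6 := (Nat.modEq_and_modEq_iff_modEq_mul hcoWM).2 h5
          refine ⟨h6.1.trans h3.1, ?_⟩
          have h7 : n ≡ a [MOD M] := h6.2.trans h3.2
          unfold Nat.ModEq at h7
          rw [h7, Nat.mod_eq_of_lt ha]
      tauto
    rw [h2]
    exact h1
  -- decomposition of the sum
  have hsum : ∑ n ∈ S, f n =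
      ∑ a ∈ range M, f a * (((S.filter (fun n => n % M = a)).card : ℕ) : ℝ) := by
    have hmaps : ∀ n ∈ S, n % M ∈ range M := fun n _ => mem_range.2 (Nat.mod_lt _ hMpos)
    rw [← Finset.sum_fiberwise_of_maps_to hmaps]
    apply Finset.sum_congr rfl
    intro a _
    have h1 : ∀ n ∈ S.filter (fun n => n % M = a), f n = f a := by
      intro n hn
      rw [mem_filter] at hn
      rw [← per_mod hf n, hn.2]
    rw [Finset.sum_congr rfl h1, Finset.sum_const, nsmul_eq_mul, mul_comm]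
  have hMr : (0 : ℝ) < M := by exact_mod_cast hMpos
  have hWr : (0 : ℝ) < W := by exact_mod_cast hW
  have hmain : ((v : ℝ) - u) / W * pj H (2 ^ 2 ^ J) T.card * ((∑ a ∈ range M, f a) / (M : ℝ)) =
      ∑ a ∈ range M, f a * (((v : ℝ) - u) / ((W * M : ℕ) : ℝ) * pj H (2 ^ 2 ^ J) T.card) := by
    rw [← Finset.sum_mul]
    push_cast
    field_simp
  have hmain2 : (1 / 2 : ℝ) ^ b * (((v : ℝ) - u) / W * pj H (2 ^ 2 ^ J) T.card *
        ((∑ a ∈ range M, |f a|) / (M : ℝ))) + (y : ℝ) ^ (C * b) * ∑ a ∈ range M, |f a| =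
      ∑ a ∈ range M, |f a| * ((1 / 2 : ℝ) ^ b * (((v : ℝ) - u) / ((W * M : ℕ) : ℝ) *
        pj H (2 ^ 2 ^ J) T.card) + (y : ℝ) ^ (C * b)) := by
    rw [← Finset.sum_mul]
    push_cast
    field_simp
  rw [← hS, hsum, hmain, hmain2, ← Finset.sum_sub_distrib]
  refine (Finset.abs_sum_le_sum_abs _ _).trans (Finset.sum_le_sum fun a ha => ?_)
  rw [← mul_sub, abs_mul]
  exact mul_le_mul_of_nonneg_left (hcard a ha) (abs_nonneg _)

end Pool.Agent.N801.PF
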