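import Pool.Agent.N801.PF.Base

/-!
Sums of the coefficients of the tuples: the statements `SA` and `SB` (helper692 for helper801).
-/

set_option autoImplicit false

open Finset

namespace Pool.Agent.N801.PF

lemma abs_cf {ι : Type} [Fintype ι] [DecidableEq ι] {R : Finset ℕ} {Y : ℕ} {al : ℕ → ℝ}
    (hR : ∀ ρ ∈ R, 0 ≤ al ρ) {r : ι → ℕ} (hr : r ∈ Tu ι R Y) :
    |cf al r| = ∏ i, (if r i = 1 then 1 else al (r i)) := by
  rw [cf, Finset.abs_prod]
  refine Finset.prod_congr rfl fun i _ => ?_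
  rcases (mem_Tu.1 hr).1 i with h | h
  · rw [if_pos h, if_pos h, abs_one]
  · split_ifs with h1
    · rw [abs_one]
    · rw [abs_neg, abs_of_nonneg (hR _ h)]

theorem sa : SA := by
  intro ι _ _ Y k₀ R al hal hsum hk
  rw [Finset.sum_congr rfl fun r hr => abs_cf (fun ρ hρ => (hal ρ hρ).2) hr]
  refine (gen_supp_small R (fun ρ hρ => (hal ρ hρ).1) al (fun ρ hρ => (hal ρ hρ).2) (Tu ι R Y)
    (fun r hr => (mem_Tu.1 hr).1) k₀ hk).trans ?_
  have h0 : 0 ≤ ∑ ρ ∈ R, al ρ := Finset.sum_nonneg fun ρ hρ => (hal ρ hρ).2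
  have h1 : (Fintype.card ι : ℝ) * ∑ ρ ∈ R, al ρ ≤ (Fintype.card ι : ℝ) * 1 :=
    mul_le_mul_of_nonneg_left hsum (Nat.cast_nonneg _)
  refine pow_le_pow_left₀ (by positivity) ?_ k₀
  linarith

lemma cf_mul_mm_le {ι : Type} [Fintype ι] [DecidableEq ι] {y Z Y : ℕ} {R : Finset ℕ} {al : ℕ → ℝ}
    (hA : Adm y Z R) (hR : ∀ ρ ∈ R, 0 ≤ al ρ ∧ al ρ ≤ 1 / (ρ : ℝ)) {r : ι → ℕ}
    (hr : r ∈ Tu ι R Y) : |cf al r| * (mm r : ℝ) ≤ 1 := by
  rw [abs_cf (fun ρ hρ => (hR ρ hρ).1) hr, mm, Nat.cast_prod, ← Finset.prod_mul_distrib]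
  refine Finset.prod_le_one (fun i _ => ?_) fun i _ => ?_
  · refine mul_nonneg ?_ (Nat.cast_nonneg _)
    split_ifs with h1
    · norm_num
    · rcases (mem_Tu.1 hr).1 i with h | h
      · exact absurd h h1
      · exact (hR _ h).1
  · split_ifs with h1
    · rw [h1]; norm_num
    · rcases (mem_Tu.1 hr).1 i with h | h
      · exact absurd h h1
      · have h2 : (0 : ℝ) < (r i : ℝ) := by
          have := (hA _ h).1
          exact_mod_cast (by omega : 0 < r i)
        calc al (r i) * (r i : ℝ) ≤ 1 / (r i : ℝ) * (r i : ℝ) :=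
              mul_le_mul_of_nonneg_right (hR _ h).2 h2.le
          _ = 1 := by field_simp

open Classical in
/-- the position of a prime in a tuple -/
noncomputable def posOf {ι : Type} (r : ι → ℕ) (p : ℕ) : Option ι :=
  if h : ∃ i, p ∣ r i then some h.choose else none

lemma posOf_eq {ι : Type} {r : ι → ℕ} (hc : ∀ i j, i ≠ j → (r i).Coprime (r j)) {p : ℕ}
    (hp : p.Prime) (i : ι) : posOf r p = some i ↔ p ∣ r i := by
  unfold posOf
  constructor
  · intro h
    split_ifs at h with h1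
    rw [Option.some_inj] at h
    rw [← h]
    exact h1.choose_spec
  · intro h
    have h1 : ∃ i, p ∣ r i := ⟨i, h⟩
    rw [dif_pos h1, Option.some_inj]
    by_contra hne
    have h2 := hc _ _ hne
    exact Nat.Prime.one_lt hp |>.ne' (Nat.eq_one_of_dvd_coprimes h2 h1.choose_spec h)

lemma card_same {ι : Type} [Fintype ι] [DecidableEq ι] {y Z Y k₁ : ℕ} {R : Finset ℕ}
    (hA : Adm y Z R) {r : ι → ℕ} (hk : (mm r).primeFactors.card ≤ k₁) :
    (((Tu ι R Y).filter (fun r' => mm r = mm r')).card : ℝ) ≤ (1 + (Fintype.card ι : ℝ)) ^ k₁ := by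
  classical
  have hpos : ∀ r' ∈ Tu ι R Y, mm r' ≠ 0 := by
    intro r' hr'
    rw [mm, Finset.prod_ne_zero_iff]
    intro i _
    rcases (mem_Tu.1 hr').1 i with h | h
    · omega
    · have := (hA _ h).1
      omega
  have hsq : ∀ r' ∈ Tu ι R Y, ∀ i, Squarefree (r' i) := by
    intro r' hr' i
    rcases (mem_Tu.1 hr').1 i with h | h
    · rw [h]; exact squarefree_one
    · exact (hA _ h).2.2.1
  have h1 : ((Tu ι R Y).filter (fun r' => mm r = mm r')).card ≤
      (univ : Finset ({p // p ∈ (mm r).primeFactors} → Option ι)).card := by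
    refine Finset.card_le_card_of_injOn (fun r' p => posOf r' p.1) (fun _ _ => mem_univ _) ?_
    intro r' hr' r'' hr'' heq
    have a1 := mem_filter.1 (mem_coe.1 hr')
    have a2 := mem_filter.1 (mem_coe.1 hr'')
    have key : ∀ s t : ι → ℕ, s ∈ Tu ι R Y → t ∈ Tu ι R Y → mm r = mm s →
        (∀ p : {p // p ∈ (mm r).primeFactors}, posOf s p.1 = posOf t p.1) →
        ∀ i p, p.Prime → p ∣ s i → p ∣ t i := by
      intro s t hs ht hms hst i p hp hpi
      have h2 : p ∈ (mm r).primeFactors := by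
        rw [hms, Nat.mem_primeFactors]
        exact ⟨hp, hpi.trans (Finset.dvd_prod_of_mem _ (mem_univ i)), hpos s hs⟩
      have h3 := hst ⟨p, h2⟩
      rw [(posOf_eq (mem_Tu.1 hs).2.1 hp i).2 hpi] at h3
      exact (posOf_eq (mem_Tu.1 ht).2.1 hp i).1 h3.symm
    have heq' : ∀ p : {p // p ∈ (mm r).primeFactors}, posOf r' p.1 = posOf r'' p.1 :=
      fun p => congrFun heq p
    funext i
    rw [Nat.Squarefree.ext_iff (hsq r' a1.1 i) (hsq r'' a2.1 i)]
    intro p hp
    exact ⟨key r' r'' a1.1 a2.1 a1.2 heq' i p hp,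
      key r'' r' a2.1 a1.1 a2.2 (fun q => (heq' q).symm) i p hp⟩
  have h2 : (univ : Finset ({p // p ∈ (mm r).primeFactors} → Option ι)).card =
      (1 + Fintype.card ι) ^ (mm r).primeFactors.card := by
    rw [Finset.card_univ, Fintype.card_fun, Fintype.card_option, Fintype.card_coe, add_comm]
  rw [h2] at h1
  calc (((Tu ι R Y).filter (fun r' => mm r = mm r')).card : ℝ)
      ≤ (((1 + Fintype.card ι) ^ (mm r).primeFactors.card : ℕ) : ℝ) := by exact_mod_cast h1
    _ = (1 + (Fintype.card ι : ℝ)) ^ (mm r).primeFactors.card := by push_cast; ring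
    _ ≤ (1 + (Fintype.card ι : ℝ)) ^ k₁ := pow_le_pow_right₀ (by
        have : (0 : ℝ) ≤ (Fintype.card ι : ℝ) := Nat.cast_nonneg _
        linarith) hk

theorem sb : SB := by
  intro ι _ _ y Z Y k₀ k₁ R al hA hR hsum hk hk1
  have hsa := sa ι Y k₀ R al (fun ρ hρ => ⟨(hA ρ hρ).1, (hR ρ hρ).1⟩) hsum hk
  calc ∑ r ∈ Tu ι R Y, ∑ r' ∈ (Tu ι R Y).filter (fun r' => mm r = mm r'),
        |cf al r| * |cf al r'| * (mm r : ℝ)
      ≤ ∑ r ∈ Tu ι R Y, |cf al r| * (1 + (Fintype.card ι : ℝ)) ^ k₁ := by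
        refine Finset.sum_le_sum fun r hr => ?_
        calc ∑ r' ∈ (Tu ι R Y).filter (fun r' => mm r = mm r'), |cf al r| * |cf al r'| * (mm r : ℝ)
            ≤ ∑ r' ∈ (Tu ι R Y).filter (fun r' => mm r = mm r'), |cf al r| := by
              refine Finset.sum_le_sum fun r' hr' => ?_
              rw [mem_filter] at hr'
              rw [hr'.2, mul_assoc]
              exact mul_le_of_le_one_right (abs_nonneg _) (cf_mul_mm_le hA hR hr'.1)
          _ = |cf al r| * (((Tu ι R Y).filter (fun r' => mm r = mm r')).card : ℝ) := by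
              rw [Finset.sum_const, nsmul_eq_mul, mul_comm]
          _ ≤ |cf al r| * (1 + (Fintype.card ι : ℝ)) ^ k₁ :=
              mul_le_mul_of_nonneg_left (card_same hA (hk1 r hr)) (abs_nonneg _)
    _ = (∑ r ∈ Tu ι R Y, |cf al r|) * (1 + (Fintype.card ι : ℝ)) ^ k₁ := by
        rw [Finset.sum_mul]
    _ ≤ (1 + (Fintype.card ι : ℝ)) ^ k₀ * (1 + (Fintype.card ι : ℝ)) ^ k₁ :=
        mul_le_mul_of_nonneg_right hsa (by positivity)
    _ = (1 + (Fintype.card ι : ℝ)) ^ (k₀ + k₁) := by rw [pow_add]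

end Pool.Agent.N801.PF
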