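import Pool.Agent.N801.PF.Base

/-!
The second moment.
-/

set_option autoImplicit false
set_option linter.unusedSectionVars false

open Finset

namespace Pool.Agent.N801.PF

namespace SmAux

variable {ι : Type} [Fintype ι] [DecidableEq ι]

lemma ph_one (m : ℕ) : ph 1 m = 1 := by
  rw [ph, Nat.primeFactors_one, prod_empty]

lemma mem_AA {H y n : ℕ} {pos : ι → ℕ} {i : ι} : i ∈ AA H y pos n ↔ act H y (n + pos i) := by
  rw [AA, mem_filter]; simp

lemma Fr_eq (H y : ℕ) (pos r : ι → ℕ) (n : ℕ) :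
    Fr H y pos r n = if sp r ⊆ AA H y pos n then ∏ i, ph (r i) (n + pos i) else 0 := by
  by_cases h : sp r ⊆ AA H y pos n
  · rw [if_pos h, Fr]
    refine Finset.prod_congr rfl fun i _ => ?_
    by_cases h1 : r i = 1
    · rw [if_pos h1, h1, ph_one]
    · rw [if_neg h1, if_pos (mem_AA.1 (h (mem_sp.2 h1)))]
  · rw [if_neg h, Fr]
    obtain ⟨i, hi, hi'⟩ := Finset.not_subset.1 h
    refine Finset.prod_eq_zero (Finset.mem_univ i) ?_
    rw [if_neg (mem_sp.1 hi), if_neg (fun h2 => hi' (mem_AA.2 h2))]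

lemma act_iff (H y n : ℕ) (pos : ι → ℕ) (T : Finset ι) :
    (∀ h ∈ T.image pos, act H y (n + h)) ↔ T ⊆ AA H y pos n := by
  rw [Finset.subset_iff]
  simp only [Finset.mem_image, forall_exists_index, and_imp, forall_apply_eq_imp_iff₂, mem_AA]

/-- The inner sum. -/
lemma inner_eq (H y u v W b₀ : ℕ) (pos r r' : ι → ℕ) (T₀ : Finset ι) :
    ∑ n ∈ (II u v W b₀).filter (fun n => T₀ ⊆ AA H y pos n), Fr H y pos r n * Fr H y pos r' n =
      ∑ n ∈ (II u v W b₀).filter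
        (fun n => ∀ h ∈ (sp r ∪ sp r' ∪ T₀).image pos, act H y (n + h)), Th pos r r' n := by
  rw [Finset.sum_filter, Finset.sum_filter]
  refine Finset.sum_congr rfl fun n _ => ?_
  have h1 : (∀ h ∈ (sp r ∪ sp r' ∪ T₀).image pos, act H y (n + h)) ↔
      (sp r ⊆ AA H y pos n ∧ sp r' ⊆ AA H y pos n) ∧ T₀ ⊆ AA H y pos n := by
    rw [act_iff, Finset.union_subset_iff, Finset.union_subset_iff]
  rw [if_congr h1 rfl rfl, Fr_eq, Fr_eq, Th]
  by_cases a1 : sp r ⊆ AA H y pos n <;> by_cases a2 : sp r' ⊆ AA H y pos n <;>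
    by_cases a3 : T₀ ⊆ AA H y pos n <;> simp [a1, a2, a3]

end SmAux

open SmAux

theorem sm : PAIR → LOC1 → LOC2 → LOC3 → LOC4 → SA → SB → SC → PJ → SM := by
  intro hPAIR hL1 hL2 hL3 hL4 hSA hSB hSC hPJ C hC ι _ _ κ b J H W u v b₀ Z Y k₀ k₁ R al pos T₀ c
    hb hH hκ hHy hW hWp huv hpos hadm hal hal1 hsp hpf hT₀ hc hcd
  obtain ⟨y, hy⟩ : ∃ y : ℕ, y = 2 ^ 2 ^ J := ⟨_, rfl⟩
  have hyR : (2 : ℝ) ^ 2 ^ J = (y : ℝ) := by rw [hy]; push_cast; rfl
  rw [← hy] at hHy hadm ⊢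
  rw [hyR]
  have hy1 : 1 ≤ y := by rw [hy]; exact Nat.one_le_two_pow
  have hyR1 : (1 : ℝ) ≤ y := by exact_mod_cast hy1
  have hC1 : 1 ≤ C := hC.1
  have hκH : κ + 1 ≤ H := by nlinarith
  have hH1 : 1 ≤ H := by omega
  obtain ⟨V, hV⟩ : ∃ V : ℝ, V = ((v : ℝ) - u) / W := ⟨_, rfl⟩
  have hV0 : 0 ≤ V := by
    rw [hV]
    have : (u : ℝ) ≤ v := by exact_mod_cast huv
    exact div_nonneg (by linarith) (Nat.cast_nonneg _)
  obtain ⟨D, hD⟩ : ∃ D : ℝ, D = (y : ℝ) ^ (C * b) := ⟨_, rfl⟩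
  have hD0 : 0 ≤ D := by rw [hD]; positivity
  obtain ⟨P, hP⟩ : ∃ P : ℝ, P = pj H y 1 := ⟨_, rfl⟩
  have hP0 : 0 ≤ P := by rw [hP]; exact (hPJ H y 1 hH1 hH1).1
  rw [← hV, ← hD, ← hP]
  have hR1 : ∀ ρ ∈ R, 1 < ρ := fun ρ hρ => (hadm ρ hρ).1
  -- the inner sums
  obtain ⟨E, hE⟩ : ∃ E : (ι → ℕ) → (ι → ℕ) → ℝ, E = fun r r' =>
      ∑ n ∈ (II u v W b₀).filter (fun n => T₀ ⊆ AA H y pos n),
        Fr H y pos r n * Fr H y pos r' n := ⟨_, rfl⟩
  obtain ⟨Gv, hGv⟩ : ∃ Gv : (ι → ℕ) → (ι → ℕ) → ℝ, Gv = fun r r' =>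
      (∑ a ∈ range (MM r r'), Th pos r r' a) / (MM r r' : ℝ) := ⟨_, rfl⟩
  have hcardT : ∀ r ∈ Tu ι R Y, ∀ r' ∈ Tu ι R Y, (sp r ∪ sp r' ∪ T₀).card ≤ κ := by
    intro r hr r' hr'
    have h1 := hsp r hr
    have h2 := hsp r' hr'
    have h3 := Finset.card_union_le (sp r ∪ sp r') T₀
    have h4 := Finset.card_union_le (sp r) (sp r')
    omega
  have hmmY : ∀ r ∈ Tu ι R Y, (mm r : ℝ) ≤ Y := fun r hr => by
    exact_mod_cast (mem_Tu.1 hr).2.2
  have hBB0 : ∀ r r' : ι → ℕ, 0 ≤ BB r r' := fun r r' => by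
    rw [BB]; exact Finset.prod_nonneg fun i _ => by positivity
  have key : ∀ r ∈ Tu ι R Y, ∀ r' ∈ Tu ι R Y,
      |E r r' - V * pj H y (sp r ∪ sp r' ∪ T₀).card * Gv r r'| ≤
        (1 / 2 : ℝ) ^ b * (V * (P ^ (sp r ∪ sp r' ∪ T₀).card * BB r r')) + D * (Y : ℝ) ^ 4 := by
    intro r hr r' hr'
    obtain ⟨l1, l2, l3, l4, l5⟩ := hL4 ι pos y Z Y R hadm r hr r' hr'
    have hcT := hcardT r hr r' hr'
    have hci : ((sp r ∪ sp r' ∪ T₀).image pos).card = (sp r ∪ sp r' ∪ T₀).card :=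
      Finset.card_image_of_injective _ hpos.1
    have h1 := hPAIR C hC κ b J H W u v b₀ hb hH (by rw [← hy]; exact hHy) hW hWp huv (QQ r r')
      (fun p hp => by rw [← hy]; exact l5 p hp) (Th pos r r') l1
      ((sp r ∪ sp r' ∪ T₀).image pos) (fun h hh => by
        obtain ⟨i, _, rfl⟩ := Finset.mem_image.1 hh
        exact Finset.mem_Icc.2 (hpos.2 i)) (by rw [hci]; exact hcT)
    rw [hci, hyR, ← hy, ← hV, ← hD] at h1
    have h2 : E r r' = ∑ n ∈ (II u v W b₀).filter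
        (fun n => ∀ h ∈ (sp r ∪ sp r' ∪ T₀).image pos, act H y (n + h)), Th pos r r' n := by
      rw [hE]; exact inner_eq H y u v W b₀ pos r r' T₀
    have h3 : Gv r r' = (∑ a ∈ range (∏ p ∈ QQ r r', p), Th pos r r' a) /
        ((∏ p ∈ QQ r r', p : ℕ) : ℝ) := by rw [hGv]; rfl
    rw [h2, h3]
    refine h1.trans ?_
    obtain ⟨p0, p1, p2, _⟩ := hPJ H y (sp r ∪ sp r' ∪ T₀).card hH1 (by omega)
    rw [← hP] at p2
    have hB := hL3 ι pos H y Z Y R hpos hHy hadm r hr r' hr'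
    have hB' : (∑ a ∈ range (∏ p ∈ QQ r r', p), |Th pos r r' a|) /
        ((∏ p ∈ QQ r r', p : ℕ) : ℝ) ≤ BB r r' := hB
    have hB0 : 0 ≤ (∑ a ∈ range (∏ p ∈ QQ r r', p), |Th pos r r' a|) /
        ((∏ p ∈ QQ r r', p : ℕ) : ℝ) :=
      div_nonneg (Finset.sum_nonneg fun _ _ => abs_nonneg _) (Nat.cast_nonneg _)
    refine add_le_add ?_ ?_
    · refine mul_le_mul_of_nonneg_left ?_ (by positivity)
      rw [mul_assoc]
      refine mul_le_mul_of_nonneg_left ?_ hV0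
      exact mul_le_mul p2 hB' hB0 (pow_nonneg hP0 _)
    · refine mul_le_mul_of_nonneg_left ?_ hD0
      have hm := hmmY r hr
      have hm' := hmmY r' hr'
      have hm0 : (0 : ℝ) ≤ mm r := Nat.cast_nonneg _
      have hm0' : (0 : ℝ) ≤ mm r' := Nat.cast_nonneg _
      calc ∑ a ∈ range (∏ p ∈ QQ r r', p), |Th pos r r' a| ≤
          ∑ a ∈ range (∏ p ∈ QQ r r', p), (mm r : ℝ) * mm r' :=
            Finset.sum_le_sum fun a _ => l2 a
        _ = ((∏ p ∈ QQ r r', p : ℕ) : ℝ) * ((mm r : ℝ) * mm r') := by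
            rw [Finset.sum_const, card_range, nsmul_eq_mul]
        _ ≤ ((mm r : ℝ) * mm r') * ((mm r : ℝ) * mm r') := by
            refine mul_le_mul_of_nonneg_right ?_ (by positivity)
            exact_mod_cast l3
        _ ≤ ((Y : ℝ) * Y) * ((Y : ℝ) * Y) := by gcongr
        _ = (Y : ℝ) ^ 4 := by ring
  -- the main terms
  obtain ⟨mt, hmt⟩ : ∃ mt : (ι → ℕ) → (ι → ℕ) → ℝ, mt = fun r r' =>
      if r = r' then V * ((Nat.totient (mm r) : ℝ) * pj H y ((sp r).card + T₀.card)) else 0 :=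
    ⟨_, rfl⟩
  have key2 : ∀ r ∈ Tu ι R Y, ∀ r' ∈ Tu ι R Y, c r ≠ 0 →
      |V * pj H y (sp r ∪ sp r' ∪ T₀).card * Gv r r' - mt r r'| ≤
        V * (if mm r = mm r' then (mm r : ℝ) / y else 0) := by
    intro r hr r' hr' hcr
    have hnn : 0 ≤ V * (if mm r = mm r' then (mm r : ℝ) / y else 0) := by
      refine mul_nonneg hV0 ?_
      split_ifs
      · positivity
      · exact le_rfl
    by_cases h : r = r'
    · subst h
      have h1 : (sp r ∪ sp r ∪ T₀).card = (sp r).card + T₀.card := by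
        rw [Finset.union_self, Finset.card_union_of_disjoint (hcd r hr hcr)]
      have h2 : Gv r r = (Nat.totient (mm r) : ℝ) := by
        rw [hGv]; exact hL1 ι pos H y Z Y R hpos hHy hadm r hr
      have h3 : V * pj H y (sp r ∪ sp r ∪ T₀).card * Gv r r - mt r r = 0 := by
        rw [h1, h2, hmt]
        beta_reduce
        rw [if_pos rfl]
        ring
      rw [h3, abs_zero]
      exact hnn
    · have h1 := hL2 ι pos H y Z Y R hpos hHy hy1 hadm r hr r' hr' h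
      have h2 : mt r r' = 0 := by rw [hmt]; beta_reduce; rw [if_neg h]
      have hcT := hcardT r hr r' hr'
      obtain ⟨p0, p1, _, _⟩ := hPJ H y (sp r ∪ sp r' ∪ T₀).card hH1 (by omega)
      rw [h2, sub_zero, abs_mul, abs_mul, abs_of_nonneg hV0, abs_of_nonneg p0, mul_assoc]
      refine mul_le_mul_of_nonneg_left ?_ hV0
      have h3 : |Gv r r'| ≤ if mm r = mm r' then (mm r : ℝ) / y else 0 := by
        rw [hGv]; exact h1
      calc pj H y (sp r ∪ sp r' ∪ T₀).card * |Gv r r'| ≤ 1 * |Gv r r'| := by gcongr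
        _ ≤ _ := by rw [one_mul]; exact h3
  -- expansion
  have hexp : ∑ n ∈ (II u v W b₀).filter (fun n => T₀ ⊆ AA H y pos n),
      (∑ r ∈ Tu ι R Y, c r * Fr H y pos r n) ^ 2 =
      ∑ r ∈ Tu ι R Y, ∑ r' ∈ Tu ι R Y, c r * c r' * E r r' := by
    have h1 : ∀ n, (∑ r ∈ Tu ι R Y, c r * Fr H y pos r n) ^ 2 =
        ∑ r ∈ Tu ι R Y, ∑ r' ∈ Tu ι R Y, c r * c r' * (Fr H y pos r n * Fr H y pos r' n) := by
      intro n
      rw [sq, Finset.sum_mul_sum]
      exact Finset.sum_congr rfl fun r _ => Finset.sum_congr rfl fun r' _ => by ring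
    rw [Finset.sum_congr rfl fun n _ => h1 n, Finset.sum_comm]
    refine Finset.sum_congr rfl fun r _ => ?_
    rw [Finset.sum_comm]
    refine Finset.sum_congr rfl fun r' _ => ?_
    rw [hE, Finset.mul_sum]
  have hmain : V * ∑ r ∈ Tu ι R Y, c r ^ 2 * (Nat.totient (mm r) : ℝ) *
      pj H y ((sp r).card + T₀.card) =
      ∑ r ∈ Tu ι R Y, ∑ r' ∈ Tu ι R Y, c r * c r' * mt r r' := by
    rw [Finset.mul_sum]
    refine Finset.sum_congr rfl fun r hr => ?_
    rw [Finset.sum_eq_single r]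
    · rw [hmt]
      beta_reduce
      rw [if_pos rfl]
      ring
    · intro r' _ hne
      rw [hmt]
      beta_reduce
      rw [if_neg (Ne.symm hne), mul_zero]
    · intro h; exact absurd hr h
  rw [hexp, hmain, ← Finset.sum_sub_distrib]
  -- pointwise bound
  have hpt : ∀ r ∈ Tu ι R Y, ∀ r' ∈ Tu ι R Y,
      |c r * c r' * E r r' - c r * c r' * mt r r'| ≤
        (1 / 2 : ℝ) ^ b * V * (if Disjoint (sp r) T₀ then (if Disjoint (sp r') T₀ then
          |cf al r| * |cf al r'| * (P ^ (sp r ∪ sp r' ∪ T₀).card * BB r r') else 0) else 0) +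
        D * (Y : ℝ) ^ 4 * (|cf al r| * |cf al r'|) +
        V / y * (if mm r = mm r' then |cf al r| * |cf al r'| * (mm r : ℝ) else 0) := by
    intro r hr r' hr'
    have hnn1 : 0 ≤ (if Disjoint (sp r) T₀ then (if Disjoint (sp r') T₀ then
          |cf al r| * |cf al r'| * (P ^ (sp r ∪ sp r' ∪ T₀).card * BB r r') else 0) else 0) := by
      have := hBB0 r r'
      split_ifs <;> positivity
    have hnn2 : 0 ≤ (if mm r = mm r' then |cf al r| * |cf al r'| * (mm r : ℝ) else 0) := by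
      split_ifs <;> positivity
    by_cases h1 : c r = 0
    · rw [h1]
      simp only [zero_mul, sub_zero, abs_zero]
      positivity
    by_cases h2 : c r' = 0
    · rw [h2]
      simp only [mul_zero, zero_mul, sub_zero, abs_zero]
      positivity
    rw [if_pos (hcd r hr h1), if_pos (hcd r' hr' h2), ← mul_sub, abs_mul, abs_mul]
    have h3 : |E r r' - mt r r'| ≤
        (1 / 2 : ℝ) ^ b * (V * (P ^ (sp r ∪ sp r' ∪ T₀).card * BB r r')) + D * (Y : ℝ) ^ 4 +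
          V * (if mm r = mm r' then (mm r : ℝ) / y else 0) := by
      have h4 := abs_add_le (E r r' - V * pj H y (sp r ∪ sp r' ∪ T₀).card * Gv r r')
        (V * pj H y (sp r ∪ sp r' ∪ T₀).card * Gv r r' - mt r r')
      rw [sub_add_sub_cancel] at h4
      exact h4.trans (add_le_add (key r hr r' hr') (key2 r hr r' hr' h1))
    have h5 : |c r| * |c r'| ≤ |cf al r| * |cf al r'| :=
      mul_le_mul (hc r hr) (hc r' hr') (abs_nonneg _) (abs_nonneg _)
    refine (mul_le_mul h5 h3 (abs_nonneg _) (by positivity)).trans (le_of_eq ?_)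
    by_cases h6 : mm r = mm r'
    · rw [if_pos h6, if_pos h6]; ring
    · rw [if_neg h6, if_neg h6]; ring
  refine (Finset.abs_sum_le_sum_abs _ _).trans ?_
  have hS1 : ∀ r ∈ Tu ι R Y, |∑ r' ∈ Tu ι R Y, c r * c r' * E r r' -
      ∑ r' ∈ Tu ι R Y, c r * c r' * mt r r'| ≤ ∑ r' ∈ Tu ι R Y,
        ((1 / 2 : ℝ) ^ b * V * (if Disjoint (sp r) T₀ then (if Disjoint (sp r') T₀ then
          |cf al r| * |cf al r'| * (P ^ (sp r ∪ sp r' ∪ T₀).card * BB r r') else 0) else 0) +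
        D * (Y : ℝ) ^ 4 * (|cf al r| * |cf al r'|) +
        V / y * (if mm r = mm r' then |cf al r| * |cf al r'| * (mm r : ℝ) else 0)) := by
    intro r hr
    rw [← Finset.sum_sub_distrib]
    exact (Finset.abs_sum_le_sum_abs _ _).trans (Finset.sum_le_sum fun r' hr' => hpt r hr r' hr')
  refine (Finset.sum_le_sum hS1).trans ?_
  simp only [Finset.sum_add_distrib, ← Finset.mul_sum]
  -- the three sums
  have a1 : ∑ r ∈ Tu ι R Y, ∑ r' ∈ Tu ι R Y, (if Disjoint (sp r) T₀ then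
      (if Disjoint (sp r') T₀ then |cf al r| * |cf al r'| *
        (P ^ (sp r ∪ sp r' ∪ T₀).card * BB r r') else 0) else 0) ≤
      P ^ T₀.card * (1 + (Fintype.card ι : ℝ) * (P * XX R al)) ^ (2 * k₀) := by
    have h1 := hSC ι Y k₀ R al P T₀ hP0 (fun ρ hρ => ⟨hR1 ρ hρ, (hal ρ hρ).1⟩) hsp
    refine le_trans (le_of_eq ?_) h1
    rw [Finset.sum_filter]
    refine Finset.sum_congr rfl fun r _ => ?_
    by_cases h2 : Disjoint (sp r) T₀
    · simp only [if_pos h2]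
      rw [Finset.sum_filter]
    · simp only [if_neg h2, Finset.sum_const_zero]
  have a2 : ∑ r ∈ Tu ι R Y, ∑ r' ∈ Tu ι R Y, |cf al r| * |cf al r'| ≤
      (1 + (Fintype.card ι : ℝ)) ^ (2 * k₀) := by
    have h1 := hSA ι Y k₀ R al (fun ρ hρ => ⟨hR1 ρ hρ, (hal ρ hρ).1⟩) hal1 hsp
    rw [← Finset.sum_mul_sum, two_mul, pow_add]
    exact mul_le_mul h1 h1 (Finset.sum_nonneg fun _ _ => abs_nonneg _) (by positivity)
  have a3 : ∑ r ∈ Tu ι R Y, ∑ r' ∈ Tu ι R Y,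
      (if mm r = mm r' then |cf al r| * |cf al r'| * (mm r : ℝ) else 0) ≤
      (1 + (Fintype.card ι : ℝ)) ^ (k₀ + k₁) := by
    have h1 := hSB ι y Z Y k₀ k₁ R al hadm hal hal1 hsp hpf
    refine le_trans (le_of_eq ?_) h1
    exact Finset.sum_congr rfl fun r _ => (Finset.sum_filter _ _).symm
  have b1 := mul_le_mul_of_nonneg_left a1 (show 0 ≤ (1 / 2 : ℝ) ^ b * V by positivity)
  have b2 := mul_le_mul_of_nonneg_left a2 (show 0 ≤ D * (Y : ℝ) ^ 4 by positivity)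
  have b3 := mul_le_mul_of_nonneg_left a3 (show 0 ≤ V / (y : ℝ) by positivity)
  simp only [Finset.mul_sum] at b2 ⊢ b1 b3
  refine (add_le_add (add_le_add b1 b2) b3).trans (le_of_eq ?_)
  ring

end Pool.Agent.N801.PF
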