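import Pool.Agent.N801.PF.Base

/-! `XB`: the bound for `XX` (helper670). -/

set_option autoImplicit false

open Finset

namespace Pool.Agent.N801.PF

lemma xb_card_mul {a b : ℕ} (h : Squarefree (a * b)) :
    (a * b).primeFactors.card = a.primeFactors.card + b.primeFactors.card := by
  have hc : a.Coprime b := Nat.coprime_of_squarefree_mul h
  rw [hc.primeFactors_mul, Finset.card_union_of_disjoint hc.disjoint_primeFactors]

theorem xb : XB := by
  intro y Z R al hR hal
  set F : Finset ℕ := (range (Z + 1)).filter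
    (fun n => Squarefree n ∧ n.primeFactors ⊆ prs y Z) with hF
  have hF1 : ∀ ρ ∈ F, Squarefree ρ ∧ ρ.primeFactors ⊆ prs y Z := fun ρ h => (mem_filter.1 h).2
  have hdiv : ∀ ρ ∈ R, ∀ d, d ∣ ρ → d ∈ F := by
    intro ρ hρ d hd
    obtain ⟨h1, h2, h3, h4⟩ := hR ρ hρ
    rw [hF, mem_filter, mem_range]
    exact ⟨by have := Nat.le_of_dvd (by omega) hd; omega, h3.squarefree_of_dvd hd,
      (Nat.primeFactors_mono hd (by omega)).trans (hR.primeFactors hρ)⟩
  have e2 : ∑ ρ ∈ F, (2 : ℝ) ^ ρ.primeFactors.card / (ρ : ℝ) ≤ EE y Z 2 := by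
    have := euler_le (prs y Z) F hF1 2 (by norm_num)
    unfold EE
    push_cast
    exact this
  have e4 : ∑ ρ ∈ F, (4 : ℝ) ^ ρ.primeFactors.card / (ρ : ℝ) ≤ EE y Z 4 := by
    have := euler_le (prs y Z) F hF1 4 (by norm_num)
    unfold EE
    push_cast
    exact this
  have f1 : ∑ ρ ∈ R, al ρ * 2 ^ ρ.primeFactors.card ≤ EE y Z 2 := by
    calc ∑ ρ ∈ R, al ρ * 2 ^ ρ.primeFactors.card
        ≤ ∑ ρ ∈ R, (2 : ℝ) ^ ρ.primeFactors.card / (ρ : ℝ) := by
          apply sum_le_sum
          intro ρ hρ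
          have h := (hal ρ hρ).2
          rw [div_eq_mul_one_div, mul_comm]
          gcongr
      _ ≤ ∑ ρ ∈ F, (2 : ℝ) ^ ρ.primeFactors.card / (ρ : ℝ) :=
          sum_le_sum_of_subset_of_nonneg (fun ρ hρ => hdiv ρ hρ ρ dvd_rfl)
            (fun _ _ _ => by positivity)
      _ ≤ _ := e2
  have f2 : ∑ ρ ∈ R, ∑ ρ' ∈ R, al ρ * al ρ' *
      ((2 : ℝ) ^ (ρ.primeFactors.card + ρ'.primeFactors.card) * (Nat.gcd ρ ρ' : ℝ)) ≤
      EE y Z 4 * EE y Z 2 ^ 2 := by
    set T : ℕ × ℕ × ℕ → ℝ := fun x => ((4 : ℝ) ^ x.1.primeFactors.card / (x.1 : ℝ)) *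
      (((2 : ℝ) ^ x.2.1.primeFactors.card / (x.2.1 : ℝ)) *
        ((2 : ℝ) ^ x.2.2.primeFactors.card / (x.2.2 : ℝ))) with hT
    set φ : ℕ × ℕ → ℕ × ℕ × ℕ := fun x =>
      (Nat.gcd x.1 x.2, x.1 / Nat.gcd x.1 x.2, x.2 / Nat.gcd x.1 x.2) with hφ
    have g1 : ∀ x ∈ R ×ˢ R, al x.1 * al x.2 *
        ((2 : ℝ) ^ (x.1.primeFactors.card + x.2.primeFactors.card) * (Nat.gcd x.1 x.2 : ℝ)) ≤
        T (φ x) := by
      rintro ⟨a, b⟩ hx
      rw [mem_product] at hx
      obtain ⟨ha, hb⟩ := hx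
      simp only at ha hb
      obtain ⟨a1, a2, a3, a4⟩ := hR a ha
      obtain ⟨b1, b2, b3, b4⟩ := hR b hb
      obtain ⟨ha0, ha1⟩ := hal a ha
      obtain ⟨hb0, hb1⟩ := hal b hb
      have hg0 : 0 < Nat.gcd a b := Nat.gcd_pos_of_pos_left _ (by omega)
      obtain ⟨s, hs⟩ := Nat.gcd_dvd_left a b
      obtain ⟨t, ht⟩ := Nat.gcd_dvd_right a b
      have hsa : a / Nat.gcd a b = s := Nat.div_eq_of_eq_mul_right hg0 hs
      have hta : b / Nat.gcd a b = t := Nat.div_eq_of_eq_mul_right hg0 ht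
      have hs0 : 0 < s := Nat.pos_of_ne_zero (by rintro rfl; omega)
      have ht0 : 0 < t := Nat.pos_of_ne_zero (by rintro rfl; omega)
      have ca : a.primeFactors.card = (Nat.gcd a b).primeFactors.card + s.primeFactors.card := by
        rw [← xb_card_mul (by rw [← hs]; exact a3), ← hs]
      have cb : b.primeFactors.card = (Nat.gcd a b).primeFactors.card + t.primeFactors.card := by
        rw [← xb_card_mul (by rw [← ht]; exact b3), ← ht]
      simp only [hT, hφ]
      rw [hsa, hta, ca, cb]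
      have hgR : (0 : ℝ) < (Nat.gcd a b : ℝ) := by exact_mod_cast hg0
      have hsR : (0 : ℝ) < (s : ℝ) := by exact_mod_cast hs0
      have htR : (0 : ℝ) < (t : ℝ) := by exact_mod_cast ht0
      have haR : (a : ℝ) = (Nat.gcd a b : ℝ) * s := by exact_mod_cast hs
      have hbR : (b : ℝ) = (Nat.gcd a b : ℝ) * t := by exact_mod_cast ht
      calc al a * al b * ((2 : ℝ) ^ ((Nat.gcd a b).primeFactors.card + s.primeFactors.card +
            ((Nat.gcd a b).primeFactors.card + t.primeFactors.card)) * (Nat.gcd a b : ℝ))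
          ≤ (1 / (a : ℝ)) * (1 / (b : ℝ)) *
            ((2 : ℝ) ^ ((Nat.gcd a b).primeFactors.card + s.primeFactors.card +
            ((Nat.gcd a b).primeFactors.card + t.primeFactors.card)) * (Nat.gcd a b : ℝ)) := by
            gcongr
        _ = _ := by
            rw [haR, hbR]
            have h4 : (4 : ℝ) ^ (Nat.gcd a b).primeFactors.card =
                2 ^ (Nat.gcd a b).primeFactors.card * 2 ^ (Nat.gcd a b).primeFactors.card := by
              rw [← mul_pow]; norm_num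
            rw [h4, pow_add, pow_add, pow_add]
            field_simp
    have hinj : Set.InjOn φ (↑(R ×ˢ R) : Set (ℕ × ℕ)) := by
      rintro ⟨a, b⟩ _ ⟨a', b'⟩ _ h
      simp only [hφ, Prod.mk.injEq] at h
      obtain ⟨h1, h2, h3⟩ := h
      have e1 : a = a' := by
        rw [← Nat.div_mul_cancel (Nat.gcd_dvd_left a b), h2, h1,
          Nat.div_mul_cancel (Nat.gcd_dvd_left a' b')]
      have e2 : b = b' := by
        rw [← Nat.div_mul_cancel (Nat.gcd_dvd_right a b), h3, h1,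
          Nat.div_mul_cancel (Nat.gcd_dvd_right a' b')]
      rw [e1, e2]
    calc ∑ ρ ∈ R, ∑ ρ' ∈ R, al ρ * al ρ' *
          ((2 : ℝ) ^ (ρ.primeFactors.card + ρ'.primeFactors.card) * (Nat.gcd ρ ρ' : ℝ))
        = ∑ x ∈ R ×ˢ R, al x.1 * al x.2 *
          ((2 : ℝ) ^ (x.1.primeFactors.card + x.2.primeFactors.card) *
            (Nat.gcd x.1 x.2 : ℝ)) := by rw [sum_product]
      _ ≤ ∑ x ∈ R ×ˢ R, T (φ x) := sum_le_sum g1
      _ = ∑ z ∈ (R ×ˢ R).image φ, T z := (sum_image hinj).symm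
      _ ≤ ∑ z ∈ F ×ˢ F ×ˢ F, T z := by
          apply sum_le_sum_of_subset_of_nonneg
          · intro z hz
            rw [mem_image] at hz
            obtain ⟨⟨a, b⟩, hx, rfl⟩ := hz
            rw [mem_product] at hx
            simp only [hφ, mem_product]
            exact ⟨hdiv a hx.1 _ (Nat.gcd_dvd_left a b),
              hdiv a hx.1 _ (Nat.div_dvd_of_dvd (Nat.gcd_dvd_left a b)),
              hdiv b hx.2 _ (Nat.div_dvd_of_dvd (Nat.gcd_dvd_right a b))⟩
          · intro z _ _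
            simp only [hT]
            positivity
      _ = (∑ g ∈ F, (4 : ℝ) ^ g.primeFactors.card / (g : ℝ)) *
            ((∑ s ∈ F, (2 : ℝ) ^ s.primeFactors.card / (s : ℝ)) *
              (∑ s ∈ F, (2 : ℝ) ^ s.primeFactors.card / (s : ℝ))) := by
          simp only [hT]
          rw [sum_product, sum_mul]
          apply sum_congr rfl
          intro g _
          simp only
          rw [← mul_sum, sum_product, sum_mul_sum]
      _ ≤ EE y Z 4 * (EE y Z 2 * EE y Z 2) := by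
          have p2 : 0 ≤ ∑ s ∈ F, (2 : ℝ) ^ s.primeFactors.card / (s : ℝ) :=
            sum_nonneg fun _ _ => by positivity
          have p4 : 0 ≤ ∑ s ∈ F, (4 : ℝ) ^ s.primeFactors.card / (s : ℝ) :=
            sum_nonneg fun _ _ => by positivity
          have q2 := p2.trans e2
          have q4 := p4.trans e4
          gcongr
      _ = EE y Z 4 * EE y Z 2 ^ 2 := by ring
  unfold XX
  linarith

end Pool.Agent.N801.PF
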