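import Pool.Agent.N801.PF.Par5
import Pool.Agent.N801.PF.Be
import Pool.Agent.N801.PF.Br
import Pool.Agent.N801.PF.Flt
import Pool.Agent.N801.PF.Loc3
import Pool.Agent.N801.PF.Loc4
import Pool.Agent.N801.PF.Mb
import Pool.Agent.N801.PF.Me1
import Pool.Agent.N801.PF.Me23
import Pool.Agent.N801.PF.Pair
import Pool.Agent.N801.PF.Sasb
import Pool.Agent.N801.PF.Sm
import Pool.Agent.N801.PF.Xb
import Pool.Agent.N769.PF.Pb
import Pool.Agent.N769.PF.Sc
import Pool.Agent.N218.PF.Pjav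
import Pool.Agent.N218.PF.Pu
import Pool.Agent.N34.PF.Pl

/-!
Positive proportion of long prime-free intervals: the final steps (helper801).
-/

set_option autoImplicit false

open Finset

namespace Pool.Agent.N801.PF

/-- every integer of `[n + 1, n + H]` has a prime factor `≤ t` -/
def Covered (H : ℕ) (t : ℝ) (n : ℕ) : Prop :=
  ∀ h ∈ Icc 1 H, ∃ p : ℕ, p.Prime ∧ p ∣ n + h ∧ (p : ℝ) ≤ t

open Classical in
theorem class_thm (A τ : ℝ) (hA : 1 ≤ A) (hτ : 0 < τ) : ∃ c : ℝ, 0 < c ∧ ∃ x₀ : ℕ, ∀ x : ℕ,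
    x₀ ≤ x → ∀ b₀ : ℕ, ((Icc 1 (HH A x)).filter (fun h => (b₀ + h).Coprime (WW x))).card * WW x ≤
      2 * (HH A x * Nat.totient (WW x)) →
    c * ((x : ℝ) / WW x) ≤ (((II x (2 * x) (WW x) b₀).filter
      (fun n => Covered (HH A x) ((x : ℝ) ^ τ) n)).card : ℝ) := by
  obtain ⟨C, hC⟩ := flt
  have hPJ := Pool.Agent.N218.PF.pj_bounds
  have hPU := Pool.Agent.N218.PF.pu
  have hPL : PL := Pool.Agent.N34.PF.pl hPU
  have hSM : SM := sm pair (loc1 crt1) (loc2 crt1) (loc3 crt1) loc4 sa sb Pool.Agent.N769.PF.sc hPJ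
  obtain ⟨k₀, E0, B, hE0, hB, x₀, hbuild⟩ := build hC hPJ xb me1 me2 me3 A τ hA hτ
  have hK5 : 0 < K5 k₀ E0 B := by
    unfold K5
    have : 0 < E0 := by linarith
    positivity
  refine ⟨1 / 100 / K5 k₀ E0 B, by positivity, x₀, fun x hx b₀ hV => ?_⟩
  obtain ⟨V, hVdef⟩ : ∃ V, V = (Icc 1 (HH A x)).filter (fun h => (b₀ + h).Coprime (WW x)) :=
    ⟨_, rfl⟩
  rw [← hVdef] at hV
  obtain ⟨d, dx, dW, dH, dpos, dk, dE, dB, dZ, dJ, dz⟩ := hbuild x hx V
    (by rw [hVdef]; exact Finset.filter_subset _ _) hV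
  have hcore := core_count hSM hPJ hPL hPU be_bound br Pool.Agent.N769.PF.pb (mb hPJ) d b₀
  rw [dx, dW, dk, dE, dB] at hcore
  have h1 : 1 / 100 / K5 k₀ E0 B * ((x : ℝ) / WW x) = 1 / 100 * ((x : ℝ) / WW x) / K5 k₀ E0 B := by
    ring
  rw [h1]
  refine hcore.trans ?_
  have hsub : (II x (2 * x) (WW x) b₀).filter (fun n => NN d.H (2 ^ 2 ^ d.J) d.Z d.pos n = ∅) ⊆
      (II x (2 * x) (WW x) b₀).filter (fun n => Covered (HH A x) ((x : ℝ) ^ τ) n) := by
    intro n hn
    rw [mem_filter] at hn ⊢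
    refine ⟨hn.1, ?_⟩
    have hnN := hn.2
    have hnI := hn.1
    rw [mem_II] at hnI
    intro h hh
    have hZ' : ∀ p : ℕ, p ≤ d.Z → (p : ℝ) ≤ (x : ℝ) ^ τ := fun p hp =>
      le_trans (by exact_mod_cast hp) dZ
    by_cases hcop : (b₀ + h).Coprime (WW x)
    · have hhV : h ∈ V := by rw [hVdef]; exact mem_filter.2 ⟨hh, hcop⟩
      by_cases hact : act d.H (2 ^ 2 ^ d.J) (n + h)
      · have hAA : (⟨h, hhV⟩ : {h // h ∈ V}) ∈ AA d.H (2 ^ 2 ^ d.J) d.pos n := by
          unfold AA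
          rw [mem_filter]
          refine ⟨mem_univ _, ?_⟩
          rw [dpos]
          exact hact
        have hnot : (⟨h, hhV⟩ : {h // h ∈ V}) ∉ NN d.H (2 ^ 2 ^ d.J) d.Z d.pos n := by
          rw [hnN]; exact Finset.notMem_empty _
        unfold NN at hnot
        rw [mem_filter, not_and] at hnot
        have h2 := hnot hAA
        push Not at h2
        obtain ⟨p, hp, hpd⟩ := h2
        rw [dpos] at hpd
        rw [mem_prs] at hp
        exact ⟨p, hp.2, hpd, hZ' p hp.1.2⟩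
      · unfold act at hact
        push Not at hact
        obtain ⟨p, hp, hpd⟩ := hact
        rw [mem_prs] at hp
        exact ⟨p, hp.2, hpd, hZ' p (hp.1.2.trans dJ)⟩
    · obtain ⟨p, hp, h3, h4⟩ := Nat.Prime.not_coprime_iff_dvd.1 hcop
      refine ⟨p, hp, ?_, hZ' p ((hp.dvd_primorial_iff.1 h4).trans dz)⟩
      have h5 : n ≡ b₀ [MOD p] := Nat.ModEq.of_dvd h4 hnI.2
      have h6 : n + h ≡ b₀ + h [MOD p] := h5.add_right h
      exact (Nat.modEq_zero_iff_dvd.1 (h6.trans (Nat.modEq_zero_iff_dvd.2 h3)))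
  exact_mod_cast Finset.card_le_card hsub

/-- at least half of the classes are good -/
lemma half_good (W H : ℕ) (hW : 1 ≤ W) (hH : 1 ≤ H) :
    W ≤ 2 * ((range W).filter (fun b => ((Icc 1 H).filter (fun h => (b + h).Coprime W)).card * W ≤
      2 * (H * Nat.totient W))).card := by
  have hav := Pool.Agent.N218.PF.av W H hW
  have hφ : 0 < Nat.totient W := Nat.totient_pos.2 hW
  have hpos : 0 < H * Nat.totient W := Nat.mul_pos hH hφ
  obtain ⟨G, hG⟩ : ∃ G, G = (range W).filter (fun b =>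
    ((Icc 1 H).filter (fun h => (b + h).Coprime W)).card * W ≤ 2 * (H * Nat.totient W)) := ⟨_, rfl⟩
  obtain ⟨D, hD⟩ : ∃ D, D = (range W).filter (fun b =>
    ¬ ((Icc 1 H).filter (fun h => (b + h).Coprime W)).card * W ≤ 2 * (H * Nat.totient W)) := ⟨_, rfl⟩
  have hsum : G.card + D.card = W := by
    rw [hG, hD, Finset.card_filter_add_card_filter_not, card_range]
  have h1 : D.card * (2 * (H * Nat.totient W)) ≤ W * (H * Nat.totient W) := by
    calc D.card * (2 * (H * Nat.totient W))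
        = ∑ _b ∈ D, 2 * (H * Nat.totient W) := by rw [Finset.sum_const, smul_eq_mul]
      _ ≤ ∑ b ∈ D, W * ((Icc 1 H).filter (fun h => (b + h).Coprime W)).card := by
          apply Finset.sum_le_sum
          intro b hb
          rw [hD, mem_filter, not_le] at hb
          rw [mul_comm W]
          exact hb.2.le
      _ ≤ ∑ b ∈ range W, W * ((Icc 1 H).filter (fun h => (b + h).Coprime W)).card :=
          Finset.sum_le_sum_of_subset (by rw [hD]; exact Finset.filter_subset _ _)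
      _ = W * (H * Nat.totient W) := by rw [← Finset.mul_sum, hav]
  have h2 : 2 * D.card ≤ W := by
    have h3 : (2 * D.card) * (H * Nat.totient W) ≤ W * (H * Nat.totient W) := by
      calc (2 * D.card) * (H * Nat.totient W) = D.card * (2 * (H * Nat.totient W)) := by ring
        _ ≤ W * (H * Nat.totient W) := h1
    exact Nat.le_of_mul_le_mul_right h3 hpos
  rw [← hG]
  omega

open Classical in
/-- **Positive proportion of long intervals without rough integers.** -/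
theorem main (A τ : ℝ) (hA : 1 ≤ A) (hτ : 0 < τ) : ∃ c : ℝ, 0 < c ∧ ∃ x₀ : ℕ, ∀ x : ℕ, x₀ ≤ x →
    c * x ≤ (((Ioc x (2 * x)).filter (fun n => Covered (HH A x) ((x : ℝ) ^ τ) n)).card : ℝ) := by
  obtain ⟨c, hc, x₀, H⟩ := class_thm A τ hA hτ
  obtain ⟨x₁, hx₁⟩ := (ev_log_ge (48 + 1152 * A)).exists_forall_of_atTop
  refine ⟨c / 2, by positivity, max x₀ x₁, fun x hx => ?_⟩
  have hx0 : x₀ ≤ x := (le_max_left _ _).trans hx
  have hxl := hx₁ x ((le_max_right _ _).trans hx)
  obtain ⟨z1, z2, H1, H2, H3, H4, H5, W1, x1⟩ := zHW hA hxl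
  have hWpos : 0 < WW x := primorial_pos _
  have hWr : (0 : ℝ) < WW x := by exact_mod_cast hWpos
  have hHpos : 1 ≤ HH A x := by
    have : (1 : ℝ) ≤ HH A x := by linarith
    exact_mod_cast this
  have hhalf := half_good (WW x) (HH A x) hWpos hHpos
  obtain ⟨G, hG⟩ : ∃ G, G = (range (WW x)).filter (fun b =>
    ((Icc 1 (HH A x)).filter (fun h => (b + h).Coprime (WW x))).card * WW x ≤
      2 * (HH A x * Nat.totient (WW x))) := ⟨_, rfl⟩
  rw [← hG] at hhalf
  have hdisj : (∑ b ∈ G, ((II x (2 * x) (WW x) b).filter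
      (fun n => Covered (HH A x) ((x : ℝ) ^ τ) n)).card) ≤
      ((Ioc x (2 * x)).filter (fun n => Covered (HH A x) ((x : ℝ) ^ τ) n)).card := by
    rw [← Finset.card_biUnion]
    · apply Finset.card_le_card
      intro n hn
      rw [mem_biUnion] at hn
      obtain ⟨b, _, hb⟩ := hn
      rw [mem_filter, mem_II] at hb
      rw [mem_filter, mem_Ioc]
      exact ⟨hb.1.1, hb.2⟩
    · intro b hb b' hb' hne
      rw [mem_coe, hG, mem_filter, mem_range] at hb hb'
      rw [Function.onFun, Finset.disjoint_left]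
      intro n hn hn'
      rw [mem_filter, mem_II] at hn hn'
      apply hne
      have h1 := hn.1.2
      have h2 := hn'.1.2
      rw [Nat.mod_eq_of_lt hb.1] at h1
      rw [Nat.mod_eq_of_lt hb'.1] at h2
      rw [← h1, ← h2]
  have hsum : (G.card : ℝ) * (c * ((x : ℝ) / WW x)) ≤
      ∑ b ∈ G, (((II x (2 * x) (WW x) b).filter
        (fun n => Covered (HH A x) ((x : ℝ) ^ τ) n)).card : ℝ) := by
    rw [← nsmul_eq_mul, ← Finset.sum_const]
    apply Finset.sum_le_sum
    intro b hb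
    rw [hG, mem_filter] at hb
    exact H x hx0 b hb.2
  have hG2 : (WW x : ℝ) / 2 ≤ G.card := by
    have : (WW x : ℝ) ≤ 2 * G.card := by exact_mod_cast hhalf
    linarith
  calc c / 2 * x = (WW x : ℝ) / 2 * (c * ((x : ℝ) / WW x)) := by field_simp
    _ ≤ (G.card : ℝ) * (c * ((x : ℝ) / WW x)) := mul_le_mul_of_nonneg_right hG2 (by positivity)
    _ ≤ ∑ b ∈ G, (((II x (2 * x) (WW x) b).filter
        (fun n => Covered (HH A x) ((x : ℝ) ^ τ) n)).card : ℝ) := hsum
    _ ≤ _ := by exact_mod_cast hdisj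

end Pool.Agent.N801.PF
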