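import Pool.Agent.N801.PF.Base

/-!
Local averages: the diagonal, the off-diagonal, and the absolute values (helper803).
-/

set_option autoImplicit false
set_option linter.unusedSectionVars false

open Finset

namespace Pool.Agent.N801.PF

namespace Loc

variable {ι : Type} [Fintype ι] [DecidableEq ι]

/-- `1 - p` if `p ∣ a + k`, `1` otherwise -/
noncomputable def g (p k a : ℕ) : ℝ := if p ∣ a + k then 1 - (p : ℝ) else 1

/-- the factor at `p` of a tuple -/
noncomputable def hf (pos r : ι → ℕ) (p a : ℕ) : ℝ := ∏ i, (if p ∣ r i then g p (pos i) a else 1)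

lemma g_period (p k a : ℕ) : g p k (a + p) = g p k a := by
  unfold g
  have : p ∣ a + p + k ↔ p ∣ a + k := by
    rw [show a + p + k = (a + k) + p by ring]
    exact (Nat.dvd_add_left (dvd_refl p))
  simp only [this]

omit [DecidableEq ι] in
lemma hf_period (pos r : ι → ℕ) (p a : ℕ) : hf pos r p (a + p) = hf pos r p a := by
  unfold hf
  simp only [g_period]

/-- the facts on a tuple -/
structure Good (y : ℕ) (r : ι → ℕ) : Prop where
  sq : ∀ i, Squarefree (r i)
  cop : ∀ i j, i ≠ j → (r i).Coprime (r j)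
  big : ∀ i, ∀ p ∈ (r i).primeFactors, y < p

lemma good_of_mem {y Z Y : ℕ} {R : Finset ℕ} (hR : Adm y Z R) {r : ι → ℕ} (hr : r ∈ Tu ι R Y) :
    Good y r := by
  rw [mem_Tu] at hr
  obtain ⟨h1, h2, _⟩ := hr
  refine ⟨fun i => ?_, h2, fun i => ?_⟩
  · rcases h1 i with h | h
    · rw [h]; exact squarefree_one
    · exact (hR _ h).2.2.1
  · rcases h1 i with h | h
    · rw [h]; simp
    · exact (hR _ h).2.2.2

variable {y : ℕ} {r r' : ι → ℕ}

omit [DecidableEq ι] in
lemma Good.ne (h : Good y r) (i : ι) : r i ≠ 0 := (h.sq i).ne_zero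

omit [DecidableEq ι] in
lemma Good.mm_ne (h : Good y r) : mm r ≠ 0 := prod_ne_zero_iff.2 fun i _ => h.ne i

lemma sq_prod (s : Finset ι) (h : Good y r) : Squarefree (∏ i ∈ s, r i) := by
  induction s using Finset.induction_on with
  | empty => simp
  | insert i s hi ih =>
    rw [prod_insert hi]
    have hc : Nat.Coprime (r i) (∏ j ∈ s, r j) :=
      Nat.Coprime.prod_right fun j hj => h.cop i j fun hij => hi (hij ▸ hj)
    exact (Nat.squarefree_mul hc).2 ⟨h.sq i, ih⟩

lemma Good.mm_sq (h : Good y r) : Squarefree (mm r) := sq_prod univ h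

omit [DecidableEq ι] in
lemma dvd_mm {p : ℕ} (hp : p.Prime) : p ∣ mm r ↔ ∃ i, p ∣ r i := by
  unfold mm
  rw [Prime.dvd_finsetProd_iff hp.prime]
  simp

omit [Fintype ι] [DecidableEq ι] in
lemma Good.unique (h : Good y r) {p : ℕ} (hp : p.Prime) {i j : ι} (hi : p ∣ r i) (hj : p ∣ r j) :
    i = j := by
  by_contra hne
  have := Nat.dvd_gcd hi hj
  rw [h.cop i j hne] at this
  exact hp.one_lt.ne' (Nat.dvd_one.1 this)

omit [DecidableEq ι] in
lemma prod_none {p : ℕ} (φ : ι → ℝ) (hn : ∀ i, ¬ p ∣ r i) :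
    ∏ i, (if p ∣ r i then φ i else 1) = 1 := by
  apply prod_eq_one
  intro i _
  rw [if_neg (hn i)]

omit [DecidableEq ι] in
lemma prod_one (h : Good y r) {p : ℕ} (hp : p.Prime) (φ : ι → ℝ) {i : ι} (hi : p ∣ r i) :
    ∏ j, (if p ∣ r j then φ j else 1) = φ i := by
  rw [prod_eq_single_of_mem i (mem_univ i), if_pos hi]
  intro j _ hj
  rw [if_neg]
  intro hpj
  exact hj (h.unique hp hpj hi)

/-- a product over the primes of a coordinate -/
lemma prod_coord (Q : Finset ℕ) (hQ : ∀ p ∈ Q, p.Prime) {m : ℕ} (hm : m ≠ 0)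
    (hmQ : m.primeFactors ⊆ Q) (φ : ℕ → ℝ) :
    ∏ p ∈ m.primeFactors, φ p = ∏ p ∈ Q, (if p ∣ m then φ p else 1) := by
  rw [← prod_filter]
  apply prod_congr _ fun _ _ => rfl
  ext p
  rw [mem_filter]
  constructor
  · intro h
    exact ⟨hmQ h, Nat.dvd_of_mem_primeFactors h⟩
  · rintro ⟨h1, h2⟩
    exact Nat.mem_primeFactors.2 ⟨hQ p h1, h2, hm⟩

omit [DecidableEq ι] in
lemma QQ_prime {p : ℕ} (hp : p ∈ QQ r r') : p.Prime := Nat.prime_of_mem_primeFactors hp

omit [DecidableEq ι] in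
lemma sub_left (h : Good y r) (h' : Good y r') (i : ι) : (r i).primeFactors ⊆ QQ r r' := by
  intro p hp
  have hpp := Nat.prime_of_mem_primeFactors hp
  rw [QQ, Nat.mem_primeFactors]
  refine ⟨hpp, ?_, mul_ne_zero h.mm_ne h'.mm_ne⟩
  exact ((dvd_mm hpp).2 ⟨i, Nat.dvd_of_mem_primeFactors hp⟩).mul_right _

omit [DecidableEq ι] in
lemma sub_right (h : Good y r) (h' : Good y r') (i : ι) : (r' i).primeFactors ⊆ QQ r r' := by
  intro p hp
  have hpp := Nat.prime_of_mem_primeFactors hp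
  rw [QQ, Nat.mem_primeFactors]
  refine ⟨hpp, ?_, mul_ne_zero h.mm_ne h'.mm_ne⟩
  exact ((dvd_mm hpp).2 ⟨i, Nat.dvd_of_mem_primeFactors hp⟩).mul_left _

omit [DecidableEq ι] in
lemma mem_QQ (h : Good y r) (h' : Good y r') {p : ℕ} :
    p ∈ QQ r r' ↔ p.Prime ∧ ((∃ i, p ∣ r i) ∨ ∃ i, p ∣ r' i) := by
  rw [QQ, Nat.mem_primeFactors]
  constructor
  · rintro ⟨h1, h2, _⟩
    refine ⟨h1, ?_⟩
    rcases (Nat.Prime.dvd_mul h1).1 h2 with h3 | h3
    · exact Or.inl ((dvd_mm h1).1 h3)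
    · exact Or.inr ((dvd_mm h1).1 h3)
  · rintro ⟨h1, h2⟩
    refine ⟨h1, ?_, mul_ne_zero h.mm_ne h'.mm_ne⟩
    rcases h2 with h3 | h3
    · exact ((dvd_mm h1).2 h3).mul_right _
    · exact ((dvd_mm h1).2 h3).mul_left _

omit [DecidableEq ι] in
lemma QQ_big (h : Good y r) (h' : Good y r') {p : ℕ} (hp : p ∈ QQ r r') : y < p := by
  obtain ⟨h1, h2⟩ := (mem_QQ h h').1 hp
  rcases h2 with ⟨i, hi⟩ | ⟨i, hi⟩
  · exact h.big i p (Nat.mem_primeFactors.2 ⟨h1, hi, h.ne i⟩)
  · exact h'.big i p (Nat.mem_primeFactors.2 ⟨h1, hi, h'.ne i⟩)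

omit [DecidableEq ι] in
lemma prod_ph (Q : Finset ℕ) (hQ : ∀ p ∈ Q, p.Prime) (h : Good y r)
    (hs : ∀ i, (r i).primeFactors ⊆ Q) (pos : ι → ℕ) (a : ℕ) :
    ∏ i, ph (r i) (a + pos i) = ∏ p ∈ Q, hf pos r p a := by
  unfold hf
  rw [prod_comm]
  apply prod_congr rfl
  intro i _
  unfold ph
  rw [prod_coord Q hQ (h.ne i) (hs i) (fun p => if p ∣ a + pos i then 1 - (p : ℝ) else 1)]
  rfl

omit [DecidableEq ι] in
lemma Th_eq (h : Good y r) (h' : Good y r') (pos : ι → ℕ) (a : ℕ) :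
    Th pos r r' a = ∏ p ∈ QQ r r', (hf pos r p a * hf pos r' p a) := by
  unfold Th
  rw [prod_ph (QQ r r') (fun p hp => QQ_prime hp) h (sub_left h h'),
    prod_ph (QQ r r') (fun p hp => QQ_prime hp) h' (sub_right h h'), ← prod_mul_distrib]

/-- the average of `Θ` -/
noncomputable def Ap (pos r r' : ι → ℕ) (p : ℕ) : ℝ :=
  (∑ a ∈ range p, hf pos r p a * hf pos r' p a) / p

/-- the average of `|Θ|` -/
noncomputable def Bp (pos r r' : ι → ℕ) (p : ℕ) : ℝ :=
  (∑ a ∈ range p, |hf pos r p a * hf pos r' p a|) / p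

omit [DecidableEq ι] in
lemma avg_Th (hC : CRT1) (h : Good y r) (h' : Good y r') (pos : ι → ℕ) :
    (∑ a ∈ range (MM r r'), Th pos r r' a) / (MM r r' : ℝ) = ∏ p ∈ QQ r r', Ap pos r r' p := by
  have h1 := hC (QQ r r') (fun p a => hf pos r p a * hf pos r' p a) (fun p hp => QQ_prime hp)
    (fun p _ a => by simp only [hf_period])
  unfold Ap
  rw [prod_div_distrib, ← h1]
  unfold MM
  push_cast
  congr 1
  exact sum_congr rfl fun a _ => Th_eq h h' pos a

omit [DecidableEq ι] in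
lemma avg_abs (hC : CRT1) (h : Good y r) (h' : Good y r') (pos : ι → ℕ) :
    (∑ a ∈ range (MM r r'), |Th pos r r' a|) / (MM r r' : ℝ) = ∏ p ∈ QQ r r', Bp pos r r' p := by
  have h1 := hC (QQ r r') (fun p a => |hf pos r p a * hf pos r' p a|) (fun p hp => QQ_prime hp)
    (fun p _ a => by simp only [hf_period])
  unfold Bp
  rw [prod_div_distrib, ← h1]
  unfold MM
  push_cast
  congr 1
  exact sum_congr rfl fun a _ => by rw [Th_eq h h' pos a, abs_prod]

/-! ### sums over a period -/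

lemma g_eq {p k a : ℕ} (hk : 1 ≤ k) (hkp : k < p) (ha : a ∈ range p) :
    g p k a = if a = p - k then 1 - (p : ℝ) else 1 := by
  rw [mem_range] at ha
  unfold g
  have : p ∣ a + k ↔ a = p - k := by
    constructor
    · rintro ⟨c, hc⟩
      have h1 : c = 1 := by
        rcases Nat.lt_or_ge c 1 with h | h
        · have : c = 0 := by omega
          subst this; omega
        · rcases Nat.lt_or_ge c 2 with h2 | h2
          · omega
          · have : p * 2 ≤ p * c := Nat.mul_le_mul_left p h2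
            omega
      subst h1; omega
    · intro h
      rw [h, Nat.sub_add_cancel hkp.le]
  simp only [this]

lemma sum_one {p a0 : ℕ} (h0 : a0 ∈ range p) (X : ℝ) :
    ∑ a ∈ range p, (if a = a0 then X else 1) = X + ((p : ℝ) - 1) := by
  have : ∀ a ∈ range p, (if a = a0 then X else (1 : ℝ)) = 1 + (if a = a0 then X - 1 else 0) := by
    intro a _
    split_ifs <;> ring
  rw [sum_congr rfl this, sum_add_distrib, sum_ite_eq', if_pos h0, sum_const, card_range,
    nsmul_eq_mul]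
  ring

lemma sum_two {p a0 b0 : ℕ} (h0 : a0 ∈ range p) (h1 : b0 ∈ range p) (hne : a0 ≠ b0) (X : ℝ) :
    ∑ a ∈ range p, ((if a = a0 then X else 1) * (if a = b0 then X else 1)) =
      2 * X + ((p : ℝ) - 2) := by
  have : ∀ a ∈ range p, ((if a = a0 then X else 1) * (if a = b0 then X else (1 : ℝ))) =
      1 + (if a = a0 then X - 1 else 0) + (if a = b0 then X - 1 else 0) := by
    intro a _
    by_cases ha : a = a0
    · have hb : a ≠ b0 := fun hb => hne (ha.symm.trans hb)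
      rw [if_pos ha, if_neg hb, if_pos ha, if_neg hb]; ring
    · rw [if_neg ha, if_neg ha]
      split_ifs <;> ring
  rw [sum_congr rfl this, sum_add_distrib, sum_add_distrib, sum_ite_eq', if_pos h0, sum_ite_eq',
    if_pos h1, sum_const, card_range, nsmul_eq_mul]
  ring

lemma sum_sq {p a0 : ℕ} (h0 : a0 ∈ range p) (X : ℝ) :
    ∑ a ∈ range p, ((if a = a0 then X else 1) * (if a = a0 then X else 1)) =
      X ^ 2 + ((p : ℝ) - 1) := by
  rw [← sum_one h0 (X ^ 2)]
  refine sum_congr rfl fun a _ => ?_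
  split_ifs <;> ring

lemma mem_pk {p k : ℕ} (hk : 1 ≤ k) (hkp : k < p) : p - k ∈ range p := mem_range.2 (by omega)

section cases

variable {H : ℕ} {pos : ι → ℕ} {p : ℕ}

omit [DecidableEq ι] in
lemma pos_lt (hpos : Pos H pos) (hH : H < p) (i : ι) : 1 ≤ pos i ∧ pos i < p :=
  ⟨(hpos.2 i).1, lt_of_le_of_lt (hpos.2 i).2 hH⟩

omit [DecidableEq ι] in
/-- `p` divides only a coordinate of the first tuple -/
lemma A_left (hpos : Pos H pos) (hH : H < p) (hp : p.Prime) (h : Good y r) {i : ι} (hi : p ∣ r i)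
    (hn : ∀ j, ¬ p ∣ r' j) : Ap pos r r' p = 0 ∧ Bp pos r r' p ≤ 2 := by
  have hp0 : (0 : ℝ) < p := by exact_mod_cast hp.pos
  have hp1 : (1 : ℝ) ≤ p := by exact_mod_cast hp.one_lt.le
  obtain ⟨h1, h2⟩ := pos_lt hpos hH i
  have e : ∀ a ∈ range p, hf pos r p a * hf pos r' p a =
      if a = p - pos i then 1 - (p : ℝ) else 1 := by
    intro a ha
    unfold hf
    rw [prod_one h hp (fun i => g p (pos i) a) hi, prod_none _ hn, mul_one, g_eq h1 h2 ha]
  have e' : ∀ a ∈ range p, |hf pos r p a * hf pos r' p a| =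
      if a = p - pos i then (p : ℝ) - 1 else 1 := by
    intro a ha
    rw [e a ha]
    split_ifs
    · rw [abs_sub_comm, abs_of_nonneg (by linarith)]
    · exact abs_one
  constructor
  · unfold Ap
    rw [sum_congr rfl e, sum_one (mem_pk h1 h2)]
    ring
  · unfold Bp
    rw [sum_congr rfl e', sum_one (mem_pk h1 h2), div_le_iff₀ hp0]
    linarith

omit [DecidableEq ι] in
lemma Ap_comm (pos r r' : ι → ℕ) (p : ℕ) : Ap pos r r' p = Ap pos r' r p := by
  unfold Ap
  simp only [mul_comm]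

omit [DecidableEq ι] in
lemma Bp_comm (pos r r' : ι → ℕ) (p : ℕ) : Bp pos r r' p = Bp pos r' r p := by
  unfold Bp
  simp only [mul_comm]

omit [DecidableEq ι] in
/-- `p` divides the same coordinate of both -/
lemma A_same (hpos : Pos H pos) (hH : H < p) (hp : p.Prime) (h : Good y r) (h' : Good y r')
    {i : ι} (hi : p ∣ r i) (hi' : p ∣ r' i) :
    Ap pos r r' p = (p : ℝ) - 1 ∧ Bp pos r r' p ≤ 4 * p := by
  have hp0 : (0 : ℝ) < p := by exact_mod_cast hp.pos
  have hp1 : (1 : ℝ) ≤ p := by exact_mod_cast hp.one_lt.le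
  obtain ⟨h1, h2⟩ := pos_lt hpos hH i
  have e : ∀ a ∈ range p, hf pos r p a * hf pos r' p a =
      (if a = p - pos i then 1 - (p : ℝ) else 1) * (if a = p - pos i then 1 - (p : ℝ) else 1) := by
    intro a ha
    unfold hf
    rw [prod_one h hp (fun i => g p (pos i) a) hi, prod_one h' hp (fun i => g p (pos i) a) hi',
      g_eq h1 h2 ha]
  have e' : ∀ a ∈ range p, |hf pos r p a * hf pos r' p a| =
      hf pos r p a * hf pos r' p a := by
    intro a ha
    rw [e a ha]
    exact abs_of_nonneg (mul_self_nonneg _)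
  have hs : ∑ a ∈ range p, hf pos r p a * hf pos r' p a = (p : ℝ) * (p - 1) := by
    rw [sum_congr rfl e, sum_sq (mem_pk h1 h2)]
    ring
  constructor
  · unfold Ap
    rw [hs]
    field_simp
  · unfold Bp
    rw [sum_congr rfl e', hs, div_le_iff₀ hp0]
    nlinarith

omit [DecidableEq ι] in
/-- `p` divides different coordinates -/
lemma A_diff (hpos : Pos H pos) (hH : H < p) (hp : p.Prime) (h : Good y r) (h' : Good y r')
    {i j : ι} (hi : p ∣ r i) (hj : p ∣ r' j) (hij : i ≠ j) :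
    Ap pos r r' p = -1 ∧ Bp pos r r' p ≤ 4 := by
  have hp0 : (0 : ℝ) < p := by exact_mod_cast hp.pos
  have hp1 : (1 : ℝ) ≤ p := by exact_mod_cast hp.one_lt.le
  obtain ⟨h1, h2⟩ := pos_lt hpos hH i
  obtain ⟨h3, h4⟩ := pos_lt hpos hH j
  have hne : p - pos i ≠ p - pos j := by
    intro he
    apply hij
    apply hpos.1
    omega
  have e : ∀ a ∈ range p, hf pos r p a * hf pos r' p a =
      (if a = p - pos i then 1 - (p : ℝ) else 1) * (if a = p - pos j then 1 - (p : ℝ) else 1) := by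
    intro a ha
    unfold hf
    rw [prod_one h hp (fun i => g p (pos i) a) hi, prod_one h' hp (fun i => g p (pos i) a) hj,
      g_eq h1 h2 ha, g_eq h3 h4 ha]
  have e' : ∀ a ∈ range p, |hf pos r p a * hf pos r' p a| =
      (if a = p - pos i then (p : ℝ) - 1 else 1) * (if a = p - pos j then (p : ℝ) - 1 else 1) := by
    intro a ha
    rw [e a ha, abs_mul]
    congr 1
    · split_ifs
      · rw [abs_sub_comm, abs_of_nonneg (by linarith)]
      · exact abs_one
    · split_ifs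
      · rw [abs_sub_comm, abs_of_nonneg (by linarith)]
      · exact abs_one
  constructor
  · unfold Ap
    rw [sum_congr rfl e, sum_two (mem_pk h1 h2) (mem_pk h3 h4) hne]
    field_simp
    ring
  · unfold Bp
    rw [sum_congr rfl e', sum_two (mem_pk h1 h2) (mem_pk h3 h4) hne, div_le_iff₀ hp0]
    linarith

end cases

lemma totient_sq {n : ℕ} (hn : Squarefree n) :
    (Nat.totient n : ℝ) = ∏ p ∈ n.primeFactors, ((p : ℝ) - 1) := by
  have h1 := Nat.totient_mul_prod_primeFactors n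
  rw [Nat.prod_primeFactors_of_squarefree hn, mul_comm] at h1
  have h2 := Nat.eq_of_mul_eq_mul_left (Nat.pos_of_ne_zero hn.ne_zero) h1
  rw [h2, Nat.cast_prod]
  refine prod_congr rfl fun p hp => ?_
  rw [Nat.cast_sub (Nat.prime_of_mem_primeFactors hp).one_lt.le, Nat.cast_one]

end Loc

open Loc

theorem loc1 (hC : CRT1) : LOC1 := by
  intro ι _ _ pos H y Z Y R hpos hHy hR r hr
  have h := good_of_mem hR hr
  rw [avg_Th hC h h, totient_sq h.mm_sq]
  have hQ : QQ r r = (mm r).primeFactors := by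
    unfold QQ
    rw [← sq, Nat.primeFactors_pow _ two_ne_zero]
  rw [hQ]
  refine prod_congr rfl fun p hp => ?_
  rw [← hQ] at hp
  have hpp := QQ_prime hp
  have hb := QQ_big h h hp
  obtain ⟨_, h2⟩ := (mem_QQ h h).1 hp
  obtain ⟨i, hi⟩ : ∃ i, p ∣ r i := by rcases h2 with h2 | h2 <;> exact h2
  exact (A_same hpos (by omega) hpp h h hi hi).1

theorem loc2 (hC : CRT1) : LOC2 := by
  intro ι _ _ pos H y Z Y R hpos hHy hy hR r hr r' hr' hne
  have h := good_of_mem hR hr
  have h' := good_of_mem hR hr'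
  rw [avg_Th hC h h', abs_prod]
  by_cases hm : mm r = mm r'
  · rw [if_pos hm]
    -- a prime in the third case
    obtain ⟨p0, hp0, i, j, hi, hj, hij⟩ : ∃ p0 ∈ QQ r r', ∃ i j, p0 ∣ r i ∧ p0 ∣ r' j ∧ i ≠ j := by
      obtain ⟨i, hi⟩ : ∃ i, r i ≠ r' i := by
        by_contra hc
        push Not at hc
        exact hne (funext hc)
      have hpf : (r i).primeFactors ≠ (r' i).primeFactors := by
        intro he
        apply hi
        rw [← Nat.prod_primeFactors_of_squarefree (h.sq i),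
          ← Nat.prod_primeFactors_of_squarefree (h'.sq i), he]
      have : ∃ p : ℕ, p.Prime ∧ ((p ∣ r i ∧ ¬ p ∣ r' i) ∨ (p ∣ r' i ∧ ¬ p ∣ r i)) := by
        by_contra hc
        push Not at hc
        apply hpf
        ext p
        rw [Nat.mem_primeFactors, Nat.mem_primeFactors]
        constructor
        · rintro ⟨h1, h2, _⟩
          exact ⟨h1, (hc p h1).1 h2, h'.ne i⟩
        · rintro ⟨h1, h2, _⟩
          exact ⟨h1, (hc p h1).2 h2, h.ne i⟩
      obtain ⟨p, hp, hcase⟩ := this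
      rcases hcase with ⟨h1, h2⟩ | ⟨h1, h2⟩
      · have h3 : p ∣ mm r' := by rw [← hm]; exact (dvd_mm hp).2 ⟨i, h1⟩
        obtain ⟨j, hj⟩ := (dvd_mm hp).1 h3
        exact ⟨p, (mem_QQ h h').2 ⟨hp, Or.inl ⟨i, h1⟩⟩, i, j, h1, hj, fun he => h2 (he ▸ hj)⟩
      · have h3 : p ∣ mm r := by rw [hm]; exact (dvd_mm hp).2 ⟨i, h1⟩
        obtain ⟨j, hj⟩ := (dvd_mm hp).1 h3
        exact ⟨p, (mem_QQ h h').2 ⟨hp, Or.inr ⟨i, h1⟩⟩, j, i, hj, h1, fun he => h2 (he ▸ hj)⟩
    have hQ : QQ r r' = (mm r).primeFactors := by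
      unfold QQ
      rw [← hm, ← sq, Nat.primeFactors_pow _ two_ne_zero]
    have hb0 := QQ_big h h' hp0
    have hA0 : |Ap pos r r' p0| = 1 := by
      rw [(A_diff hpos (by omega) (QQ_prime hp0) h h' hi hj hij).1]; norm_num
    have hAle : ∀ p ∈ QQ r r', |Ap pos r r' p| ≤ p := by
      intro p hp
      have hpp := QQ_prime hp
      have hb := QQ_big h h' hp
      have hp1 : (1 : ℝ) ≤ p := by exact_mod_cast hpp.one_lt.le
      have hd : p ∣ mm r := by
        rw [hQ] at hp; exact Nat.dvd_of_mem_primeFactors hp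
      obtain ⟨k, hk⟩ := (dvd_mm hpp).1 hd
      obtain ⟨l, hl⟩ := (dvd_mm hpp).1 (hm ▸ hd)
      by_cases hkl : k = l
      · subst hkl
        rw [(A_same hpos (by omega) hpp h h' hk hl).1, abs_of_nonneg (by linarith)]
        linarith
      · rw [(A_diff hpos (by omega) hpp h h' hk hl hkl).1]
        norm_num
        exact_mod_cast hpp.one_lt.le
    rw [← mul_prod_erase _ _ hp0, hA0, one_mul]
    have h1 : ∏ p ∈ (QQ r r').erase p0, |Ap pos r r' p| ≤ ∏ p ∈ (QQ r r').erase p0, (p : ℝ) :=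
      prod_le_prod (fun _ _ => abs_nonneg _) fun p hp => hAle p (mem_of_mem_erase hp)
    refine h1.trans ?_
    have hy0 : (0 : ℝ) < y := by exact_mod_cast hy
    rw [le_div_iff₀ hy0]
    have h2 : (mm r : ℝ) = (p0 : ℝ) * ∏ p ∈ (QQ r r').erase p0, (p : ℝ) := by
      rw [mul_prod_erase _ (fun p : ℕ => (p : ℝ)) hp0, hQ, ← Nat.cast_prod,
        Nat.prod_primeFactors_of_squarefree h.mm_sq]
    rw [h2, mul_comm]
    refine mul_le_mul_of_nonneg_right ?_ (prod_nonneg fun p _ => Nat.cast_nonneg p)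
    exact_mod_cast hb0.le
  · rw [if_neg hm]
    have hpf : (mm r).primeFactors ≠ (mm r').primeFactors := by
      intro he
      apply hm
      rw [← Nat.prod_primeFactors_of_squarefree h.mm_sq,
        ← Nat.prod_primeFactors_of_squarefree h'.mm_sq, he]
    have : ∃ p : ℕ, p.Prime ∧ ((p ∣ mm r ∧ ¬ p ∣ mm r') ∨ (p ∣ mm r' ∧ ¬ p ∣ mm r)) := by
      by_contra hc
      push Not at hc
      apply hpf
      ext p
      rw [Nat.mem_primeFactors, Nat.mem_primeFactors]
      constructor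
      · rintro ⟨h1, h2, _⟩
        exact ⟨h1, (hc p h1).1 h2, h'.mm_ne⟩
      · rintro ⟨h1, h2, _⟩
        exact ⟨h1, (hc p h1).2 h2, h.mm_ne⟩
    obtain ⟨p, hp, hcase⟩ := this
    apply le_of_eq
    rcases hcase with ⟨h1, h2⟩ | ⟨h1, h2⟩
    · obtain ⟨i, hi⟩ := (dvd_mm hp).1 h1
      have hmem : p ∈ QQ r r' := (mem_QQ h h').2 ⟨hp, Or.inl ⟨i, hi⟩⟩
      refine prod_eq_zero hmem ?_
      have hb := QQ_big h h' hmem
      rw [(A_left hpos (by omega) hp h hi fun j hj => h2 ((dvd_mm hp).2 ⟨j, hj⟩)).1, abs_zero]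
    · obtain ⟨i, hi⟩ := (dvd_mm hp).1 h1
      have hmem : p ∈ QQ r r' := (mem_QQ h h').2 ⟨hp, Or.inr ⟨i, hi⟩⟩
      refine prod_eq_zero hmem ?_
      have hb := QQ_big h h' hmem
      rw [Ap_comm, (A_left hpos (by omega) hp h' hi fun j hj => h2 ((dvd_mm hp).2 ⟨j, hj⟩)).1,
        abs_zero]

end Pool.Agent.N801.PF
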