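import Mathlib

/-!
Choice of the constants (helper801).
-/

set_option autoImplicit false

open Filter Topology

namespace Pool.Agent.N801.PF

/-- polynomials against powers of two -/
lemma poly_le_two_pow (c : ℝ) (k : ℕ) : ∀ᶠ N : ℕ in atTop, 1 + c * (N : ℝ) ^ k ≤ 2 ^ N := by
  have h1 : (fun n : ℕ => (n : ℝ) ^ k) =o[atTop] (fun n : ℕ => (2 : ℝ) ^ n) :=
    isLittleO_pow_const_const_pow_of_one_lt k (by norm_num)
  have h2 : (fun n : ℕ => 1 + c * (n : ℝ) ^ k) =o[atTop] (fun n : ℕ => (2 : ℝ) ^ n) := by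
    apply Asymptotics.IsLittleO.add
    · rw [Asymptotics.isLittleO_one_left_iff]
      have : Tendsto (fun n : ℕ => (2 : ℝ) ^ n) atTop atTop :=
        tendsto_pow_atTop_atTop_of_one_lt (by norm_num)
      exact tendsto_norm_atTop_atTop.comp this
    · exact h1.const_mul_left c
  have h3 := h2.bound (c := 1) one_pos
  filter_upwards [h3] with N hN
  rw [one_mul] at hN
  have h4 : ‖(2 : ℝ) ^ N‖ = 2 ^ N := by rw [Real.norm_eq_abs, abs_of_pos (by positivity)]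
  rw [h4] at hN
  exact (le_abs_self _).trans hN

/-- polynomials against exponentials -/
lemma poly_mul_exp (c : ℝ) : ∀ᶠ N : ℕ in atTop,
    c * (N : ℝ) ^ 2 * Real.exp (1 - 3 * (N : ℝ) / 4) ≤ 1 / 100 := by
  have h1 : Tendsto (fun N : ℕ => c * Real.exp 1 * ((N : ℝ) ^ 2 * Real.exp (-(3 / 4) * (N : ℝ))))
      atTop (𝓝 (c * Real.exp 1 * 0)) := by
    apply Tendsto.const_mul
    have h2 : Tendsto (fun x : ℝ => x ^ 2 * Real.exp (-(3 / 4) * x)) atTop (𝓝 0) := by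
      have h3 := (Real.tendsto_pow_mul_exp_neg_atTop_nhds_zero 2).comp
        (tendsto_id.const_mul_atTop (show (0 : ℝ) < 3 / 4 by norm_num))
      have h4 := h3.const_mul ((4 / 3 : ℝ) ^ 2)
      rw [mul_zero] at h4
      refine h4.congr (fun x => ?_)
      simp only [Function.comp_apply, id]
      rw [mul_pow]
      ring_nf
    exact h2.comp tendsto_natCast_atTop_atTop
  rw [mul_zero] at h1
  filter_upwards [h1.eventually (gt_mem_nhds (show (0 : ℝ) < 1 / 100 by norm_num))] with N hN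
  have e1 : Real.exp (1 - 3 * (N : ℝ) / 4) = Real.exp 1 * Real.exp (-(3 / 4) * (N : ℝ)) := by
    rw [← Real.exp_add]; ring_nf
  rw [e1]
  calc c * (N : ℝ) ^ 2 * (Real.exp 1 * Real.exp (-(3 / 4) * (N : ℝ)))
      = c * Real.exp 1 * ((N : ℝ) ^ 2 * Real.exp (-(3 / 4) * (N : ℝ))) := by ring
    _ ≤ 1 / 100 := hN.le

/-- choice of `N` -/
lemma choose_N (Γ C₃ τ : ℝ) (C K : ℕ) (hΓ : 0 < Γ) (hC₃ : 1 ≤ C₃) (hτ : 0 < τ) (hC : 1 ≤ C)
    (hK : 1 ≤ K) : ∃ N : ℕ, 7 ≤ N ∧ 1 / (8 * (N : ℝ)) ≤ τ ∧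
      (32 * (C : ℝ) * ((8 * C * (K * N) ^ 2 : ℕ) : ℝ) * Γ) * Real.exp (1 - 3 * (N : ℝ) / 4) ≤ 1 / 100 ∧
      (1 / 2 : ℝ) ^ (8 * C * (K * N) ^ 2) *
        ((1 + 32 * (C : ℝ) * ((8 * C * (K * N) ^ 2 : ℕ) : ℝ) * Γ) *
          (1 + 32 * (C : ℝ) * ((8 * C * (K * N) ^ 2 : ℕ) : ℝ) * Γ *
            (3 * (4 * C₃ * C * ((8 * C * (K * N) ^ 2 : ℕ) : ℝ)) ^ 8)) ^ (2 * (K * N))) ≤ 1 / 100 := by
  have hC' : (1 : ℝ) ≤ C := by exact_mod_cast hC
  have hK' : (1 : ℝ) ≤ K := by exact_mod_cast hK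
  have hτN : ∀ᶠ N : ℕ in atTop, 1 / (8 * (N : ℝ)) ≤ τ := by
    filter_upwards [eventually_ge_atTop ⌈1 / (8 * τ)⌉₊, eventually_ge_atTop 1] with N hN hN1
    have h1 : 1 / (8 * τ) ≤ N := (Nat.le_ceil _).trans (by exact_mod_cast hN)
    have hN1' : (1 : ℝ) ≤ N := by exact_mod_cast hN1
    rw [div_le_iff₀ (by positivity)] at h1 ⊢
    linarith
  obtain ⟨N, h1, h2, h3, h4⟩ := ((eventually_ge_atTop 7).and (hτN.and
    ((poly_mul_exp (32 * (C : ℝ) * (8 * C * K ^ 2) * Γ)).and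
      (poly_le_two_pow (32 * (C : ℝ) * (8 * C * K ^ 2) * Γ *
        (3 * (4 * C₃ * C * (8 * C * K ^ 2)) ^ 8)) 18)))).exists
  refine ⟨N, h1, h2, ?_, ?_⟩
  · refine le_trans (le_of_eq ?_) h3
    push_cast
    ring
  · have hN' : (7 : ℝ) ≤ N := by exact_mod_cast h1
    obtain ⟨Q, hQ⟩ : ∃ Q, Q = 1 + 32 * (C : ℝ) * ((8 * C * (K * N) ^ 2 : ℕ) : ℝ) * Γ *
            (3 * (4 * C₃ * C * ((8 * C * (K * N) ^ 2 : ℕ) : ℝ)) ^ 8) := ⟨_, rfl⟩
    have hQ1 : Q ≤ 2 ^ N := by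
      rw [hQ]
      refine le_trans (le_of_eq ?_) h4
      push_cast
      ring
    have hX1 : 1 ≤ 3 * (4 * C₃ * C * ((8 * C * (K * N) ^ 2 : ℕ) : ℝ)) ^ 8 := by
      have h5 : (1 : ℝ) ≤ ((8 * C * (K * N) ^ 2 : ℕ) : ℝ) := by
        have : 1 ≤ 8 * C * (K * N) ^ 2 := Nat.succ_le_iff.2 (by positivity)
        exact_mod_cast this
      have h6 : (1 : ℝ) ≤ 4 * C₃ * C * ((8 * C * (K * N) ^ 2 : ℕ) : ℝ) := by
        have h7 : (1 : ℝ) ≤ 4 * C₃ := by linarith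
        have h8 : (1 : ℝ) ≤ 4 * C₃ * C := by nlinarith
        nlinarith
      have := one_le_pow₀ h6 (n := 8)
      linarith
    have hB0 : 0 ≤ 32 * (C : ℝ) * ((8 * C * (K * N) ^ 2 : ℕ) : ℝ) * Γ := by positivity
    have hBQ : 1 + 32 * (C : ℝ) * ((8 * C * (K * N) ^ 2 : ℕ) : ℝ) * Γ ≤ Q := by
      rw [hQ]
      have := le_mul_of_one_le_right hB0 hX1
      linarith
    rw [← hQ]
    have hQ0 : 0 ≤ Q := le_trans (by positivity) hBQ
    have h9 : (1 + 32 * (C : ℝ) * ((8 * C * (K * N) ^ 2 : ℕ) : ℝ) * Γ) * Q ^ (2 * (K * N)) ≤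
        (2 : ℝ) ^ (N + N * (2 * (K * N))) := by
      rw [pow_add, pow_mul (2 : ℝ) N (2 * (K * N))]
      exact mul_le_mul (hBQ.trans hQ1) (pow_le_pow_left₀ hQ0 hQ1 _) (by positivity) (by positivity)
    calc (1 / 2 : ℝ) ^ (8 * C * (K * N) ^ 2) *
        ((1 + 32 * (C : ℝ) * ((8 * C * (K * N) ^ 2 : ℕ) : ℝ) * Γ) * Q ^ (2 * (K * N)))
        ≤ (1 / 2 : ℝ) ^ (8 * C * (K * N) ^ 2) * (2 : ℝ) ^ (N + N * (2 * (K * N))) :=
          mul_le_mul_of_nonneg_left h9 (by positivity)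
      _ ≤ (1 / 2 : ℝ) ^ (N + N * (2 * (K * N)) + 7) * (2 : ℝ) ^ (N + N * (2 * (K * N))) := by
          apply mul_le_mul_of_nonneg_right _ (by positivity)
          apply pow_le_pow_of_le_one (by norm_num) (by norm_num)
          have h10 : K * N ^ 2 ≤ C * (K * N) ^ 2 := by
            calc K * N ^ 2 ≤ K ^ 2 * N ^ 2 := by
                  apply Nat.mul_le_mul_right
                  rw [sq]
                  exact Nat.le_mul_of_pos_left _ hK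
              _ = (K * N) ^ 2 := by ring
              _ ≤ C * (K * N) ^ 2 := Nat.le_mul_of_pos_left _ hC
          have h11 : N ≤ K * N ^ 2 := by
            calc N ≤ N ^ 2 := by nlinarith
              _ ≤ K * N ^ 2 := Nat.le_mul_of_pos_left _ hK
          have h12 : N * (2 * (K * N)) = 2 * (K * N ^ 2) := by ring
          have h13 : 8 * C * (K * N) ^ 2 = 8 * (C * (K * N) ^ 2) := by ring
          omega
      _ = (1 / 2 : ℝ) ^ 7 := by
          rw [pow_add, mul_assoc, mul_comm ((1 / 2 : ℝ) ^ 7), ← mul_assoc, ← mul_pow]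
          norm_num
      _ ≤ 1 / 100 := by norm_num

end Pool.Agent.N801.PF
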