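import Pool.Agent.N801.PF.Core1

/-!
Lemmas on the parameters (helper801).
-/

set_option autoImplicit false

open Finset

namespace Pool.Agent.N801.PF

lemma exists_J (e x : ℕ) (he : 1 ≤ e) (hx : 2 ^ e ≤ x) :
    ∃ J : ℕ, (2 ^ 2 ^ J) ^ e ≤ x ∧ x < (2 ^ 2 ^ J) ^ (2 * e) := by
  have hx0 : x ≠ 0 := by
    have : 0 < 2 ^ e := by positivity
    omega
  obtain ⟨l, hl⟩ : ∃ l, l = Nat.log 2 x := ⟨_, rfl⟩
  have hl1 : 2 ^ l ≤ x := by rw [hl]; exact Nat.pow_log_le_self 2 hx0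
  have hl2 : x < 2 ^ (l + 1) := by rw [hl]; exact Nat.lt_pow_succ_log_self (by norm_num) x
  have hel : e ≤ l := by
    by_contra h
    have : 2 ^ (l + 1) ≤ 2 ^ e := Nat.pow_le_pow_right (by norm_num) (by omega)
    omega
  have hq : l / e ≠ 0 := by
    have := Nat.div_pos hel he
    omega
  refine ⟨Nat.log 2 (l / e), ?_, ?_⟩
  · have h1 : 2 ^ (Nat.log 2 (l / e)) ≤ l / e := Nat.pow_log_le_self 2 hq
    rw [← pow_mul]
    refine le_trans (Nat.pow_le_pow_right (by norm_num) ?_) hl1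
    calc 2 ^ (Nat.log 2 (l / e)) * e ≤ l / e * e := Nat.mul_le_mul_right _ h1
      _ ≤ l := Nat.div_mul_le_self l e
  · have h1 : l / e < 2 ^ (Nat.log 2 (l / e) + 1) := Nat.lt_pow_succ_log_self (by norm_num) _
    rw [← pow_mul]
    refine lt_of_lt_of_le hl2 (Nat.pow_le_pow_right (by norm_num) ?_)
    have h2 : l < 2 ^ (Nat.log 2 (l / e) + 1) * e := by
      rwa [Nat.div_lt_iff_lt_mul he] at h1
    have h3 : 2 ^ (Nat.log 2 (l / e) + 1) * e = 2 ^ Nat.log 2 (l / e) * (2 * e) := by ring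
    omega

lemma exists_Z0 (e x : ℕ) (he : 1 ≤ e) : ∃ Z0 : ℕ, Z0 ^ e ≤ x ∧ x < (Z0 + 1) ^ e := by
  classical
  have hex : ∃ t, x < (t + 1) ^ e := ⟨x, lt_of_lt_of_le (Nat.lt_succ_self x)
    (Nat.le_self_pow (by omega) _)⟩
  refine ⟨Nat.find hex, ?_, Nat.find_spec hex⟩
  rcases Nat.eq_zero_or_pos (Nat.find hex) with h | h
  · rw [h, zero_pow (by omega)]; exact Nat.zero_le _
  · have := Nat.find_min hex (Nat.sub_one_lt (by omega : Nat.find hex ≠ 0))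
    rw [not_lt, Nat.sub_add_cancel h] at this
    exact this

/-- the normalised weights -/
noncomputable def alf (S1 : ℝ) (ρ : ℕ) : ℝ := 1 / ((ρ : ℝ) * Real.log ρ * S1)

noncomputable def SS (y Z0 Z : ℕ) : ℝ := ∑ ρ ∈ RR y Z0 Z, 1 / ((ρ : ℝ) * Real.log ρ)

lemma RR_adm {y Z0 Z : ℕ} (hy : 2 ≤ y) (hyZ : y ≤ Z0) : Adm y Z (RR y Z0 Z) := by
  intro ρ hρ
  rw [mem_RR] at hρ
  exact ⟨by omega, hρ.1.2, hρ.2.1, hρ.2.2⟩

lemma alf_bounds {y Z0 Z : ℕ} (hy : 2 ≤ y) (hyZ : y ≤ Z0) (hS : 1 / Real.log y ≤ SS y Z0 Z) :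
    ∀ ρ ∈ RR y Z0 Z, 0 ≤ alf (SS y Z0 Z) ρ ∧ alf (SS y Z0 Z) ρ ≤ 1 / (ρ : ℝ) := by
  intro ρ hρ
  rw [mem_RR] at hρ
  have hy' : (2 : ℝ) ≤ y := by exact_mod_cast hy
  have hly : 0 < Real.log y := Real.log_pos (by linarith)
  have hSpos : 0 < SS y Z0 Z := lt_of_lt_of_le (by positivity) hS
  have hρy : (y : ℝ) ≤ ρ := by exact_mod_cast (by omega : y ≤ ρ)
  have hρ0 : (0 : ℝ) < ρ := by linarith
  have hlρ : Real.log y ≤ Real.log ρ := Real.log_le_log (by linarith) hρy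
  have hlρ0 : 0 < Real.log ρ := by linarith
  unfold alf
  refine ⟨by positivity, ?_⟩
  apply one_div_le_one_div_of_le hρ0
  rw [mul_assoc]
  apply le_mul_of_one_le_right hρ0.le
  rw [div_le_iff₀ hly] at hS
  calc (1 : ℝ) ≤ SS y Z0 Z * Real.log y := hS
    _ ≤ SS y Z0 Z * Real.log ρ := mul_le_mul_of_nonneg_left hlρ hSpos.le
    _ = Real.log ρ * SS y Z0 Z := mul_comm _ _

lemma alf_sum {y Z0 Z : ℕ} (hS : 0 < SS y Z0 Z) :
    ∑ ρ ∈ RR y Z0 Z, alf (SS y Z0 Z) ρ = 1 := by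
  have h1 : ∀ ρ ∈ RR y Z0 Z, alf (SS y Z0 Z) ρ = 1 / ((ρ : ℝ) * Real.log ρ) * (1 / SS y Z0 Z) := by
    intro ρ _
    unfold alf
    rw [one_div_mul_one_div]
  rw [Finset.sum_congr rfl h1, ← Finset.sum_mul]
  change SS y Z0 Z * (1 / SS y Z0 Z) = 1
  rw [mul_one_div_cancel hS.ne']

/-- the sum of the weights `P al² ρ` is at most `P` -/
lemma omg_sum_le {P : ℝ} (hP : 0 ≤ P) {R : Finset ℕ} {al : ℕ → ℝ}
    (hal : ∀ ρ ∈ R, 0 ≤ al ρ ∧ al ρ ≤ 1 / (ρ : ℝ)) (hsum : ∑ ρ ∈ R, al ρ = 1)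
    (hR : ∀ ρ ∈ R, 1 < ρ) : ∑ ρ ∈ R, omg P al ρ ≤ P := by
  calc ∑ ρ ∈ R, omg P al ρ ≤ ∑ ρ ∈ R, P * al ρ := by
        apply Finset.sum_le_sum
        intro ρ hρ
        obtain ⟨h1, h2⟩ := hal ρ hρ
        have hρ0 : (0 : ℝ) < ρ := by have := hR ρ hρ; exact_mod_cast (by omega : 0 < ρ)
        unfold omg
        have h3 : al ρ * ρ ≤ 1 := by
          rwa [le_div_iff₀ hρ0] at h2
        calc P * al ρ ^ 2 * ρ = P * al ρ * (al ρ * ρ) := by ring
          _ ≤ P * al ρ * 1 := mul_le_mul_of_nonneg_left h3 (by positivity)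
          _ = P * al ρ := mul_one _
    _ = P := by rw [← Finset.mul_sum, hsum, mul_one]

/-- comparison of the twisted sum -/
lemma omg_twist {P : ℝ} (hP : 0 ≤ P) {y Z0 Z : ℕ} (hy : 2 ≤ y) (hyZ : y ≤ Z0)
    (hS : 0 < SS y Z0 Z) (hZ : 1 < Z) :
    ∑ ρ ∈ RR y Z0 Z, omg P (alf (SS y Z0 Z)) ρ * (ρ : ℝ) ^ (1 / Real.log Z) ≤
      ∑ ρ ∈ RR y Z0 Z, omg P (alf (SS y Z0 Z)) ρ + 2 * P / (Real.log Z * SS y Z0 Z) := by
  have hlZ : 0 < Real.log Z := Real.log_pos (by exact_mod_cast hZ)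
  have h1 : ∀ ρ ∈ RR y Z0 Z, omg P (alf (SS y Z0 Z)) ρ * (ρ : ℝ) ^ (1 / Real.log Z) ≤
      omg P (alf (SS y Z0 Z)) ρ + 2 * P / (Real.log Z * SS y Z0 Z) *
        alf (SS y Z0 Z) ρ := by
    intro ρ hρ
    rw [mem_RR] at hρ
    have hρ2 : (2 : ℝ) ≤ ρ := by exact_mod_cast (by omega : 2 ≤ ρ)
    have hρ0 : (0 : ℝ) < ρ := by linarith
    have hlρ : 0 < Real.log ρ := Real.log_pos (by linarith)
    have hρZ : Real.log ρ ≤ Real.log Z := Real.log_le_log hρ0 (by exact_mod_cast hρ.1.2)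
    have ht : Real.log ρ / Real.log Z ≤ 1 := by rw [div_le_one hlZ]; exact hρZ
    have ht0 : 0 ≤ Real.log ρ / Real.log Z := by positivity
    have h2 : (ρ : ℝ) ^ (1 / Real.log Z) ≤ 1 + 2 * (Real.log ρ / Real.log Z) := by
      rw [Real.rpow_def_of_pos hρ0]
      have e1 : Real.log ρ * (1 / Real.log Z) = Real.log ρ / Real.log Z := by ring
      rw [e1]
      have h3 := Real.exp_bound' ht0 ht (n := 2) (by norm_num)
      simp only [Finset.sum_range_succ, Finset.sum_range_zero, pow_zero, Nat.factorial, Nat.cast_one,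
        pow_one, Nat.succ_eq_add_one, zero_add, mul_one, one_mul] at h3
      norm_num at h3
      obtain ⟨t, ht'⟩ : ∃ t, t = Real.log ρ / Real.log Z := ⟨_, rfl⟩
      rw [← ht'] at h3 ht ht0 ⊢
      nlinarith
    have h4 : 0 ≤ omg P (alf (SS y Z0 Z)) ρ := omg_nonneg hP _ _
    calc omg P (alf (SS y Z0 Z)) ρ * (ρ : ℝ) ^ (1 / Real.log Z)
        ≤ omg P (alf (SS y Z0 Z)) ρ * (1 + 2 * (Real.log ρ / Real.log Z)) :=
          mul_le_mul_of_nonneg_left h2 h4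
      _ = omg P (alf (SS y Z0 Z)) ρ + 2 * P / (Real.log Z * SS y Z0 Z) *
        alf (SS y Z0 Z) ρ := by
          unfold omg alf
          field_simp
  refine (Finset.sum_le_sum h1).trans ?_
  rw [Finset.sum_add_distrib, ← Finset.mul_sum, alf_sum hS, mul_one]

/-- the members divisible by a prime -/
lemma omg_div {P : ℝ} (hP : 0 ≤ P) (hP1 : P ≤ 1) {y Z : ℕ} {R : Finset ℕ} {al : ℕ → ℝ}
    (hR : Adm y Z R) (hZ : 1 ≤ Z)
    (hal : ∀ ρ ∈ R, 0 ≤ al ρ ∧ al ρ ≤ 1 / (ρ : ℝ)) (p : ℕ) (hp : p.Prime) :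
    ∑ ρ ∈ R.filter (fun ρ => p ∣ ρ), omg P al ρ ≤ (1 + Real.log Z) / p := by
  have hp0 : (0 : ℝ) < p := by exact_mod_cast hp.pos
  have h1 : ∀ ρ ∈ R.filter (fun ρ => p ∣ ρ), omg P al ρ ≤ 1 / (ρ : ℝ) := by
    intro ρ hρ
    rw [mem_filter] at hρ
    obtain ⟨a1, a2⟩ := hal ρ hρ.1
    have hρ0 : (0 : ℝ) < ρ := by have := (hR ρ hρ.1).1; exact_mod_cast (by omega : 0 < ρ)
    unfold omg
    calc P * al ρ ^ 2 * ρ ≤ 1 * (1 / (ρ : ℝ)) ^ 2 * ρ := by gcongr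
      _ = 1 / (ρ : ℝ) := by field_simp
  refine (Finset.sum_le_sum h1).trans ?_
  have h2 : ∑ ρ ∈ R.filter (fun ρ => p ∣ ρ), 1 / (ρ : ℝ) ≤ ∑ t ∈ Icc 1 Z, 1 / (((p * t : ℕ)) : ℝ) := by
    have hinj : Set.InjOn (fun t : ℕ => p * t) (Icc 1 Z : Set ℕ) := by
      intro a _ b _ h
      exact Nat.eq_of_mul_eq_mul_left hp.pos h
    rw [← Finset.sum_image (f := fun n : ℕ => 1 / (n : ℝ)) hinj]
    apply Finset.sum_le_sum_of_subset_of_nonneg
    · intro ρ hρ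
      rw [mem_filter] at hρ
      obtain ⟨t, ht⟩ := hρ.2
      rw [mem_image]
      refine ⟨t, ?_, ht.symm⟩
      have h3 := (hR ρ hρ.1)
      rw [mem_Icc]
      constructor
      · rcases Nat.eq_zero_or_pos t with h | h
        · rw [h, mul_zero] at ht; omega
        · exact h
      · calc t ≤ p * t := Nat.le_mul_of_pos_left _ hp.pos
          _ = ρ := ht.symm
          _ ≤ Z := h3.2.1
    · intro n _ _; positivity
  refine h2.trans ?_
  have h4 : ∑ t ∈ Icc 1 Z, 1 / (((p * t : ℕ)) : ℝ) = (∑ t ∈ Icc 1 Z, ((t : ℝ))⁻¹) / p := by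
    rw [Finset.sum_div]
    apply Finset.sum_congr rfl
    intro t _
    push_cast
    rw [one_div, mul_inv, mul_comm]
    rfl
  rw [h4]
  apply div_le_div_of_nonneg_right _ hp0.le
  have h5 := harmonic_le_one_add_log Z
  rw [harmonic_eq_sum_Icc] at h5
  push_cast at h5
  exact h5

section
variable {ι : Type} [Fintype ι] [DecidableEq ι]

lemma sp_card_le {R : Finset ℕ} {Z0 k₀ : ℕ} (hR : ∀ ρ ∈ R, Z0 < ρ) {r : ι → ℕ}
    (hr : r ∈ Tu ι R (Z0 ^ k₀)) (hZ0 : 1 ≤ Z0) : (sp r).card ≤ k₀ := by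
  rw [mem_Tu] at hr
  have h1 : (Z0 + 1) ^ (sp r).card ≤ mm r := by
    unfold mm
    rw [← Finset.prod_const]
    calc ∏ _i ∈ sp r, (Z0 + 1) ≤ ∏ i ∈ sp r, r i := by
          apply Finset.prod_le_prod'
          intro i hi
          rw [mem_sp] at hi
          rcases hr.1 i with h | h
          · exact absurd h hi
          · exact hR _ h
      _ = ∏ i, r i := by
          apply Finset.prod_subset (Finset.subset_univ _)
          intro i _ hi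
          rw [mem_sp, not_not] at hi
          exact hi
  by_contra h
  rw [not_le] at h
  have h2 : (Z0 + 1) ^ (k₀ + 1) ≤ Z0 ^ k₀ :=
    (Nat.pow_le_pow_right (by omega) h).trans (h1.trans hr.2.2)
  have h3 : Z0 ^ k₀ < (Z0 + 1) ^ (k₀ + 1) := by
    calc Z0 ^ k₀ ≤ (Z0 + 1) ^ k₀ := Nat.pow_le_pow_left (by omega) _
      _ < (Z0 + 1) ^ (k₀ + 1) := Nat.pow_lt_pow_right (by omega) (by omega)
  omega

lemma mm_card_le {y Z Y k₁ : ℕ} {R : Finset ℕ} (hR : Adm y Z R) (hy : 2 ≤ y) {r : ι → ℕ}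
    (hr : r ∈ Tu ι R Y) (hY : Y < y ^ (k₁ + 1)) : (mm r).primeFactors.card ≤ k₁ := by
  have h1 : y ^ (mm r).primeFactors.card ≤ mm r := by
    calc y ^ (mm r).primeFactors.card = ∏ _p ∈ (mm r).primeFactors, y := by rw [Finset.prod_const]
      _ ≤ ∏ p ∈ (mm r).primeFactors, p := by
          apply Finset.prod_le_prod'
          intro p hp
          exact (mm_prime_gt hR hr hp).le
      _ = mm r := Nat.prod_primeFactors_of_squarefree (mm_squarefree hR hr)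
  have h2 : mm r ≤ Y := by rw [mem_Tu] at hr; exact hr.2.2
  have h3 : y ^ (mm r).primeFactors.card < y ^ (k₁ + 1) := by omega
  have := (Nat.pow_lt_pow_iff_right (by omega : 1 < y)).1 h3
  omega

end

/-- Euler's product for the totient of a primorial -/
lemma totient_primorial (z : ℕ) : (Nat.totient (primorial z) : ℝ) = primorial z * pj 1 z 1 := by
  have h1 : (primorial z).primeFactors = prs 1 z := by
    ext p
    rw [Nat.mem_primeFactors, mem_prs]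
    constructor
    · rintro ⟨hp, hd, _⟩
      exact ⟨⟨hp.one_lt, hp.dvd_primorial_iff.1 hd⟩, hp⟩
    · rintro ⟨⟨_, h2⟩, hp⟩
      exact ⟨hp, hp.dvd_primorial_iff.2 h2, (primorial_pos z).ne'⟩
  have h2 : (Nat.totient (primorial z) : ℝ) = primorial z *
      ∏ p ∈ (primorial z).primeFactors, (1 - (p : ℝ)⁻¹) := by
    have := Nat.totient_eq_mul_prod_factors (primorial z)
    have h2 : ((Nat.totient (primorial z) : ℚ) : ℝ) =
        ((primorial z * ∏ p ∈ (primorial z).primeFactors, (1 - (p : ℚ)⁻¹) : ℚ) : ℝ) := by rw [this]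
    push_cast at h2
    exact h2
  rw [h2, h1]
  unfold pj
  congr 1
  apply Finset.prod_congr rfl
  intro p _
  rw [Nat.cast_one, one_div]

end Pool.Agent.N801.PF
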