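import Pool.Agent.N801.PF.Core3
import Pool.Agent.N801.PF.Par1
import Pool.Agent.N801.PF.Par2

/-!
The construction of the data for large `x` (helper801).
-/

set_option autoImplicit false

open Finset Filter Topology

namespace Pool.Agent.N801.PF

/-- `z = ⌊log x / 12⌋` -/
noncomputable def zz (x : ℕ) : ℕ := ⌊Real.log x / 12⌋₊

/-- `W = ∏_{p ≤ z} p` -/
noncomputable def WW (x : ℕ) : ℕ := primorial (zz x)

/-- `H = ⌈A log (2 x)⌉` -/
noncomputable def HH (A : ℝ) (x : ℕ) : ℕ := ⌈A * Real.log (2 * x)⌉₊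

lemma ev_log_ge (c : ℝ) : ∀ᶠ x : ℕ in atTop, c ≤ Real.log x :=
  (Real.tendsto_log_atTop.comp tendsto_natCast_atTop_atTop).eventually_ge_atTop c

lemma ev_pow_exp (a ν : ℝ) (hν : 0 < ν) (M : ℕ) :
    ∀ᶠ x : ℕ in atTop, a * Real.log x ^ M ≤ Real.exp (ν * Real.log x) := by
  have h1 : Tendsto (fun t : ℝ => |a| * (t ^ M * Real.exp (-ν * t))) atTop (𝓝 (|a| * 0)) := by
    apply Tendsto.const_mul
    have h3 := (Real.tendsto_pow_mul_exp_neg_atTop_nhds_zero M).comp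
      (tendsto_id.const_mul_atTop hν)
    have h4 := h3.const_mul ((1 / ν : ℝ) ^ M)
    rw [mul_zero] at h4
    refine h4.congr (fun x => ?_)
    simp only [Function.comp_apply, id]
    rw [mul_pow, ← mul_assoc, ← mul_assoc, ← mul_pow, one_div_mul_cancel hν.ne', one_pow, one_mul]
    ring_nf
  rw [mul_zero] at h1
  have h5 := h1.eventually (gt_mem_nhds (show (0 : ℝ) < 1 by norm_num))
  have h6 := (Real.tendsto_log_atTop.comp tendsto_natCast_atTop_atTop).eventually h5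
  filter_upwards [h6, ev_log_ge 0] with x hx hx0
  simp only [Function.comp_apply] at hx
  have hpos := Real.exp_pos (ν * Real.log x)
  have h7 : |a| * (Real.log x ^ M * Real.exp (-ν * Real.log x)) * Real.exp (ν * Real.log x) =
      |a| * Real.log x ^ M := by
    rw [mul_assoc, mul_assoc, ← Real.exp_add]
    have : -ν * Real.log x + ν * Real.log x = 0 := by ring
    rw [this, Real.exp_zero, mul_one]
  have h8 : |a| * Real.log x ^ M ≤ 1 * Real.exp (ν * Real.log x) := by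
    rw [← h7]
    exact mul_le_mul_of_nonneg_right hx.le hpos.le
  have h9 : a * Real.log x ^ M ≤ |a| * Real.log x ^ M :=
    mul_le_mul_of_nonneg_right (le_abs_self a) (pow_nonneg hx0 _)
  linarith

lemma ev_loglog (a : ℝ) : ∀ᶠ x : ℕ in atTop, a * Real.log (Real.log x) ≤ Real.log x := by
  have h1 : (fun t : ℝ => a * Real.log t) =o[atTop] (fun t : ℝ => t) :=
    Real.isLittleO_log_id_atTop.const_mul_left a
  have h2 := h1.bound (c := 1) one_pos
  have h3 := (Real.tendsto_log_atTop.comp tendsto_natCast_atTop_atTop).eventually h2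
  filter_upwards [h3, ev_log_ge 0] with x hx hx0
  simp only [Function.comp_apply, one_mul, Real.norm_eq_abs] at hx
  rw [abs_of_nonneg hx0] at hx
  exact (le_abs_self _).trans hx

/-- the facts on `x` -/
structure Fx (A ν c₀ a₃ : ℝ) (M x : ℕ) : Prop where
  l1 : c₀ ≤ Real.log x
  l2 : 100 * Real.log x ^ M ≤ Real.exp (ν * Real.log x)
  l3 : a₃ * Real.log (Real.log x) ≤ Real.log x
  l4 : 48 + 1152 * A ≤ Real.log x

lemma ev_Fx (A ν c₀ a₃ : ℝ) (M : ℕ) (hν : 0 < ν) : ∀ᶠ x : ℕ in atTop, Fx A ν c₀ a₃ M x := by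
  filter_upwards [ev_log_ge c₀, ev_pow_exp 100 ν hν M, ev_loglog a₃, ev_log_ge (48 + 1152 * A)]
    with x h1 h2 h3 h4
  exact ⟨h1, h2, h3, h4⟩

/-- bounds for `z`, `H`, `W` -/
lemma zHW {A : ℝ} (hA : 1 ≤ A) {x : ℕ} (hx : 48 + 1152 * A ≤ Real.log x) :
    2 ≤ zz x ∧ (zz x : ℝ) ≤ Real.log x / 12 ∧ Real.log x ≤ HH A x ∧ (HH A x : ℝ) ≤ 2 * A * Real.log x ∧
      (HH A x : ℝ) ≤ (zz x : ℝ) ^ 2 ∧ zz x ≤ HH A x ∧ (HH A x : ℝ) ≤ Real.log x ^ 2 ∧
      (WW x : ℝ) ≤ Real.exp (Real.log x / 8) ∧ 1 ≤ x := by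
  obtain ⟨L, hL⟩ : ∃ L, L = Real.log x := ⟨_, rfl⟩
  have hx1 : 1 ≤ x := by
    by_contra h
    have : x = 0 := by omega
    rw [this] at hx
    simp only [Nat.cast_zero, Real.log_zero] at hx
    linarith
  have hx' : (1 : ℝ) ≤ x := by exact_mod_cast hx1
  rw [← hL] at hx
  have hz1 : (zz x : ℝ) ≤ L / 12 := by
    unfold zz; rw [← hL]; exact Nat.floor_le (by linarith)
  have hz2 : L / 12 < zz x + 1 := by
    unfold zz; rw [← hL]; exact Nat.lt_floor_add_one _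
  have hz3 : L / 24 ≤ zz x := by linarith
  have hz4 : (2 : ℝ) ≤ zz x := by linarith
  have hlog2 : Real.log (2 * x) = Real.log 2 + L := by
    rw [Real.log_mul (by norm_num) (by linarith), hL]
  have hl2 : Real.log 2 ≤ 1 := by have := Real.log_two_lt_d9; linarith
  have hl20 : 0 ≤ Real.log 2 := Real.log_nonneg (by norm_num)
  have hH1 : L ≤ HH A x := by
    unfold HH
    rw [hlog2]
    refine le_trans ?_ (Nat.le_ceil _)
    nlinarith
  have hH2 : (HH A x : ℝ) ≤ 2 * A * L := by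
    unfold HH
    rw [hlog2]
    have h1 : (⌈A * (Real.log 2 + L)⌉₊ : ℝ) < A * (Real.log 2 + L) + 1 :=
      Nat.ceil_lt_add_one (by apply mul_nonneg <;> linarith)
    have h2 : A * (Real.log 2 + L) + 1 ≤ 2 * A * L := by nlinarith
    linarith
  have hH3 : (HH A x : ℝ) ≤ (zz x : ℝ) ^ 2 := by
    have h1 : (L / 24) ^ 2 ≤ (zz x : ℝ) ^ 2 := pow_le_pow_left₀ (by linarith) hz3 2
    nlinarith
  have hzH : zz x ≤ HH A x := by
    have : (zz x : ℝ) ≤ HH A x := by linarith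
    exact_mod_cast this
  have hH4 : (HH A x : ℝ) ≤ L ^ 2 := by nlinarith
  rw [← hL]
  refine ⟨by exact_mod_cast hz4, hz1, hH1, hH2, hH3, hzH, hH4, ?_, hx1⟩
  have h5 : (WW x : ℝ) ≤ 4 ^ zz x := by
    unfold WW
    exact_mod_cast primorial_le_four_pow (zz x)
  refine h5.trans ?_
  have h6 : (4 : ℝ) ^ zz x = Real.exp (Real.log 4 * zz x) := by
    rw [← Real.rpow_natCast, Real.rpow_def_of_pos (by norm_num)]
  rw [h6]
  apply Real.exp_le_exp.2
  have h7 : Real.log 4 ≤ 1.4 := by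
    have : Real.log 4 = 2 * Real.log 2 := by
      rw [show (4 : ℝ) = 2 ^ 2 by norm_num, Real.log_pow]; norm_num
    have := Real.log_two_lt_d9
    linarith
  have h8 : 0 ≤ Real.log 4 := Real.log_nonneg (by norm_num)
  calc Real.log 4 * zz x ≤ 1.4 * (L / 12) := by
        apply mul_le_mul h7 hz1 (Nat.cast_nonneg _) (by norm_num)
    _ ≤ L / 8 := by linarith

lemma pj_one_le (z : ℕ) (hz : 2 ≤ z) (hPJ : PJ) : pj 1 z 1 ≤ pj 2 z 1 := by
  have h1 : prs 1 z = insert 2 (prs 2 z) := by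
    ext p
    rw [mem_insert, mem_prs, mem_prs]
    constructor
    · rintro ⟨⟨h1, h2⟩, h3⟩
      rcases Nat.lt_or_ge 2 p with h | h
      · exact Or.inr ⟨⟨h, h2⟩, h3⟩
      · exact Or.inl (by omega)
    · rintro (h | ⟨⟨h1, h2⟩, h3⟩)
      · rw [h]; exact ⟨⟨by norm_num, hz⟩, Nat.prime_two⟩
      · exact ⟨⟨by omega, h2⟩, h3⟩
  have h2 : pj 1 z 1 = (1 - (1 : ℕ) / ((2 : ℕ) : ℝ)) * pj 2 z 1 := by
    unfold pj
    rw [h1, Finset.prod_insert]
    rw [mem_prs]; omega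
  rw [h2]
  have h3 := (hPJ 2 z 1 (by norm_num) (by norm_num)).1
  push_cast
  linarith

/-- the bound for `v P` -/
lemma vP_bound {C₂ : ℝ} (hC₂ : 0 < C₂) (hME2 : ∀ a y : ℕ, 2 ≤ a → a ≤ y →
    pj a y 1 ≤ C₂ * Real.log a / Real.log y) (hPJ : PJ) {A : ℝ} (hA : 1 ≤ A) {x y : ℕ}
    (hx : 48 + 1152 * A ≤ Real.log x) (hHy : HH A x ≤ y) {v : ℕ}
    (hv : v * WW x ≤ 2 * (HH A x * Nat.totient (WW x))) :
    (v : ℝ) * pj (HH A x) y 1 ≤ 8 * C₂ ^ 2 * A * Real.log x / Real.log y ∧ v ≤ 2 * HH A x ∧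
      pj (HH A x) y 1 ≤ C₂ * (2 * Real.log (Real.log x)) / Real.log y := by
  obtain ⟨z1, z2, H1, H2, H3, H4, H5, W1, x1⟩ := zHW hA hx
  obtain ⟨H, hH⟩ : ∃ H, H = HH A x := ⟨_, rfl⟩
  obtain ⟨z, hz⟩ : ∃ z, z = zz x := ⟨_, rfl⟩
  rw [← hH] at H1 H2 H3 H4 H5 hHy hv ⊢
  rw [← hz] at z1 z2 H3 H4
  have hWpos : 0 < WW x := primorial_pos _
  have hWr : (0 : ℝ) < WW x := by exact_mod_cast hWpos
  have hL48 : 48 ≤ Real.log x := by linarith
  have hHr : (48 : ℝ) ≤ H := by linarith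
  have hHn : 2 ≤ H := by
    have : (2 : ℝ) ≤ H := by linarith
    exact_mod_cast this
  have hyr : (48 : ℝ) ≤ y := hHr.trans (by exact_mod_cast hHy)
  have hly : 0 < Real.log y := Real.log_pos (by linarith)
  have hzr : (2 : ℝ) ≤ z := by exact_mod_cast z1
  have hlz : 0 < Real.log z := Real.log_pos (by linarith)
  have hlH : Real.log H ≤ 2 * Real.log z := by
    have := Real.log_le_log (by linarith) H3
    rwa [Real.log_pow, Nat.cast_ofNat] at this
  have hlH0 : 0 < Real.log H := Real.log_pos (by linarith)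
  have hP1 := hME2 H y hHn hHy
  have hP0 := (hPJ H y 1 (by omega) (by omega)).1
  -- v
  have hv1 : (v : ℝ) ≤ 2 * H * pj 1 z 1 := by
    have h1 : (v : ℝ) * WW x ≤ 2 * (H * Nat.totient (WW x)) := by exact_mod_cast hv
    have h2 : (Nat.totient (WW x) : ℝ) = WW x * pj 1 z 1 := by
      rw [hz]; exact totient_primorial _
    rw [h2] at h1
    have h3 : (v : ℝ) * WW x ≤ (2 * H * pj 1 z 1) * WW x := by
      calc (v : ℝ) * WW x ≤ 2 * (H * (WW x * pj 1 z 1)) := h1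
        _ = (2 * H * pj 1 z 1) * WW x := by ring
    exact le_of_mul_le_mul_right h3 hWr
  have hpj1 : pj 1 z 1 ≤ C₂ / Real.log z := by
    refine (pj_one_le z z1 hPJ).trans ?_
    refine (hME2 2 z le_rfl z1).trans ?_
    apply div_le_div_of_nonneg_right _ hlz.le
    have h4 : Real.log ((2 : ℕ) : ℝ) ≤ 1 := by
      have := Real.log_two_lt_d9
      push_cast
      linarith
    calc C₂ * Real.log ((2 : ℕ) : ℝ) ≤ C₂ * 1 := mul_le_mul_of_nonneg_left h4 hC₂.le
      _ = C₂ := mul_one _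
  have hv2 : (v : ℝ) ≤ 2 * H * (C₂ / Real.log z) :=
    hv1.trans (mul_le_mul_of_nonneg_left hpj1 (by positivity))
  refine ⟨?_, ?_, ?_⟩
  · calc (v : ℝ) * pj H y 1 ≤ (2 * H * (C₂ / Real.log z)) * (C₂ * Real.log H / Real.log y) := by
          apply mul_le_mul hv2 hP1 hP0 (by positivity)
      _ ≤ (2 * (2 * A * Real.log x) * (C₂ / Real.log z)) * (C₂ * (2 * Real.log z) / Real.log y) := by
          gcongr
      _ = 8 * C₂ ^ 2 * A * Real.log x / Real.log y := by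
          field_simp
          ring
  · have h5 : (v : ℝ) ≤ 2 * H * 1 := by
      refine hv1.trans (mul_le_mul_of_nonneg_left ?_ (by positivity))
      exact (hPJ 1 z 1 le_rfl le_rfl).2.1
    have h6 : (v : ℝ) ≤ ((2 * H : ℕ) : ℝ) := by push_cast; linarith
    exact_mod_cast h6
  · refine hP1.trans ?_
    apply div_le_div_of_nonneg_right _ hly.le
    apply mul_le_mul_of_nonneg_left _ hC₂.le
    have := Real.log_le_log (by linarith) H5
    rwa [Real.log_pow, Nat.cast_ofNat] at this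

end Pool.Agent.N801.PF
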