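import Pool.Agent.N801.PF.Par3

/-!
The construction of the data for large `x` (helper801).
-/

set_option autoImplicit false

open Finset Filter Topology

namespace Pool.Agent.N801.PF

/-- real bounds for the sizes -/
structure Sz (C K N k₀ b J Z0 x : ℕ) (L : ℝ) : Prop where
  y1 : ((2 : ℝ) ^ 2 ^ J) ^ (C * b) ≤ Real.exp (L / 16)
  y2 : Real.exp (1 / (32 * (C : ℝ) * b) * L) ≤ (2 : ℝ) ^ 2 ^ J
  y3 : L ≤ 32 * (C : ℝ) * b * Real.log ((2 : ℝ) ^ 2 ^ J)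
  z1 : 2 ≤ Z0
  z2 : 8 * (k₀ : ℝ) * Real.log Z0 ≤ L
  z3 : L ≤ 16 * (k₀ : ℝ) * Real.log Z0
  z4 : 2 ^ 2 ^ J ≤ Z0
  z5 : (((Z0 ^ k₀ : ℕ) : ℝ)) ^ 4 ≤ Real.exp (L / 2)
  z6 : Z0 ^ k₀ < (2 ^ 2 ^ J) ^ (4 * C * b + 1)
  x1 : x ^ 2 < (2 ^ 2 ^ J) ^ (64 * C * b + 1)

lemma sizes {C K N k₀ b J Z0 x : ℕ} {L : ℝ} (hL : L = Real.log x) (hC : 1 ≤ C) (hk : 1 ≤ k₀)
    (hb : b = 8 * C * k₀ ^ 2) (hx1 : 1 ≤ x) (hk0L : 8 * (k₀ : ℝ) ≤ L)
    (hJ1 : (2 ^ 2 ^ J) ^ (16 * C * b) ≤ x) (hJ2 : x < (2 ^ 2 ^ J) ^ (2 * (16 * C * b)))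
    (hZ1 : Z0 ^ (8 * k₀) ≤ x) (hZ2 : x < (Z0 + 1) ^ (8 * k₀)) : Sz C K N k₀ b J Z0 x L := by
  obtain ⟨y, hy⟩ : ∃ y : ℕ, y = 2 ^ 2 ^ J := ⟨_, rfl⟩
  have hyr : ((y : ℕ) : ℝ) = (2 : ℝ) ^ 2 ^ J := by rw [hy]; push_cast; rfl
  rw [← hy] at hJ1 hJ2
  have hx' : (1 : ℝ) ≤ x := by exact_mod_cast hx1
  have hy2 : 2 ≤ y := by
    rw [hy]
    calc 2 = 2 ^ 1 := rfl
      _ ≤ 2 ^ 2 ^ J := Nat.pow_le_pow_right (by norm_num) Nat.one_le_two_pow
  have hy2' : (2 : ℝ) ≤ y := by exact_mod_cast hy2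
  have hb1 : 1 ≤ b := by rw [hb]; exact Nat.succ_le_iff.2 (by positivity)
  have hly : 0 < Real.log y := Real.log_pos (by linarith)
  have hC' : (1 : ℝ) ≤ C := by exact_mod_cast hC
  have hb' : (1 : ℝ) ≤ b := by exact_mod_cast hb1
  have hk' : (1 : ℝ) ≤ k₀ := by exact_mod_cast hk
  -- logarithms
  have l1 : 16 * (C : ℝ) * b * Real.log y ≤ L := by
    have h1 : ((y : ℝ)) ^ (16 * C * b) ≤ x := by exact_mod_cast hJ1
    have h2 := Real.log_le_log (by positivity) h1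
    rw [Real.log_pow] at h2
    push_cast at h2
    rw [hL]; exact h2
  have l2 : L < 32 * (C : ℝ) * b * Real.log y := by
    have h1 : (x : ℝ) < ((y : ℝ)) ^ (2 * (16 * C * b)) := by exact_mod_cast hJ2
    have h2 := Real.log_lt_log (by linarith) h1
    rw [Real.log_pow] at h2
    push_cast at h2
    rw [hL]; linarith
  have hZ02 : 2 ≤ Z0 := by
    by_contra h
    have h1 : Z0 + 1 ≤ 2 := by omega
    have h2 : x < 2 ^ (8 * k₀) := lt_of_lt_of_le hZ2 (Nat.pow_le_pow_left h1 _)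
    have h3 : (x : ℝ) < (2 : ℝ) ^ (8 * k₀) := by exact_mod_cast h2
    have h4 := Real.log_lt_log (by linarith) h3
    rw [Real.log_pow, ← hL] at h4
    push_cast at h4
    have h5 : Real.log 2 ≤ 1 := by have := Real.log_two_lt_d9; linarith
    have h6 : 8 * (k₀ : ℝ) * Real.log 2 ≤ 8 * (k₀ : ℝ) * 1 :=
      mul_le_mul_of_nonneg_left h5 (by positivity)
    linarith
  have hZ0' : (2 : ℝ) ≤ Z0 := by exact_mod_cast hZ02
  have l3 : 8 * (k₀ : ℝ) * Real.log Z0 ≤ L := by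
    have h1 : ((Z0 : ℝ)) ^ (8 * k₀) ≤ x := by exact_mod_cast hZ1
    have h2 := Real.log_le_log (by positivity) h1
    rw [Real.log_pow] at h2
    push_cast at h2
    rw [hL]; exact h2
  have l4 : L ≤ 16 * (k₀ : ℝ) * Real.log Z0 := by
    have h0 : Z0 + 1 ≤ Z0 ^ 2 := by nlinarith
    have h1 : x < (Z0 ^ 2) ^ (8 * k₀) := lt_of_lt_of_le hZ2 (Nat.pow_le_pow_left h0 _)
    rw [← pow_mul] at h1
    have h2 : (x : ℝ) < (Z0 : ℝ) ^ (2 * (8 * k₀)) := by exact_mod_cast h1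
    have h3 := Real.log_lt_log (by linarith) h2
    rw [Real.log_pow] at h3
    push_cast at h3
    rw [hL]; linarith
  refine ⟨?_, ?_, ?_, hZ02, l3, l4, ?_, ?_, ?_, ?_⟩
  · rw [← hyr]
    have h1 : (y : ℝ) ^ (C * b) = Real.exp (Real.log y * (C * b : ℕ)) := by
      rw [← Real.rpow_natCast, Real.rpow_def_of_pos (by linarith)]
    rw [h1]
    apply Real.exp_le_exp.2
    push_cast
    linarith
  · rw [← hyr]
    have h1 : (y : ℝ) = Real.exp (Real.log y) := (Real.exp_log (by linarith)).symm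
    rw [h1]
    apply Real.exp_le_exp.2
    rw [div_mul_eq_mul_div, one_mul, div_le_iff₀ (by positivity)]
    linarith
  · rw [← hyr]; exact l2.le
  · rw [← hy]
    have h0 : 8 * k₀ ≤ 16 * C * b := by
      have h1 : k₀ ≤ C * b := by
        rw [hb]
        calc k₀ ≤ k₀ ^ 2 := by nlinarith
          _ ≤ (C * (8 * C)) * k₀ ^ 2 := Nat.le_mul_of_pos_left _ (by positivity)
          _ = C * (8 * C * k₀ ^ 2) := by ring
      have h2 : 16 * C * b = 16 * (C * b) := by ring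
      omega
    by_contra h
    rw [not_le] at h
    have h1 : (Z0 + 1) ^ (8 * k₀) ≤ y ^ (16 * C * b) :=
      (Nat.pow_le_pow_left h _).trans (Nat.pow_le_pow_right (by omega) h0)
    omega
  · push_cast
    have h1 : ((Z0 : ℝ) ^ k₀) ^ 4 = Real.exp (Real.log Z0 * (4 * k₀ : ℕ)) := by
      rw [← pow_mul, mul_comm k₀ 4, ← Real.rpow_natCast, Real.rpow_def_of_pos (by linarith)]
    rw [h1]
    apply Real.exp_le_exp.2
    push_cast
    linarith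
  · rw [← hy]
    have h1 : (Z0 ^ k₀) ^ 8 < (y ^ (4 * C * b)) ^ 8 := by
      calc (Z0 ^ k₀) ^ 8 = Z0 ^ (8 * k₀) := by rw [← pow_mul, mul_comm]
        _ ≤ x := hZ1
        _ < y ^ (2 * (16 * C * b)) := hJ2
        _ = (y ^ (4 * C * b)) ^ 8 := by rw [← pow_mul]; congr 1; ring
    have h2 : Z0 ^ k₀ < y ^ (4 * C * b) := lt_of_pow_lt_pow_left₀ 8 (Nat.zero_le _) h1
    exact h2.trans_le (Nat.pow_le_pow_right (by omega) (Nat.le_succ _))
  · rw [← hy]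
    have h1 : x ^ 2 < (y ^ (2 * (16 * C * b))) ^ 2 := Nat.pow_lt_pow_left hJ2 (by norm_num)
    rw [← pow_mul] at h1
    refine h1.trans_le (Nat.pow_le_pow_right (by omega) ?_)
    have : 2 * (16 * C * b) * 2 = 64 * C * b := by ring
    omega

/-- small quantities -/
lemma tiny {L Y v e : ℝ} (M j : ℕ) (hL : 1 ≤ L) (h2 : 100 * L ^ M ≤ Y) (hj : j ≤ M)
    (hv : v ≤ L ^ j) (hY : 0 < Y) (he : e = v / Y) : e ≤ 1 / 100 := by
  rw [he, div_le_iff₀ hY]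
  have : L ^ j ≤ L ^ M := pow_le_pow_right₀ hL hj
  linarith

end Pool.Agent.N801.PF
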