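import Pool.Agent.N801.PF.Par4

/-!
The construction of the data for large `x` (helper801).
-/

set_option autoImplicit false

open Finset Filter Topology

namespace Pool.Agent.N801.PF

lemma sum7 {a b c d e f g L : ℝ} (ha : 0 ≤ a) (hb : 0 ≤ b) (hc : 0 ≤ c) (hd : 0 ≤ d) (he : 0 ≤ e)
    (hf : 0 ≤ f) (hg : 0 ≤ g) (h : a + b + c + d + e + f + g ≤ L) :
    a ≤ L ∧ b ≤ L ∧ c ≤ L ∧ d ≤ L ∧ e ≤ L ∧ f ≤ L ∧ g ≤ L := by
  refine ⟨?_, ?_, ?_, ?_, ?_, ?_, ?_⟩ <;> linarith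

lemma cube_aux {L v : ℝ} (hL : 48 ≤ L) (h : v ≤ L ^ 2) : 1 + v ≤ L ^ 3 := by
  have h1 : L ^ 2 * 2 ≤ L ^ 2 * L := mul_le_mul_of_nonneg_left (by linarith) (sq_nonneg L)
  have h2 : L ^ 2 * L = L ^ 3 := by ring
  have h3 : 1 ≤ L ^ 2 := one_le_pow₀ (by linarith)
  linarith

lemma sq_aux {L z : ℝ} (hL : 48 ≤ L) (h : z ≤ L) : 1 + z ≤ L ^ 2 := by nlinarith

lemma nat_aux {k : ℕ} (hk : 1 ≤ k) : 4 * k + 1 + 1 ≤ 8 * k ^ 2 := by nlinarith

lemma nat_aux2 {x H : ℕ} (h1 : H ≤ x) (h3 : 3 ≤ x) : 2 * x + H ≤ x ^ 2 := by nlinarith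

lemma one_mul3 {C b : ℝ} (hC : 1 ≤ C) (hb : 1 ≤ b) : 1 ≤ C * b := by nlinarith

lemma t0_aux {C₃ C b : ℝ} (h3 : 1 ≤ C₃) (hC : 1 ≤ C) (hb : 1 ≤ b) : 1 ≤ 4 * C₃ * C * b := by
  have h1 := one_mul3 hC hb
  have h2 := one_mul3 h3 h1
  calc (1 : ℝ) ≤ 4 * (C₃ * (C * b)) := by linarith
    _ = 4 * C₃ * C * b := by ring

lemma nu_aux {C b : ℝ} (hC : 1 ≤ C) (hb : 1 ≤ b) : 1 / (32 * C * b) ≤ 1 / 32 := by
  apply one_div_le_one_div_of_le (by norm_num)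
  have := one_mul3 hC hb
  calc (32 : ℝ) ≤ 32 * (C * b) := by linarith
    _ = 32 * C * b := by ring

lemma lZ_aux {N l L : ℝ} (hN : 7 ≤ N) (hl : 0 ≤ l) (h : 8 * N * l ≤ L) : l ≤ L ∧ 8 * l ≤ L := by
  have h1 : 1 * l ≤ N * l := mul_le_mul_of_nonneg_right (by linarith) hl
  have h2 : 8 * N * l = 8 * (N * l) := by ring
  constructor <;> linarith

lemma nuL {ν L : ℝ} (h : ν ≤ 1 / 32) (hL : 0 ≤ L) : ν * L ≤ L / 32 := by
  have := mul_le_mul_of_nonneg_right h hL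
  linarith

lemma exp5 {N : ℝ} (hN : 7 ≤ N) : Real.exp (-(3 * N / 4)) ≤ 1 / 100 := by
  have h4 : Real.exp (-(3 * N / 4)) ≤ Real.exp (-5) := by
    apply Real.exp_le_exp.2; linarith
  have h5 : Real.exp (-5) ≤ 1 / 100 := by
    rw [Real.exp_neg, ← one_div]
    apply one_div_le_one_div_of_le (by norm_num)
    have h6 : (2.7 : ℝ) ≤ Real.exp 1 := by have := Real.exp_one_gt_d9; linarith
    have h7 : Real.exp 5 = Real.exp 1 ^ 5 := by rw [← Real.exp_nat_mul]; norm_num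
    rw [h7]
    calc (100 : ℝ) ≤ 2.7 ^ 5 := by norm_num
      _ ≤ Real.exp 1 ^ 5 := pow_le_pow_left₀ (by norm_num) h6 5
  linarith

lemma build {C : ℕ} (hC : FLTC C) (hPJ : PJ) (hXB : XB) (hME1 : ME1) (hME2 : ME2) (hME3 : ME3)
    (A τ : ℝ) (hA : 1 ≤ A) (hτ : 0 < τ) :
    ∃ (k₀ : ℕ) (E0 B : ℝ), 1 ≤ E0 ∧ 0 ≤ B ∧ ∃ x₀ : ℕ, ∀ x : ℕ, x₀ ≤ x → ∀ V : Finset ℕ,
      V ⊆ Icc 1 (HH A x) → V.card * WW x ≤ 2 * (HH A x * Nat.totient (WW x)) →
      ∃ d : Dat C {h // h ∈ V}, d.x = x ∧ d.W = WW x ∧ d.H = HH A x ∧ (∀ i, d.pos i = i.1) ∧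
        d.k₀ = k₀ ∧ d.E0 = E0 ∧ d.B = B ∧ (d.Z : ℝ) ≤ (x : ℝ) ^ τ ∧ 2 ^ 2 ^ d.J ≤ d.Z ∧
        zz x ≤ d.Z := by
  obtain ⟨κ₁, c₁, y₁, hκ₁, hc₁, hME1⟩ := hME1
  obtain ⟨C₂, hC₂, hME2⟩ := hME2
  obtain ⟨C₃, hC₃, hME3⟩ := hME3
  have hC1 : 1 ≤ C := hC.1
  have hC' : (1 : ℝ) ≤ C := by exact_mod_cast hC1
  obtain ⟨Γ, hΓ⟩ : ∃ Γ : ℝ, Γ = 8 * C₂ ^ 2 * A := ⟨_, rfl⟩
  have hΓ0 : 0 < Γ := by rw [hΓ]; positivity
  obtain ⟨m, hm1, hm2⟩ : ∃ m : ℕ, 1 ≤ c₁ * m ∧ 128 * Γ ≤ c₁ * m := by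
    refine ⟨⌈1 / c₁⌉₊ + ⌈128 * Γ / c₁⌉₊, ?_, ?_⟩
    · have h1 := Nat.le_ceil (1 / c₁)
      have h2 : 1 / c₁ ≤ ((⌈1 / c₁⌉₊ + ⌈128 * Γ / c₁⌉₊ : ℕ) : ℝ) := by
        push_cast
        have : (0 : ℝ) ≤ (⌈128 * Γ / c₁⌉₊ : ℝ) := Nat.cast_nonneg _
        linarith
      rw [div_le_iff₀ hc₁] at h2
      linarith
    · have h1 := Nat.le_ceil (128 * Γ / c₁)
      have h2 : 128 * Γ / c₁ ≤ ((⌈1 / c₁⌉₊ + ⌈128 * Γ / c₁⌉₊ : ℕ) : ℝ) := by
        push_cast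
        have : (0 : ℝ) ≤ (⌈1 / c₁⌉₊ : ℝ) := Nat.cast_nonneg _
        linarith
      rw [div_le_iff₀ hc₁] at h2
      linarith
  obtain ⟨K, hK⟩ : ∃ K, K = κ₁ ^ m := ⟨_, rfl⟩
  have hK1 : 1 ≤ K := by rw [hK]; exact Nat.one_le_pow _ _ hκ₁
  obtain ⟨N, hN7, hNτ, hN1, hN2⟩ := choose_N Γ C₃ τ C K hΓ0 hC₃ hτ hC1 hK1
  obtain ⟨k₀, hk₀⟩ : ∃ k₀, k₀ = K * N := ⟨_, rfl⟩
  rw [← hk₀] at hN1 hN2
  obtain ⟨b, hb⟩ : ∃ b, b = 8 * C * k₀ ^ 2 := ⟨_, rfl⟩
  rw [← hb] at hN1 hN2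
  obtain ⟨B, hB⟩ : ∃ B : ℝ, B = 32 * (C : ℝ) * b * Γ := ⟨_, rfl⟩
  rw [← hB] at hN1 hN2
  obtain ⟨t₀, ht₀⟩ : ∃ t₀ : ℝ, t₀ = 4 * C₃ * C * b := ⟨_, rfl⟩
  rw [← ht₀] at hN2
  have hk₀1 : 1 ≤ k₀ := by rw [hk₀]; exact Nat.succ_le_iff.2 (Nat.mul_pos hK1 (by omega))
  have hb1 : 1 ≤ b := by rw [hb]; exact Nat.succ_le_iff.2 (by positivity)
  have hb' : (1 : ℝ) ≤ b := by exact_mod_cast hb1
  have hk' : (1 : ℝ) ≤ k₀ := by exact_mod_cast hk₀1
  have hK' : (1 : ℝ) ≤ K := by exact_mod_cast hK1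
  have hN' : (7 : ℝ) ≤ N := by exact_mod_cast hN7
  have hkKN : (k₀ : ℝ) = K * N := by rw [hk₀]; push_cast; rfl
  have hB0 : 0 ≤ B := by rw [hB]; positivity
  have hCb : (1 : ℝ) ≤ C * b := one_mul3 hC' hb'
  have ht₀1 : 1 ≤ t₀ := by rw [ht₀]; exact t0_aux hC₃ hC' hb'
  obtain ⟨ν, hν⟩ : ∃ ν : ℝ, ν = 1 / (32 * (C : ℝ) * b) := ⟨_, rfl⟩
  have hν0 : 0 < ν := by rw [hν]; positivity
  have hν1 : ν ≤ 1 / 32 := by
    rw [hν]; exact nu_aux hC' hb'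
  obtain ⟨k₁, hk₁⟩ : ∃ k₁, k₁ = 4 * C * b := ⟨_, rfl⟩
  obtain ⟨M, hM⟩ : ∃ M, M = 12 * k₀ + 3 * (k₀ + k₁) + 8 := ⟨_, rfl⟩
  obtain ⟨k₂, hk₂⟩ : ∃ k₂, k₂ = 64 * C * b := ⟨_, rfl⟩
  obtain ⟨E0, hE0⟩ : ∃ E0 : ℝ, E0 = 2 ^ k₂ * t₀ := ⟨_, rfl⟩
  have hE01 : 1 ≤ E0 := by
    rw [hE0]
    have : (1 : ℝ) ≤ 2 ^ k₂ := one_le_pow₀ (by norm_num)
    exact one_mul3 this ht₀1
  obtain ⟨c₀, hc₀⟩ : ∃ c₀ : ℝ, c₀ = C * (4 * k₀ + 2) + 100 * (k₀ : ℝ) ^ 2 + k₁ + B +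
    16 * (C : ℝ) * b + y₁ / ν + 8 * k₀ := ⟨_, rfl⟩
  refine ⟨k₀, E0, B, hE01, hB0, ?_⟩
  obtain ⟨x₀, hx₀⟩ := (ev_Fx A ν c₀ (2 * B * C₂ / ν) M hν0).exists_forall_of_atTop
  refine ⟨x₀, fun x hx V hV hVc => ?_⟩
  obtain ⟨F1, F2, F3, F4⟩ := hx₀ x hx
  obtain ⟨z1, z2, H1, H2, H3, H4, H5, W1, x1⟩ := zHW hA F4
  obtain ⟨L, hL⟩ : ∃ L, L = Real.log x := ⟨_, rfl⟩
  rw [← hL] at F1 F2 F3 F4 z2 H1 H2 H5 W1
  have hxr : (1 : ℝ) ≤ x := by exact_mod_cast x1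
  have hx0 : (0 : ℝ) < x := by linarith only [hxr]
  have hL48 : 48 ≤ L := by linarith only [F4, hA]
  have hL1 : 1 ≤ L := by linarith only [hL48]
  have hterm : 0 ≤ (y₁ : ℝ) / ν := by positivity
  obtain ⟨c1, c2, c3, c4, c5, c6, c7⟩ := sum7 (a := C * (4 * (k₀ : ℝ) + 2)) (b := 100 * (k₀ : ℝ) ^ 2)
    (c := (k₁ : ℝ)) (d := B) (e := 16 * (C : ℝ) * b) (f := (y₁ : ℝ) / ν) (g := 8 * (k₀ : ℝ)) (L := L)
    (by positivity) (by positivity) (by positivity) hB0 (by positivity) hterm (by positivity)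
    (by rw [hc₀] at F1; exact F1)
  -- the sizes
  have hJx : 2 ^ (16 * C * b) ≤ x := by
    have h1 : (2 : ℝ) ^ (16 * C * b) ≤ x := by
      have h2 : (x : ℝ) = Real.exp L := by rw [hL]; exact (Real.exp_log hx0).symm
      rw [h2, ← Real.rpow_natCast, Real.rpow_def_of_pos (by norm_num)]
      apply Real.exp_le_exp.2
      have h3 : Real.log 2 ≤ 1 := by have := Real.log_two_lt_d9; linarith only [this]
      have h4 : Real.log 2 * ((16 * C * b : ℕ) : ℝ) ≤ 1 * ((16 * C * b : ℕ) : ℝ) :=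
        mul_le_mul_of_nonneg_right h3 (Nat.cast_nonneg _)
      push_cast at h4 ⊢
      linarith only [h4, c5]
    exact_mod_cast h1
  obtain ⟨J, hJ1, hJ2⟩ := exists_J (16 * C * b) x (Nat.succ_le_iff.2 (by positivity)) hJx
  obtain ⟨Z0, hZ1, hZ2⟩ := exists_Z0 (8 * k₀) x (by omega)
  obtain ⟨s1, s2, s3, s4, s5, s6, s7, s8, s9, s10⟩ :=
    sizes (K := K) (N := N) hL hC1 hk₀1 hb x1 c7 hJ1 hJ2 hZ1 hZ2
  rw [← hν] at s2
  obtain ⟨y, hy⟩ : ∃ y : ℕ, y = 2 ^ 2 ^ J := ⟨_, rfl⟩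
  have hyr : ((2 : ℝ) ^ 2 ^ J) = (y : ℝ) := by rw [hy]; push_cast; rfl
  have hy2 : 2 ≤ y := by
    rw [hy]
    calc 2 = 2 ^ 1 := rfl
      _ ≤ 2 ^ 2 ^ J := Nat.pow_le_pow_right (by norm_num) Nat.one_le_two_pow
  have hy2' : (2 : ℝ) ≤ y := by exact_mod_cast hy2
  rw [hyr] at s1 s2 s3
  rw [← hy] at s7 s9 s10
  have hly : 0 < Real.log y := Real.log_pos (by linarith only [hy2'])
  have hLM : 100 * L ^ M ≤ y := F2.trans s2
  have hM8 : 8 ≤ M := by omega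
  have hyL2 : L ^ 2 ≤ y := by
    have : L ^ 2 ≤ L ^ M := pow_le_pow_right₀ hL1 (by omega)
    have h2 : 0 ≤ L ^ M := by positivity
    linarith only [this, h2, hLM]
  have hHy : HH A x ≤ y := by
    have : (HH A x : ℝ) ≤ y := H5.trans hyL2
    exact_mod_cast this
  have hy1 : y₁ ≤ y := by
    have h1 : (y₁ : ℝ) ≤ ν * L := by rw [div_le_iff₀ hν0] at c6; linarith only [c6]
    have h2 : ν * L ≤ Real.exp (ν * L) := by linarith only [Real.add_one_le_exp (ν * L)]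
    have : (y₁ : ℝ) ≤ y := (h1.trans h2).trans s2
    exact_mod_cast this
  -- the set R
  obtain ⟨Z, hZ⟩ : ∃ Z, Z = Z0 ^ K := ⟨_, rfl⟩
  obtain ⟨R, hR⟩ : ∃ R, R = RR y Z0 Z := ⟨_, rfl⟩
  have hZ0Z : Z0 ≤ Z := by rw [hZ]; exact Nat.le_self_pow (by omega) _
  have hZ0r : (2 : ℝ) ≤ Z0 := by exact_mod_cast s4
  have hlZ0 : 0 < Real.log Z0 := Real.log_pos (by linarith only [hZ0r])
  have hlZ : Real.log Z = K * Real.log Z0 := by rw [hZ]; push_cast; rw [Real.log_pow]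
  have hZr : (2 : ℝ) ≤ Z := hZ0r.trans (by exact_mod_cast hZ0Z)
  have hlZpos : 0 < Real.log Z := Real.log_pos (by linarith only [hZr])
  have hZ1n : 1 ≤ Z := by omega
  -- log Z ≤ L / (8 N), L ≤ 16 N log Z
  have hlZ1 : 8 * (N : ℝ) * Real.log Z ≤ L := by
    rw [hlZ]
    calc 8 * (N : ℝ) * (K * Real.log Z0) = 8 * (k₀ : ℝ) * Real.log Z0 := by rw [hkKN]; ring
      _ ≤ L := s5
  have hlZ2 : L ≤ 16 * (N : ℝ) * Real.log Z := by
    rw [hlZ]
    calc L ≤ 16 * (k₀ : ℝ) * Real.log Z0 := s6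
      _ = 16 * (N : ℝ) * (K * Real.log Z0) := by rw [hkKN]; ring
  obtain ⟨hlZL, hlZ8⟩ := lZ_aux hN' hlZpos.le hlZ1
  -- S
  obtain ⟨S, hS⟩ : ∃ S, S = SS y Z0 Z := ⟨_, rfl⟩
  have hSlow : c₁ * m / Real.log y ≤ S := by
    rw [hS]
    unfold SS
    exact hME1 m y Z0 Z hy1 s7 (by rw [hZ, hK])
  have hS1 : 1 / Real.log y ≤ S := by
    refine le_trans ?_ hSlow
    apply div_le_div_of_nonneg_right hm1 hly.le
  have hS0 : 0 < S := lt_of_lt_of_le (by positivity) hS1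
  have hal : ∀ ρ ∈ R, 0 ≤ alf S ρ ∧ alf S ρ ≤ 1 / (ρ : ℝ) := by
    rw [hR, hS]; exact alf_bounds hy2 s7 (by rw [← hS]; exact hS1)
  have hsum : ∑ ρ ∈ R, alf S ρ = 1 := by
    rw [hR, hS]; exact alf_sum (by rw [← hS]; exact hS0)
  have hadm : Adm y Z R := by rw [hR]; exact RR_adm hy2 s7
  -- P
  obtain ⟨H, hH⟩ : ∃ H, H = HH A x := ⟨_, rfl⟩
  rw [← hH] at H1 H2 H3 H4 H5 hHy hV hVc
  have hHr : 48 ≤ (H : ℝ) := by linarith only [hL48, H1]
  have hHn : 2 ≤ H := by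
    have : (2 : ℝ) ≤ H := by linarith only [hHr]
    exact_mod_cast this
  obtain ⟨P, hP⟩ : ∃ P, P = pj H y 1 := ⟨_, rfl⟩
  have hPb := hPJ H y 1 (by omega) (by omega)
  rw [← hP] at hPb
  have hP0 : 0 ≤ P := hPb.1
  have hP1 : P ≤ 1 := hPb.2.1
  have hvP := vP_bound hC₂ hME2 hPJ hA (x := x) (y := y) (by rw [← hL]; exact F4)
    (by rw [← hH]; exact hHy) (v := V.card) (by rw [← hH]; exact hVc)
  rw [← hH, ← hP, ← hL, ← hΓ] at hvP
  obtain ⟨hvP1, -, hPlog⟩ := hvP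
  obtain ⟨v, hv⟩ : ∃ v : ℝ, v = (V.card : ℝ) := ⟨_, rfl⟩
  rw [← hv] at hvP1
  have hv0 : 0 ≤ v := by rw [hv]; positivity
  have hvH : v ≤ H := by
    rw [hv]
    have := Finset.card_le_card hV
    rw [Nat.card_Icc, Nat.add_sub_cancel] at this
    exact_mod_cast this
  have hvL : v ≤ L ^ 2 := hvH.trans H5
  have hv1L : 1 + v ≤ L ^ 3 := cube_aux hL48 hvL
  have hvPB : v * P ≤ B := by
    refine hvP1.trans ?_
    rw [div_le_iff₀ hly, hB]
    calc Γ * L ≤ Γ * (32 * (C : ℝ) * b * Real.log y) := mul_le_mul_of_nonneg_left s3 hΓ0.le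
      _ = 32 * (C : ℝ) * b * Γ * Real.log y := by ring
  have hcard : (Fintype.card {h // h ∈ V} : ℝ) = v := by rw [hv, Fintype.card_coe]
  -- E bound
  have ht : C₃ * (Real.log Z / Real.log y) ≤ t₀ := by
    have h1 : Real.log Z / Real.log y ≤ 4 * (C : ℝ) * b := by
      rw [div_le_iff₀ hly]
      have h2 : 8 * (N : ℝ) * Real.log Z ≤ 32 * (C : ℝ) * b * Real.log y := hlZ1.trans s3
      linarith only [(lZ_aux hN' hlZpos.le h2).2]
    calc C₃ * (Real.log Z / Real.log y) ≤ C₃ * (4 * (C : ℝ) * b) :=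
          mul_le_mul_of_nonneg_left h1 (by linarith only [hC₃])
      _ = t₀ := by rw [ht₀]; ring
  have ht0 : 0 ≤ C₃ * (Real.log Z / Real.log y) := by positivity
  have hEE : ∀ k : ℕ, EE y Z k ≤ t₀ ^ k := fun k =>
    (hME3 y Z k hy2 (s7.trans hZ0Z)).trans (pow_le_pow_left₀ ht0 ht k)
  have hEE0 : ∀ k : ℕ, 0 ≤ EE y Z k := fun k => Finset.prod_nonneg fun p _ => by positivity
  have hXX : XX R (alf S) ≤ 3 * t₀ ^ 8 := by
    refine (hXB y Z R (alf S) hadm hal).trans ?_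
    have e2 := hEE 2
    have e4 := hEE 4
    have h1 : EE y Z 4 * EE y Z 2 ^ 2 ≤ t₀ ^ 4 * (t₀ ^ 2) ^ 2 :=
      mul_le_mul e4 (pow_le_pow_left₀ (hEE0 2) e2 2) (by positivity) (by positivity)
    have h2 : t₀ ^ 4 * (t₀ ^ 2) ^ 2 = t₀ ^ 8 := by ring
    have h3 : t₀ ^ 2 ≤ t₀ ^ 8 := pow_le_pow_right₀ ht₀1 (by norm_num)
    linarith only [h1, h2, h3, e2]
  have hXX0 : 0 ≤ XX R (alf S) := by
    unfold XX
    have a1 : 0 ≤ ∑ ρ ∈ R, alf S ρ * 2 ^ ρ.primeFactors.card :=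
      Finset.sum_nonneg fun ρ hρ => mul_nonneg (hal ρ hρ).1 (by positivity)
    have a2 : 0 ≤ ∑ ρ ∈ R, ∑ ρ' ∈ R, alf S ρ * alf S ρ' *
        ((2 : ℝ) ^ (ρ.primeFactors.card + ρ'.primeFactors.card) * (Nat.gcd ρ ρ' : ℝ)) :=
      Finset.sum_nonneg fun ρ hρ => Finset.sum_nonneg fun ρ' hρ' =>
        mul_nonneg (mul_nonneg (hal ρ hρ).1 (hal ρ' hρ').1) (by positivity)
    linarith only [a1, a2]
  have hvPX : v * (P * XX R (alf S)) ≤ B * (3 * t₀ ^ 8) := by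
    calc v * (P * XX R (alf S)) = (v * P) * XX R (alf S) := by ring
      _ ≤ B * (3 * t₀ ^ 8) := mul_le_mul hvPB hXX hXX0 hB0
  have hvPX0 : 0 ≤ v * (P * XX R (alf S)) := by positivity
  have hpowX : (1 + v * (P * XX R (alf S))) ^ (2 * k₀) ≤ (1 + B * (3 * t₀ ^ 8)) ^ (2 * k₀) :=
    pow_le_pow_left₀ (by linarith only [hvPX0]) (by linarith only [hvPX]) _
  -- q
  obtain ⟨θ, hθ⟩ : ∃ θ : ℝ, θ = 1 / Real.log Z := ⟨_, rfl⟩
  have hθ0 : 0 ≤ θ := by rw [hθ]; positivity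
  obtain ⟨q, hq⟩ : ∃ q, q = ∑ ρ ∈ R, omg P (alf S) ρ := ⟨_, rfl⟩
  obtain ⟨qθ, hqθ⟩ : ∃ qθ, qθ = ∑ ρ ∈ R, omg P (alf S) ρ * (ρ : ℝ) ^ θ := ⟨_, rfl⟩
  have hq0 : 0 ≤ q := by rw [hq]; exact Finset.sum_nonneg fun ρ _ => omg_nonneg hP0 _ ρ
  have hqP : q ≤ P := by rw [hq]; exact omg_sum_le hP0 hal hsum (fun ρ hρ => (hadm ρ hρ).1)
  have htw : qθ ≤ q + 2 * P / (Real.log Z * S) := by
    rw [hqθ, hq, hθ, hR, hS]
    exact omg_twist hP0 hy2 s7 (by rw [← hS]; exact hS0) (by omega)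
  have hvqq : v * qθ ≤ v * q + N / 4 := by
    have h1 : v * (2 * P / (Real.log Z * S)) ≤ N / 4 := by
      have h2 : v * (2 * P / (Real.log Z * S)) = 2 * (v * P) / (Real.log Z * S) := by ring
      rw [h2, div_le_iff₀ (by positivity)]
      have h3 : 128 * Γ / Real.log y ≤ S := by
        refine le_trans ?_ hSlow
        exact div_le_div_of_nonneg_right hm2 hly.le
      have h4 : 2 * (v * P) ≤ 2 * (Γ * L / Real.log y) := by linarith only [hvP1]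
      have h5 : (N : ℝ) / 4 * (Real.log Z * (128 * Γ / Real.log y)) ≤ (N : ℝ) / 4 * (Real.log Z * S) := by
        gcongr
      have h6 : 2 * (Γ * L / Real.log y) ≤ (N : ℝ) / 4 * (Real.log Z * (128 * Γ / Real.log y)) := by
        have h7 : (N : ℝ) / 4 * (Real.log Z * (128 * Γ / Real.log y)) =
            2 * (Γ * (16 * N * Real.log Z) / Real.log y) := by ring
        rw [h7]
        gcongr
      linarith only [h4, h5, h6]
    calc v * qθ ≤ v * (q + 2 * P / (Real.log Z * S)) := mul_le_mul_of_nonneg_left htw hv0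
      _ = v * q + v * (2 * P / (Real.log Z * S)) := by ring
      _ ≤ v * q + N / 4 := by linarith only [h1]
  -- powers of Y
  have hYZ : ((Z0 ^ k₀ : ℕ) : ℝ) = (Z : ℝ) ^ N := by rw [hZ, hk₀]; push_cast; rw [pow_mul]
  have hZpos : (0 : ℝ) < Z := by linarith only [hZr]
  have hYθ : ((Z0 ^ k₀ : ℕ) : ℝ) ^ (-θ) = Real.exp (-(N : ℝ)) := by
    rw [hYZ, ← Real.rpow_natCast, ← Real.rpow_mul hZpos.le, Real.rpow_def_of_pos hZpos, hθ]
    congr 1
    field_simp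
  have hYZθ : (((Z0 ^ k₀ : ℕ) : ℝ) / Z) ^ (-θ) = Real.exp (1 - (N : ℝ)) := by
    rw [Real.div_rpow (Nat.cast_nonneg _) hZpos.le, hYθ]
    have h1 : (Z : ℝ) ^ (-θ) = Real.exp (-1) := by
      rw [Real.rpow_def_of_pos hZpos, hθ]
      congr 1
      field_simp
    rw [h1, ← Real.exp_sub]
    congr 1
    ring
  have hexpq : Real.exp (v * qθ) ≤ Real.exp (v * q) * Real.exp ((N : ℝ) / 4) := by
    rw [← Real.exp_add]; exact Real.exp_le_exp.2 hvqq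
  have hEq := Real.exp_pos (v * q)
  have hpy : (0 : ℝ) < y := by linarith only [hy2']
  have hL3 : ∀ j : ℕ, (1 + v) ^ j ≤ L ^ (3 * j) := fun j => by
    rw [pow_mul]; exact pow_le_pow_left₀ (by linarith only [hv0]) hv1L j
  have hyCb : (y : ℝ) ^ (C * b) ≤ Real.exp (L / 16) := s1
  have hWpos : (0 : ℝ) < WW x := by exact_mod_cast primorial_pos _
  have hxexp : (x : ℝ) = Real.exp L := by rw [hL]; exact (Real.exp_log hx0).symm
  have hxW : Real.exp (L - L / 8) ≤ (x : ℝ) / WW x := by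
    rw [le_div_iff₀ hWpos, hxexp]
    calc Real.exp (L - L / 8) * WW x ≤ Real.exp (L - L / 8) * Real.exp (L / 8) :=
          mul_le_mul_of_nonneg_left W1 (Real.exp_pos _).le
      _ = Real.exp L := by rw [← Real.exp_add]; congr 1; ring
  -- the remainder terms
  have hrem : ∀ g : ℝ, 0 ≤ g → g ≤ L ^ M → (y : ℝ) ^ (C * b) * ((Z0 ^ k₀ : ℕ) : ℝ) ^ 4 * g ≤
      1 / 100 * ((x : ℝ) / WW x) := by
    intro g hg0 hg
    have h1 : (y : ℝ) ^ (C * b) * ((Z0 ^ k₀ : ℕ) : ℝ) ^ 4 ≤ Real.exp (L / 16) * Real.exp (L / 2) :=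
      mul_le_mul hyCb s8 (by positivity) (Real.exp_pos _).le
    have h2 : 100 * g ≤ Real.exp (ν * L) := by linarith only [hg, F2]
    have h3 : Real.exp (ν * L) ≤ Real.exp (L / 32) := by
      apply Real.exp_le_exp.2
      exact nuL hν1 (by linarith only [hL1])
    calc (y : ℝ) ^ (C * b) * ((Z0 ^ k₀ : ℕ) : ℝ) ^ 4 * g
        ≤ Real.exp (L / 16) * Real.exp (L / 2) * g := mul_le_mul_of_nonneg_right h1 hg0
      _ = 1 / 100 * (Real.exp (L / 16) * Real.exp (L / 2) * (100 * g)) := by ring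
      _ ≤ 1 / 100 * (Real.exp (L / 16) * Real.exp (L / 2) * Real.exp (L / 32)) := by
          apply mul_le_mul_of_nonneg_left _ (by norm_num)
          apply mul_le_mul_of_nonneg_left (h2.trans h3) (by positivity)
      _ ≤ 1 / 100 * Real.exp (L - L / 8) := by
          apply mul_le_mul_of_nonneg_left _ (by norm_num)
          rw [← Real.exp_add, ← Real.exp_add]
          apply Real.exp_le_exp.2
          linarith only [hL1]
      _ ≤ 1 / 100 * ((x : ℝ) / WW x) := mul_le_mul_of_nonneg_left hxW (by norm_num)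
  have hY1 : 1 ≤ Z0 ^ k₀ := Nat.one_le_pow _ _ (by omega)
  have hκb : C * (4 * k₀ + 1 + 1) ≤ b := by
    rw [hb]
    have h1 : 4 * k₀ + 1 + 1 ≤ 8 * k₀ ^ 2 := nat_aux hk₀1
    calc C * (4 * k₀ + 1 + 1) ≤ C * (8 * k₀ ^ 2) := Nat.mul_le_mul_left _ h1
      _ = 8 * C * k₀ ^ 2 := by ring
  have hκH : C * (4 * k₀ + 1 + 1) ≤ H := by
    have h1 : ((C * (4 * k₀ + 1 + 1) : ℕ) : ℝ) ≤ H := by
      push_cast
      have : (C : ℝ) * (4 * k₀ + 1 + 1) = C * (4 * k₀ + 2) := by ring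
      linarith only [this, c1, H1]
    exact_mod_cast h1
  have hP' : P = pj H (2 ^ 2 ^ J) 1 := by rw [hP, hy]
  have hlZ2' : 1 + Real.log Z ≤ L ^ 2 := sq_aux hL48 hlZL
  have hlZ0' : 0 ≤ 1 + Real.log Z := by linarith only [hlZpos]
  refine ⟨{
    κ := 4 * k₀ + 1
    b := b
    J := J
    H := H
    W := WW x
    x := x
    Z := Z
    Y := Z0 ^ k₀
    k₀ := k₀
    k₁ := k₁
    k₂ := k₂
    R := R
    al := alf S
    pos := fun i => i.1
    θ := θ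
    P := P
    q := q
    qθ := qθ
    D := 1 + Real.log Z
    δ := 1 / 100
    β := (k₁ : ℝ) * (1 + Real.log Z) / (2 : ℝ) ^ 2 ^ J
    B := B
    E0 := E0
    hC := hC
    h1 := hκb
    h2 := hκH
    h3 := le_rfl
    h4 := by rw [← hy]; exact hHy
    h5 := primorial_pos _
    h6 := fun p hp hd => (hp.dvd_primorial_iff.1 hd).trans H4
    hx := x1
    hpos := ⟨Subtype.val_injective, fun i => by
      have := hV i.2
      rw [mem_Icc] at this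
      exact this⟩
    hR := by rw [← hy]; exact hadm
    hy2 := by rw [← hy]; exact hy2
    hY := hY1
    hZ := hZ1n
    hal := hal
    hsum := hsum
    hk0 := fun r hr => sp_card_le (fun ρ hρ => by rw [hR, mem_RR] at hρ; exact hρ.1.1) hr (by omega)
    hk1 := fun r hr => mm_card_le hadm hy2 hr (by rw [hk₁]; exact s9)
    hk2 := by
      rw [← hy, hk₂]
      refine lt_of_le_of_lt ?_ s10
      have h1 : H ≤ x := by
        have h2 : (H : ℝ) ≤ x := by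
          refine H5.trans ?_
          have h3 : L ^ 2 ≤ Real.exp (ν * L) := by
            have : L ^ 2 ≤ L ^ M := pow_le_pow_right₀ hL1 (by omega)
            have h2 : 0 ≤ L ^ M := by positivity
            linarith only [this, h2, F2]
          refine h3.trans ?_
          rw [hxexp]
          apply Real.exp_le_exp.2
          linarith only [nuL hν1 (by linarith only [hL1] : 0 ≤ L), hL1]
        exact_mod_cast h2
      have h3 : 3 ≤ x := by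
        have : 48 ≤ H := by exact_mod_cast hHr
        omega
      exact nat_aux2 h1 h3
    hθ := hθ0
    hP := hP'
    hq := hq
    hqθ := hqθ
    hq1 := by
      rw [hcard]
      have h1 : v * q ^ 2 ≤ B * P := by
        calc v * q ^ 2 ≤ v * P ^ 2 := by gcongr
          _ = (v * P) * P := by ring
          _ ≤ B * P := mul_le_mul_of_nonneg_right hvPB hP0
      have h2 : B * P ≤ 1 := by
        have h3 : B * P ≤ B * (C₂ * (2 * Real.log L) / Real.log y) :=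
          mul_le_mul_of_nonneg_left hPlog hB0
        have h4 : B * (C₂ * (2 * Real.log L) / Real.log y) ≤ 1 := by
          have h5 : B * (C₂ * (2 * Real.log L) / Real.log y) =
            (2 * B * C₂ * Real.log L) / Real.log y := by ring
          rw [h5, div_le_one hly]
          have h6 : 2 * B * C₂ / ν * Real.log L * ν ≤ L * ν := mul_le_mul_of_nonneg_right F3 hν0.le
          have h7 : 2 * B * C₂ / ν * Real.log L * ν = 2 * B * C₂ * Real.log L := by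
            field_simp
          rw [h7] at h6
          have h8 : L * ν ≤ Real.log y := by
            rw [hν, mul_one_div, div_le_iff₀ (by positivity)]
            linarith only [s3]
          linarith only [h6, h8]
        linarith only [h3, h4]
      linarith only [h1, h2]
    hD := hlZ0'
    hDp := fun p hp => omg_div hP0 hP1 hadm hZ1n hal p hp
    hβ := le_rfl
    hδ := by norm_num
    hδ1 := le_rfl
    e1 := by
      rw [div_le_iff₀ (by linarith only [hHr])]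
      linarith only [c2, H1]
    e2 := by
      rw [hyr]
      exact tiny M 1 hL1 hLM (by omega) (by rw [pow_one]; exact c3) hpy rfl
    e3 := by
      rw [hcard, hYθ]
      have h1 : Real.exp (-(N : ℝ)) * Real.exp (v * qθ) ≤
          Real.exp (-(N : ℝ)) * (Real.exp (v * q) * Real.exp ((N : ℝ) / 4)) :=
        mul_le_mul_of_nonneg_left hexpq (Real.exp_pos _).le
      have h2 : Real.exp (-(N : ℝ)) * (Real.exp (v * q) * Real.exp ((N : ℝ) / 4)) =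
          Real.exp (-(3 * N / 4)) * Real.exp (v * q) := by
        rw [← Real.exp_add, ← Real.exp_add, ← Real.exp_add]; congr 1; ring
      have h3 : Real.exp (-(3 * (N : ℝ) / 4)) ≤ 1 / 100 := exp5 hN'
      have h8 := mul_le_mul_of_nonneg_right h3 hEq.le
      linarith only [h1, h2, h8]
    e4 := by
      rw [hcard, hyr]
      refine tiny M 8 hL1 hLM hM8 ?_ hpy rfl
      calc v ^ 2 * (1 + Real.log Z) ^ 2 ≤ (L ^ 2) ^ 2 * (L ^ 2) ^ 2 := by
            apply mul_le_mul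
            · exact pow_le_pow_left₀ hv0 hvL 2
            · exact pow_le_pow_left₀ hlZ0' hlZ2' 2
            · positivity
            · positivity
        _ = L ^ 8 := by ring
    e5 := by
      rw [hcard]
      have h1 : (1 / 2 : ℝ) ^ b * (1 + v * (P * XX R (alf S))) ^ (2 * k₀) ≤
          (1 / 2 : ℝ) ^ b * ((1 + B) * (1 + B * (3 * t₀ ^ 8)) ^ (2 * k₀)) := by
        apply mul_le_mul_of_nonneg_left _ (by positivity)
        refine hpowX.trans ?_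
        apply le_mul_of_one_le_left (by positivity) (by linarith only [hB0])
      exact h1.trans hN2
    e6 := by
      rw [hcard, hyr]
      exact tiny M (3 * (k₀ + k₁)) hL1 hLM (by omega) (hL3 _) hpy rfl
    e7 := by
      rw [hcard, hyr]
      exact hrem _ (by positivity) ((hL3 _).trans (pow_le_pow_right₀ hL1 (by omega)))
    f3 := by
      rw [hcard, hYZθ]
      have h1 : Real.exp (1 - (N : ℝ)) * Real.exp (v * qθ) ≤
          Real.exp (1 - (N : ℝ)) * (Real.exp (v * q) * Real.exp ((N : ℝ) / 4)) :=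
        mul_le_mul_of_nonneg_left hexpq (Real.exp_pos _).le
      have h2 : Real.exp (1 - (N : ℝ)) * (Real.exp (v * q) * Real.exp ((N : ℝ) / 4)) =
          Real.exp (1 - 3 * N / 4) * Real.exp (v * q) := by
        rw [← Real.exp_add, ← Real.exp_add, ← Real.exp_add]; congr 1; ring
      rw [h2] at h1
      calc v * P * (Real.exp (1 - (N : ℝ)) * Real.exp (v * qθ))
          ≤ B * (Real.exp (1 - 3 * N / 4) * Real.exp (v * q)) :=
            mul_le_mul hvPB h1 (by positivity) hB0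
        _ = B * Real.exp (1 - 3 * N / 4) * Real.exp (v * q) := by ring
        _ ≤ 1 / 100 * Real.exp (v * q) := mul_le_mul_of_nonneg_right hN1 hEq.le
    f4 := by
      rw [hcard, hyr]
      have h1 : (k₁ : ℝ) * (1 + Real.log Z) / y ≤ L ^ 3 / y := by
        apply div_le_div_of_nonneg_right _ hpy.le
        calc (k₁ : ℝ) * (1 + Real.log Z) ≤ L * L ^ 2 := mul_le_mul c3 hlZ2' hlZ0' (by linarith only [hL1])
          _ = L ^ 3 := by ring
      have h2 : 0 ≤ (k₁ : ℝ) * (1 + Real.log Z) / y := by positivity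
      have h3 : v * P * ((k₁ : ℝ) * (1 + Real.log Z) / y) ^ 2 ≤ L * (L ^ 3 / y) ^ 2 := by
        apply mul_le_mul (hvPB.trans c4) (pow_le_pow_left₀ h2 h1 2) (by positivity) (by linarith only [hL1])
      have h4 : L * (L ^ 3 / y) ^ 2 = (L ^ 7 / y) * (1 / y) := by field_simp
      have h5 : L ^ 7 / y ≤ 1 / 100 := tiny M 7 hL1 hLM (by omega) le_rfl hpy rfl
      have h6 : (1 : ℝ) / y ≤ 1 := by rw [div_le_one hpy]; linarith only [hy2']
      have h7 : (L ^ 7 / y) * (1 / y) ≤ 1 / 100 * 1 :=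
        mul_le_mul h5 h6 (by positivity) (by norm_num)
      linarith only [h3, h4, h7]
    f5 := by
      rw [hcard]
      have h1 : (1 / 2 : ℝ) ^ b * (v * P * (1 + v * (P * XX R (alf S))) ^ (2 * k₀)) ≤
          (1 / 2 : ℝ) ^ b * ((1 + B) * (1 + B * (3 * t₀ ^ 8)) ^ (2 * k₀)) := by
        apply mul_le_mul_of_nonneg_left _ (by positivity)
        apply mul_le_mul (by linarith only [hvPB]) hpowX (by positivity) (by linarith only [hB0])
      exact h1.trans hN2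
    f6 := by
      rw [hcard, hyr, mul_div_assoc']
      refine tiny M (3 * (k₀ + k₁) + 2) hL1 hLM (by omega) ?_ hpy rfl
      calc v * (1 + v) ^ (k₀ + k₁) ≤ L ^ 2 * L ^ (3 * (k₀ + k₁)) :=
            mul_le_mul hvL (hL3 _) (by positivity) (by positivity)
        _ = L ^ (3 * (k₀ + k₁) + 2) := by ring
    f7 := by
      rw [hcard, hyr]
      have h1 : v * ((y : ℝ) ^ (C * b) * ((Z0 ^ k₀ : ℕ) : ℝ) ^ 4 * (1 + v) ^ (2 * k₀)) =
          (y : ℝ) ^ (C * b) * ((Z0 ^ k₀ : ℕ) : ℝ) ^ 4 * (v * (1 + v) ^ (2 * k₀)) := by ring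
      rw [h1]
      apply hrem _ (by positivity)
      calc v * (1 + v) ^ (2 * k₀) ≤ L ^ 2 * L ^ (3 * (2 * k₀)) :=
            mul_le_mul hvL (hL3 _) (by positivity) (by positivity)
        _ = L ^ (2 + 3 * (2 * k₀)) := by rw [pow_add]
        _ ≤ L ^ M := pow_le_pow_right₀ hL1 (by omega)
    g1 := hE01
    g2 := by
      rw [← hy, hE0]
      apply mul_le_mul_of_nonneg_left _ (by positivity)
      have := hEE 1
      rwa [pow_one] at this
    g3 := by rw [hcard]; exact hvPB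
    g4 := by
      rw [hcard, hyr]
      have h1 : (1 + v) ^ (4 * k₀) ≤ L ^ M := (hL3 _).trans (pow_le_pow_right₀ hL1 (by omega))
      have h2 := hrem ((1 + v) ^ (4 * k₀)) (by positivity) h1
      have h3 : (1 : ℝ) ≤ ((Z0 ^ k₀ : ℕ) : ℝ) ^ 4 := one_le_pow₀ (by exact_mod_cast hY1)
      have h4 : (y : ℝ) ^ (C * b) * (1 + v) ^ (4 * k₀) ≤
          (y : ℝ) ^ (C * b) * ((Z0 ^ k₀ : ℕ) : ℝ) ^ 4 * (1 + v) ^ (4 * k₀) := by
        apply mul_le_mul_of_nonneg_right _ (by positivity)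
        exact le_mul_of_one_le_right (by positivity) h3
      have h5 : 0 ≤ (x : ℝ) / WW x := by positivity
      linarith only [h2, h4, h5] }, rfl, rfl, hH, fun _ => rfl, rfl, rfl, rfl, ?_, ?_, ?_⟩
  · -- Z ≤ x ^ τ
    change (Z : ℝ) ≤ (x : ℝ) ^ τ
    rw [Real.rpow_def_of_pos hx0, ← hL]
    have h1 : (Z : ℝ) = Real.exp (Real.log Z) := (Real.exp_log hZpos).symm
    rw [h1]
    apply Real.exp_le_exp.2
    have h2 : 1 ≤ τ * (8 * N) := by
      rwa [div_le_iff₀ (by positivity)] at hNτ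
    calc Real.log Z ≤ (τ * (8 * N)) * Real.log Z := le_mul_of_one_le_left hlZpos.le h2
      _ = τ * (8 * N * Real.log Z) := by ring
      _ ≤ τ * L := mul_le_mul_of_nonneg_left hlZ1 hτ.le
      _ = L * τ := mul_comm _ _
  · change 2 ^ 2 ^ J ≤ Z
    rw [← hy]
    exact s7.trans hZ0Z
  · change zz x ≤ Z
    exact (H4.trans hHy).trans (s7.trans hZ0Z)

end Pool.Agent.N801.PF
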