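import Mathlib

/-!
# Positive proportion of long prime-free intervals: definitions and statements (helper801)

For every `A > 0` and `τ > 0` a positive proportion of the integers `n ≤ x` have every integer of
`(n, n + A log n]` divisible by a prime `≤ x ^ τ`.
All statements below are `Prop`s which are proved in the files `Pool/Agent/N801/PF/*.lean`.
-/

set_option autoImplicit false

open Finset

namespace Pool.Agent.N801.PF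

/-! ## Definitions -/

/-- the primes in `(u, v]` -/
def prs (u v : ℕ) : Finset ℕ := (Ioc u v).filter Nat.Prime

lemma mem_prs {u v p : ℕ} : p ∈ prs u v ↔ (u < p ∧ p ≤ v) ∧ p.Prime := by
  rw [prs, mem_filter, mem_Ioc]

/-- `m` has no prime factor in `(H, y]` -/
def act (H y m : ℕ) : Prop := ∀ p ∈ prs H y, ¬ p ∣ m

instance (H y m : ℕ) : Decidable (act H y m) := by unfold act; infer_instance

/-- `∏_{H < p ≤ y} (1 - j / p)` -/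
noncomputable def pj (H y j : ℕ) : ℝ := ∏ p ∈ prs H y, (1 - (j : ℝ) / (p : ℝ))

/-- `∏_{y < p ≤ Z} (1 + k / p)` -/
noncomputable def EE (y Z k : ℕ) : ℝ := ∏ p ∈ prs y Z, (1 + (k : ℝ) / (p : ℝ))

/-- the squarefree integers of `(Z0, Z]` all of whose prime factors exceed `y` -/
def RR (y Z0 Z : ℕ) : Finset ℕ :=
  (Ioc Z0 Z).filter (fun r => Squarefree r ∧ ∀ p ∈ r.primeFactors, y < p)

lemma mem_RR {y Z0 Z r : ℕ} :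
    r ∈ RR y Z0 Z ↔ (Z0 < r ∧ r ≤ Z) ∧ Squarefree r ∧ ∀ p ∈ r.primeFactors, y < p := by
  rw [RR, mem_filter, mem_Ioc]

/-- the members of `R` are squarefree integers `> 1`, `≤ Z`, all prime factors of which exceed `y` -/
def Adm (y Z : ℕ) (R : Finset ℕ) : Prop :=
  ∀ ρ ∈ R, 1 < ρ ∧ ρ ≤ Z ∧ Squarefree ρ ∧ ∀ p ∈ ρ.primeFactors, y < p

/-- the multiplicative function of `r`: `∏_{p ∣ r} (1 - p 1_{p ∣ m})` -/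
noncomputable def ph (r m : ℕ) : ℝ := ∏ p ∈ r.primeFactors, (if p ∣ m then 1 - (p : ℝ) else 1)

section Tuples

variable {ι : Type} [Fintype ι] [DecidableEq ι]

/-- the product of the coordinates -/
def mm (r : ι → ℕ) : ℕ := ∏ i, r i

/-- the tuples with coordinates in `{1} ∪ R`, pairwise coprime, with product at most `Y` -/
def Tu (ι : Type) [Fintype ι] [DecidableEq ι] (R : Finset ℕ) (Y : ℕ) : Finset (ι → ℕ) :=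
  (Fintype.piFinset (fun _ : ι => insert 1 R)).filter
    (fun r => (∀ i j, i ≠ j → (r i).Coprime (r j)) ∧ mm r ≤ Y)

omit [DecidableEq ι] in
lemma mem_Tu [DecidableEq ι] {R : Finset ℕ} {Y : ℕ} {r : ι → ℕ} : r ∈ Tu ι R Y ↔
    (∀ i, r i = 1 ∨ r i ∈ R) ∧ (∀ i j, i ≠ j → (r i).Coprime (r j)) ∧ mm r ≤ Y := by
  rw [Tu, mem_filter, Fintype.mem_piFinset]
  simp only [mem_insert]

/-- the support of a tuple -/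
def sp (r : ι → ℕ) : Finset ι := univ.filter (fun i => r i ≠ 1)

/-- the positions are distinct and lie in `[1, H]` -/
def Pos (H : ℕ) (pos : ι → ℕ) : Prop := Function.Injective pos ∧ ∀ i, 1 ≤ pos i ∧ pos i ≤ H

/-- the active positions: no prime of `(H, y]` divides `n + pos i` -/
def AA (H y : ℕ) (pos : ι → ℕ) (n : ℕ) : Finset ι := univ.filter (fun i => act H y (n + pos i))

/-- the basic function of the tuple `r` -/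
noncomputable def Fr (H y : ℕ) (pos r : ι → ℕ) (n : ℕ) : ℝ :=
  ∏ i, (if r i = 1 then 1 else if act H y (n + pos i) then ph (r i) (n + pos i) else 0)

/-- the coefficient of the tuple `r` -/
noncomputable def cf (al : ℕ → ℝ) (r : ι → ℕ) : ℝ := ∏ i, (if r i = 1 then 1 else - al (r i))

/-- product weights -/
noncomputable def Wt (om : ℕ → ℝ) (r : ι → ℕ) : ℝ := ∏ i, (if r i = 1 then 1 else om (r i))

/-- `Θ_{r,r'}(a)` -/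
noncomputable def Th (pos r r' : ι → ℕ) (a : ℕ) : ℝ :=
  (∏ i, ph (r i) (a + pos i)) * ∏ i, ph (r' i) (a + pos i)

/-- the primes which divide one of the coordinates -/
def QQ (r r' : ι → ℕ) : Finset ℕ := (mm r * mm r').primeFactors

/-- the modulus of a pair of tuples -/
def MM (r r' : ι → ℕ) : ℕ := ∏ p ∈ QQ r r', p

/-- the bound for the average of `|Θ|` -/
noncomputable def BB (r r' : ι → ℕ) : ℝ :=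
  ∏ i, ((2 : ℝ) ^ ((r i).primeFactors.card + (r' i).primeFactors.card) * (Nat.gcd (r i) (r' i) : ℝ))

/-- the bracket -/
noncomputable def be (R : Finset ℕ) (Y : ℕ) (al : ℕ → ℝ) (r : ι → ℕ) : ℝ :=
  1 - ∑ s ∈ R.filter (fun s => s.Coprime (mm r) ∧ s * mm r ≤ Y), al s

/-- the coefficients after fixing the position `i₀` -/
noncomputable def ci (R : Finset ℕ) (Y : ℕ) (al : ℕ → ℝ) (i₀ : ι) (r : ι → ℕ) : ℝ :=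
  if r i₀ = 1 then cf al r * be R Y al r else 0

end Tuples

/-- `2 Σ al(ρ) 2^ω(ρ) + Σ Σ al(ρ) al(ρ') 2^(ω(ρ) + ω(ρ')) (ρ, ρ')` -/
noncomputable def XX (R : Finset ℕ) (al : ℕ → ℝ) : ℝ :=
  2 * ∑ ρ ∈ R, al ρ * 2 ^ ρ.primeFactors.card +
    ∑ ρ ∈ R, ∑ ρ' ∈ R, al ρ * al ρ' *
      ((2 : ℝ) ^ (ρ.primeFactors.card + ρ'.primeFactors.card) * (Nat.gcd ρ ρ' : ℝ))

/-- the class `b₀` modulo `W` in `(u, v]` -/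
def II (u v W b₀ : ℕ) : Finset ℕ := (Ioc u v).filter (fun n => n % W = b₀ % W)

lemma mem_II {u v W b₀ n : ℕ} : n ∈ II u v W b₀ ↔ (u < n ∧ n ≤ v) ∧ n % W = b₀ % W := by
  rw [II, mem_filter, mem_Ioc]

/-! ## Elementary statements -/

/-- (CRT) averages of products of periodic functions -/
def CRT1 : Prop := ∀ (Q : Finset ℕ) (f : ℕ → ℕ → ℝ), (∀ p ∈ Q, p.Prime) →
  (∀ p ∈ Q, ∀ a, f p (a + p) = f p a) →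
  ∑ a ∈ range (∏ p ∈ Q, p), ∏ p ∈ Q, f p a = ∏ p ∈ Q, ∑ a ∈ range p, f p a

/-- (FLT) the fundamental lemma for active positions with the constant `C` -/
def FLTC (C : ℕ) : Prop := 1 ≤ C ∧ ∀ κ b J H q u v a : ℕ, C * (κ + 1) ≤ b → C * (κ + 1) ≤ H →
  1 ≤ q → u ≤ v → (∀ p ∈ prs H (2 ^ 2 ^ J), ¬ p ∣ q) → ∀ T : Finset ℕ, T ⊆ Icc 1 H → T.card ≤ κ →
  |((((Ioc u v).filter (fun n => n % q = a % q ∧ ∀ h ∈ T, act H (2 ^ 2 ^ J) (n + h))).card : ℕ) : ℝ) -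
      ((v : ℝ) - u) / q * pj H (2 ^ 2 ^ J) T.card| ≤
    (1 / 2 : ℝ) ^ b * (((v : ℝ) - u) / q * pj H (2 ^ 2 ^ J) T.card) + ((2 : ℝ) ^ 2 ^ J) ^ (C * b)

def FLT : Prop := ∃ C : ℕ, FLTC C

/-- (PAIR) the sum of a periodic function over the `n` for which the positions of `T` are active -/
def PAIR : Prop := ∀ C : ℕ, FLTC C → ∀ κ b J H W u v b₀ : ℕ, C * (κ + 1) ≤ b → C * (κ + 1) ≤ H →
  H ≤ 2 ^ 2 ^ J → 1 ≤ W → (∀ p : ℕ, p.Prime → p ∣ W → p ≤ H) → u ≤ v →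
  ∀ Q : Finset ℕ, (∀ p ∈ Q, p.Prime ∧ 2 ^ 2 ^ J < p) →
  ∀ f : ℕ → ℝ, (∀ n, f (n + ∏ p ∈ Q, p) = f n) → ∀ T : Finset ℕ, T ⊆ Icc 1 H → T.card ≤ κ →
  |∑ n ∈ (II u v W b₀).filter (fun n => ∀ h ∈ T, act H (2 ^ 2 ^ J) (n + h)), f n -
      ((v : ℝ) - u) / W * pj H (2 ^ 2 ^ J) T.card *
        ((∑ a ∈ range (∏ p ∈ Q, p), f a) / ((∏ p ∈ Q, p : ℕ) : ℝ))| ≤
    (1 / 2 : ℝ) ^ b * (((v : ℝ) - u) / W * pj H (2 ^ 2 ^ J) T.card *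
        ((∑ a ∈ range (∏ p ∈ Q, p), |f a|) / ((∏ p ∈ Q, p : ℕ) : ℝ))) +
      ((2 : ℝ) ^ 2 ^ J) ^ (C * b) * ∑ a ∈ range (∏ p ∈ Q, p), |f a|

/-- (LOC1) the diagonal average -/
def LOC1 : Prop := ∀ (ι : Type) [Fintype ι] [DecidableEq ι] (pos : ι → ℕ) (H y Z Y : ℕ)
  (R : Finset ℕ), Pos H pos → H ≤ y → Adm y Z R → ∀ r ∈ Tu ι R Y,
  (∑ a ∈ range (MM r r), Th pos r r a) / (MM r r : ℝ) = (Nat.totient (mm r) : ℝ)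

/-- (LOC2) the off-diagonal averages -/
def LOC2 : Prop := ∀ (ι : Type) [Fintype ι] [DecidableEq ι] (pos : ι → ℕ) (H y Z Y : ℕ)
  (R : Finset ℕ), Pos H pos → H ≤ y → 1 ≤ y → Adm y Z R → ∀ r ∈ Tu ι R Y, ∀ r' ∈ Tu ι R Y, r ≠ r' →
  |(∑ a ∈ range (MM r r'), Th pos r r' a) / (MM r r' : ℝ)| ≤
    if mm r = mm r' then (mm r : ℝ) / y else 0

/-- (LOC3) the averages of the absolute values -/
def LOC3 : Prop := ∀ (ι : Type) [Fintype ι] [DecidableEq ι] (pos : ι → ℕ) (H y Z Y : ℕ)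
  (R : Finset ℕ), Pos H pos → H ≤ y → Adm y Z R → ∀ r ∈ Tu ι R Y, ∀ r' ∈ Tu ι R Y,
  (∑ a ∈ range (MM r r'), |Th pos r r' a|) / (MM r r' : ℝ) ≤ BB r r'

/-- (LOC4) trivial facts -/
def LOC4 : Prop := ∀ (ι : Type) [Fintype ι] [DecidableEq ι] (pos : ι → ℕ) (y Z Y : ℕ)
  (R : Finset ℕ), Adm y Z R → ∀ r ∈ Tu ι R Y, ∀ r' ∈ Tu ι R Y,
  (∀ a, Th pos r r' (a + MM r r') = Th pos r r' a) ∧ (∀ a, |Th pos r r' a| ≤ (mm r : ℝ) * mm r') ∧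
  MM r r' ≤ mm r * mm r' ∧ 1 ≤ mm r ∧ (∀ p ∈ QQ r r', p.Prime ∧ y < p)

/-- (SA) the sum of the coefficients -/
def SA : Prop := ∀ (ι : Type) [Fintype ι] [DecidableEq ι] (Y k₀ : ℕ) (R : Finset ℕ) (al : ℕ → ℝ),
  (∀ ρ ∈ R, 1 < ρ ∧ 0 ≤ al ρ) → ∑ ρ ∈ R, al ρ ≤ 1 → (∀ r ∈ Tu ι R Y, (sp r).card ≤ k₀) →
  ∑ r ∈ Tu ι R Y, |cf al r| ≤ (1 + (Fintype.card ι : ℝ)) ^ k₀

/-- (SB) the pairs of tuples with the same product -/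
def SB : Prop := ∀ (ι : Type) [Fintype ι] [DecidableEq ι] (y Z Y k₀ k₁ : ℕ) (R : Finset ℕ)
  (al : ℕ → ℝ), Adm y Z R → (∀ ρ ∈ R, 0 ≤ al ρ ∧ al ρ ≤ 1 / (ρ : ℝ)) → ∑ ρ ∈ R, al ρ ≤ 1 →
  (∀ r ∈ Tu ι R Y, (sp r).card ≤ k₀) → (∀ r ∈ Tu ι R Y, (mm r).primeFactors.card ≤ k₁) →
  ∑ r ∈ Tu ι R Y, ∑ r' ∈ (Tu ι R Y).filter (fun r' => mm r = mm r'),
    |cf al r| * |cf al r'| * (mm r : ℝ) ≤ (1 + (Fintype.card ι : ℝ)) ^ (k₀ + k₁)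

/-- (SC) the absolute sum of the fundamental lemma -/
def SC : Prop := ∀ (ι : Type) [Fintype ι] [DecidableEq ι] (Y k₀ : ℕ) (R : Finset ℕ) (al : ℕ → ℝ)
  (P : ℝ) (T₀ : Finset ι), 0 ≤ P → (∀ ρ ∈ R, 1 < ρ ∧ 0 ≤ al ρ) →
  (∀ r ∈ Tu ι R Y, (sp r).card ≤ k₀) →
  ∑ r ∈ (Tu ι R Y).filter (fun r => Disjoint (sp r) T₀),
    ∑ r' ∈ (Tu ι R Y).filter (fun r' => Disjoint (sp r') T₀),
      |cf al r| * |cf al r'| * (P ^ (sp r ∪ sp r' ∪ T₀).card * BB r r') ≤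
    P ^ T₀.card * (1 + (Fintype.card ι : ℝ) * (P * XX R al)) ^ (2 * k₀)

/-- (XB) the bound for `XX` -/
def XB : Prop := ∀ (y Z : ℕ) (R : Finset ℕ) (al : ℕ → ℝ), Adm y Z R →
  (∀ ρ ∈ R, 0 ≤ al ρ ∧ al ρ ≤ 1 / (ρ : ℝ)) →
  XX R al ≤ 2 * EE y Z 2 + EE y Z 4 * EE y Z 2 ^ 2

/-- (BR) the value at an integer with a rough position -/
def BR : Prop := ∀ (ι : Type) [Fintype ι] [DecidableEq ι] (pos : ι → ℕ) (H y Y : ℕ) (R : Finset ℕ)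
  (al : ℕ → ℝ) (i₀ : ι) (n : ℕ), (∀ ρ ∈ R, 1 < ρ) → i₀ ∈ AA H y pos n →
  (∀ ρ ∈ R, ∀ p ∈ ρ.primeFactors, ¬ p ∣ n + pos i₀) →
  ∑ r ∈ Tu ι R Y, cf al r * Fr H y pos r n = ∑ r ∈ Tu ι R Y, ci R Y al i₀ r * Fr H y pos r n

/-- (BE) bounds for the bracket -/
def BE : Prop := ∀ (ι : Type) [Fintype ι] [DecidableEq ι] (y Z Y k₁ : ℕ) (R : Finset ℕ)
  (al : ℕ → ℝ), Adm y Z R → 1 ≤ y → 1 ≤ Z → (∀ ρ ∈ R, 0 ≤ al ρ ∧ al ρ ≤ 1 / (ρ : ℝ)) →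
  ∑ ρ ∈ R, al ρ = 1 → (∀ r ∈ Tu ι R Y, (mm r).primeFactors.card ≤ k₁) → ∀ r ∈ Tu ι R Y,
  0 ≤ be R Y al r ∧ be R Y al r ≤ 1 ∧
    (mm r * Z ≤ Y → be R Y al r ≤ (k₁ : ℝ) * (1 + Real.log Z) / y)

/-- (PU) upper bound for the weight of the tuples with a large product -/
def PU : Prop := ∀ (ι : Type) [Fintype ι] [DecidableEq ι] (R : Finset ℕ) (om : ℕ → ℝ) (θ X : ℝ),
  (∀ ρ ∈ R, 1 < ρ ∧ 0 ≤ om ρ) → 0 ≤ θ → 0 < X →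
  ∑ r ∈ (Fintype.piFinset (fun _ : ι => insert 1 R)).filter (fun r => X ≤ (mm r : ℝ)), Wt om r ≤
    X ^ (-θ) * Real.exp ((Fintype.card ι : ℝ) * ∑ ρ ∈ R, om ρ * (ρ : ℝ) ^ θ)

/-- (PL) lower bound for the weight of the admissible tuples -/
def PL : Prop := ∀ (ι : Type) [Fintype ι] [DecidableEq ι] (y Z Y : ℕ) (R : Finset ℕ) (om : ℕ → ℝ)
  (θ D : ℝ), Adm y Z R → 1 ≤ y → 1 ≤ Y → (∀ ρ ∈ R, 0 ≤ om ρ) → 0 ≤ θ →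
  (Fintype.card ι : ℝ) * (∑ ρ ∈ R, om ρ) ^ 2 ≤ 1 → 0 ≤ D →
  (∀ p : ℕ, p.Prime → ∑ ρ ∈ R.filter (fun ρ => p ∣ ρ), om ρ ≤ D / p) →
  Real.exp ((Fintype.card ι : ℝ) * ∑ ρ ∈ R, om ρ - 1) -
      (Y : ℝ) ^ (-θ) * Real.exp ((Fintype.card ι : ℝ) * ∑ ρ ∈ R, om ρ * (ρ : ℝ) ^ θ) -
      (Fintype.card ι : ℝ) ^ 2 * D ^ 2 / y * Real.exp ((Fintype.card ι : ℝ) * ∑ ρ ∈ R, om ρ) ≤
    ∑ r ∈ Tu ι R Y, Wt om r

/-! ## Primes -/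

/-- (ME1) reciprocals of the rough numbers -/
def ME1 : Prop := ∃ (κ₁ : ℕ) (c : ℝ) (y₁ : ℕ), 1 ≤ κ₁ ∧ 0 < c ∧ ∀ m y Z0 Z : ℕ, y₁ ≤ y → y ≤ Z0 →
  Z0 ^ (κ₁ ^ m) ≤ Z → c * m / Real.log y ≤ ∑ ρ ∈ RR y Z0 Z, 1 / ((ρ : ℝ) * Real.log ρ)

/-- (ME2) upper bound for `∏ (1 - 1 / p)` -/
def ME2 : Prop := ∃ C : ℝ, 0 < C ∧ ∀ a y : ℕ, 2 ≤ a → a ≤ y →
  pj a y 1 ≤ C * Real.log a / Real.log y

/-- (ME3) upper bound for `∏ (1 + k / p)` -/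
def ME3 : Prop := ∃ C : ℝ, 1 ≤ C ∧ ∀ y Z k : ℕ, 2 ≤ y → y ≤ Z →
  EE y Z k ≤ (C * (Real.log Z / Real.log y)) ^ k

/-- (PJ) comparison of `pj` with the powers of `pj 1` -/
def PJ : Prop := ∀ H y j : ℕ, 1 ≤ H → j ≤ H → 0 ≤ pj H y j ∧ pj H y j ≤ 1 ∧
  pj H y j ≤ pj H y 1 ^ j ∧ (2 * j ≤ H → (1 - (j : ℝ) ^ 2 / H) * pj H y 1 ^ j ≤ pj H y j)

/-- (AV) the average number of the positions which are prime to `W` -/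
def AV : Prop := ∀ W H : ℕ, 1 ≤ W →
  ∑ b ∈ range W, ((Icc 1 H).filter (fun h => (b + h).Coprime W)).card = H * Nat.totient W

/-! ## Second and fourth moments -/

/-- (SM) the second moment -/
def SM : Prop := ∀ C : ℕ, FLTC C → ∀ (ι : Type) [Fintype ι] [DecidableEq ι]
  (κ b J H W u v b₀ Z Y k₀ k₁ : ℕ) (R : Finset ℕ) (al : ℕ → ℝ) (pos : ι → ℕ) (T₀ : Finset ι)
  (c : (ι → ℕ) → ℝ), C * (κ + 1) ≤ b → C * (κ + 1) ≤ H → 2 * k₀ + 1 ≤ κ → H ≤ 2 ^ 2 ^ J → 1 ≤ W →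
  (∀ p : ℕ, p.Prime → p ∣ W → p ≤ H) → u ≤ v → Pos H pos → Adm (2 ^ 2 ^ J) Z R →
  (∀ ρ ∈ R, 0 ≤ al ρ ∧ al ρ ≤ 1 / (ρ : ℝ)) → ∑ ρ ∈ R, al ρ ≤ 1 →
  (∀ r ∈ Tu ι R Y, (sp r).card ≤ k₀) → (∀ r ∈ Tu ι R Y, (mm r).primeFactors.card ≤ k₁) →
  T₀.card ≤ 1 → (∀ r ∈ Tu ι R Y, |c r| ≤ |cf al r|) →
  (∀ r ∈ Tu ι R Y, c r ≠ 0 → Disjoint (sp r) T₀) →
  |∑ n ∈ (II u v W b₀).filter (fun n => T₀ ⊆ AA H (2 ^ 2 ^ J) pos n),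
        (∑ r ∈ Tu ι R Y, c r * Fr H (2 ^ 2 ^ J) pos r n) ^ 2 -
      ((v : ℝ) - u) / W * ∑ r ∈ Tu ι R Y, c r ^ 2 * (Nat.totient (mm r) : ℝ) *
        pj H (2 ^ 2 ^ J) ((sp r).card + T₀.card)| ≤
    ((v : ℝ) - u) / W * ((1 / 2 : ℝ) ^ b * (pj H (2 ^ 2 ^ J) 1 ^ T₀.card *
        (1 + (Fintype.card ι : ℝ) * (pj H (2 ^ 2 ^ J) 1 * XX R al)) ^ (2 * k₀)) +
        (1 + (Fintype.card ι : ℝ)) ^ (k₀ + k₁) / (2 : ℝ) ^ 2 ^ J) +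
      ((2 : ℝ) ^ 2 ^ J) ^ (C * b) * (Y : ℝ) ^ 4 * (1 + (Fintype.card ι : ℝ)) ^ (2 * k₀)

/-- (PB) the pointwise bound -/
def PB : Prop := ∀ (ι : Type) [Fintype ι] [DecidableEq ι] (H y Z Y k₀ k₂ n : ℕ) (R : Finset ℕ)
  (al : ℕ → ℝ) (pos : ι → ℕ) (E : ℝ), Adm y Z R → 2 ≤ y → (∀ ρ ∈ R, 0 ≤ al ρ ∧ al ρ ≤ 1 / (ρ : ℝ)) →
  (∀ r ∈ Tu ι R Y, (sp r).card ≤ k₀) → (∀ i, 1 ≤ pos i ∧ n + pos i < y ^ (k₂ + 1)) →
  1 ≤ E → 2 ^ k₂ * EE y Z 1 ≤ E →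
  |∑ r ∈ Tu ι R Y, cf al r * Fr H y pos r n| ≤
    E ^ k₀ * (((AA H y pos n).powerset.filter (fun S => S.card ≤ k₀)).card : ℝ)

/-- (MB) the fourth moment of the number of the small sets of active positions -/
def MB : Prop := ∀ C : ℕ, FLTC C → ∀ (ι : Type) [Fintype ι] [DecidableEq ι]
  (κ b J H W u v b₀ k₀ : ℕ) (pos : ι → ℕ), C * (κ + 1) ≤ b → C * (κ + 1) ≤ H → 4 * k₀ ≤ κ →
  1 ≤ W → (∀ p : ℕ, p.Prime → p ∣ W → p ≤ H) → u ≤ v → Pos H pos →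
  ∑ n ∈ II u v W b₀,
      (((AA H (2 ^ 2 ^ J) pos n).powerset.filter (fun S => S.card ≤ k₀)).card : ℝ) ^ 4 ≤
    (2 : ℝ) ^ (16 * k₀) * (2 * (((v : ℝ) - u) / W) *
        (1 + (Fintype.card ι : ℝ) * pj H (2 ^ 2 ^ J) 1) ^ (4 * k₀) +
      ((2 : ℝ) ^ 2 ^ J) ^ (C * b) * (1 + (Fintype.card ι : ℝ)) ^ (4 * k₀))

end Pool.Agent.N801.PF
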